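import Pool.Agent.H25.VO.V14

/-!
# The lower bound for the number of regular eigenforms
-/

set_option autoImplicit false
set_option linter.overlappingInstances false
set_option linter.unusedSectionVars false

namespace Pool.Agent.H25.VO

open FF IntermediateField Module Pool.Agent.W603.LV Pool.Agent.W619.PQ Pool.Agent.Q70.CH
open KaehlerDifferential

section rank

variable {k : Type} [Field k] [CharZero k] [IsAlgClosed k] {F K : Type} [Field F] [Algebra k F]
  [IsFF k F] [Field K] [Algebra k K] [IsFF k K] [Algebra F K] [IsScalarTower k F K] {G : Type}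
  [CommGroup G] [Fintype G] {a : G →* (K ≃ₐ[k] K)}

/-- the projection to the `ψ`-part, written with the eigenfunction `y` -/
lemma exists_pr (hq : IsQuot a F) {ψ : G →* kˣ} {y : K} (hy : y ≠ 0)
    (hya : ∀ s, a s y = algebraMap k K (ψ s : k) * y) :
    ∃ pr : K →ₗ[k] F, (∀ z, algebraMap F K (pr z) * y =
      ∑ s : G, algebraMap k K ((ψ s)⁻¹ : kˣ) * a s z) ∧
      (∀ s z, pr (a s z) = (ψ s : k) • pr z) ∧
      (∀ f : F, pr (algebraMap F K f * y) = (Fintype.card G : k) • f) := by
  let T : K → K := fun z => ∑ s : G, algebraMap k K ((ψ s)⁻¹ : kˣ) * a s z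
  have hT1 : ∀ s z, a s (T z) = algebraMap k K (ψ s : k) * T z := by
    intro u z
    change a u (∑ s : G, _) = _ * ∑ s : G, _
    rw [map_sum, Finset.mul_sum]
    refine Fintype.sum_equiv (Equiv.mulLeft u) _ _ fun s => ?_
    rw [Equiv.coe_mulLeft, map_mul, (a u).commutes, ← mul_assoc, ← map_mul, map_mul ψ, mul_inv]
    have : ((ψ u : kˣ) : k) * (((ψ u)⁻¹ * (ψ s)⁻¹ : kˣ) : k) = ((ψ s)⁻¹ : kˣ) := by
      rw [← Units.val_mul, mul_inv_cancel_left]
    rw [this, map_mul]; rfl
  have hex : ∀ z, ∃ f : F, algebraMap F K f * y = T z := by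
    intro z
    obtain ⟨f, hf⟩ := hq.2 (T z / y) (by
      intro s
      have hχ : algebraMap k K (ψ s : k) ≠ 0 := by simp
      rw [map_div₀, hT1, hya]
      field_simp)
    exact ⟨f, by rw [hf]; field_simp⟩
  choose pr hpr using hex
  have huniq : ∀ f f' : F, algebraMap F K f * y = algebraMap F K f' * y → f = f' := by
    intro f f' h
    exact (algebraMap F K).injective (mul_right_cancel₀ hy h)
  have hk : ∀ (c : k) (f : F), algebraMap F K (c • f) = algebraMap k K c * algebraMap F K f := by
    intro c f
    rw [Algebra.smul_def, map_mul, ← IsScalarTower.algebraMap_apply]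
  refine ⟨{ toFun := pr, map_add' := ?_, map_smul' := ?_ }, hpr, ?_, ?_⟩
  · intro z w
    apply huniq
    rw [hpr, map_add, add_mul, hpr, hpr]
    change ∑ s : G, _ = ∑ s : G, _ + ∑ s : G, _
    rw [← Finset.sum_add_distrib]
    apply Finset.sum_congr rfl
    intro s _
    rw [map_add, mul_add]
  · intro c z
    apply huniq
    rw [hpr, RingHom.id_apply, hk, mul_assoc, hpr]
    change ∑ s : G, _ = _ * ∑ s : G, _
    rw [Finset.mul_sum]
    apply Finset.sum_congr rfl
    intro s _
    rw [map_smul, Algebra.smul_def]; ring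
  · intro u z
    apply huniq
    change algebraMap F K (pr (a u z)) * y = algebraMap F K ((ψ u : k) • pr z) * y
    rw [hpr, hk, mul_assoc, hpr, ← hT1]
    change ∑ s : G, _ = a u (∑ s : G, _)
    rw [map_sum]
    apply Finset.sum_congr rfl
    intro s _
    rw [map_mul, (a u).commutes]
    congr 1
    change (a s * a u) z = (a u * a s) z
    rw [← map_mul, ← map_mul, mul_comm]
  · intro f
    apply huniq
    change algebraMap F K (pr (algebraMap F K f * y)) * y = _
    rw [hpr, hk]
    change ∑ s : G, _ = _
    have h1 : ∀ s : G, algebraMap k K ((ψ s)⁻¹ : kˣ) * a s (algebraMap F K f * y) =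
        algebraMap F K f * y := by
      intro s
      rw [map_mul, hq.1, hya]
      have : algebraMap k K ((ψ s)⁻¹ : kˣ) * algebraMap k K (ψ s : k) = 1 := by
        rw [← map_mul, ← Units.val_mul, inv_mul_cancel, Units.val_one, map_one]
      linear_combination (algebraMap F K f * y) * this
    rw [Finset.sum_congr rfl fun s _ => h1 s, Finset.sum_const, Finset.card_univ, nsmul_eq_mul]
    simp [mul_assoc]

/-- **Lower bound for the number of eigenforms**: duality. -/
theorem rank_eigenforms (hq : IsQuot a F) {g : ℕ} (hg : IsGenus k F g) {ψ : G →* kˣ} {y : K}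
    (hy : y ≠ 0) (hya : ∀ s, a s y = algebraMap k K (ψ s : k) * y) (E : Place k F →₀ ℤ)
    (hE : ∀ (P : Place k K) (p : Place k F) (e : ℕ), Over P p e → ∀ f : F,
      Ge P 0 (algebraMap F K f * y) → Ge p (-E p) f) :
    ∃ r : ℕ, (r : Cardinal) ≤ Module.rank k (Eigenforms a ψ⁻¹) ∧ (g : ℤ) - 1 - ddeg E + ell E ≤ r := by
  classical
  have hFK : FiniteDimensional F K := finite_ext (k := k) F K
  obtain ⟨x₀, hx₀⟩ := IsFF.exists_transcendental (k := k) (K := F)
  let x : K := algebraMap F K x₀
  have hx : Transcendental k x := by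
    intro h
    exact hx₀ ((isAlgebraic_algebraMap_iff (algebraMap F K).injective).1 h)
  have hax : ∀ s, a s x = x := fun s => hq.1 s x₀
  obtain ⟨Q, _, _, π, r, v, hv, hr, hA, hB⟩ := exists_quot hg E hx₀
  refine ⟨r, ?_, hr⟩
  obtain ⟨pr, hpr, hpra, hprF⟩ := exists_pr hq hy hya
  -- the dual functionals
  have hdual : ∀ i : Fin r, ∃ μ : Q →ₗ[k] k, ∀ j, μ (π (v j)) = if j = i then 1 else 0 := by
    intro i
    have h1 : LinearIndependent k (fun j => π (v j)) := hv
    let b := Basis.span h1
    obtain ⟨μ, hμ⟩ := LinearMap.exists_extend (b.coord i)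
    refine ⟨μ, fun j => ?_⟩
    have h2 : π (v j) = ((b j : Submodule.span k (Set.range fun j => π (v j))) : Q) := by
      rw [Basis.span_apply]
    rw [h2]
    have h3 := LinearMap.congr_fun hμ (b j)
    rw [LinearMap.comp_apply, Submodule.subtype_apply] at h3
    rw [h3, Basis.coord_apply, Basis.repr_self, Finsupp.single_apply]
  choose μ hμ using hdual
  let lam : Fin r → (K →ₗ[k] k) := fun i => μ i ∘ₗ π ∘ₗ pr
  -- places
  have hbel : ∀ P : Place k K, ∃ (p : Place k F) (e : ℕ), Over P p e := by
    intro P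
    obtain ⟨p, e, he, h⟩ := exists_below (IsScalarTower.toAlgHom k F K) P
    exact ⟨p, e, he, h⟩
  have habove : ∀ p : Place k F, ∃ (P : Place k K) (e : ℕ), Over P p e := by
    intro p
    have hfin : (algebraMap F K).Finite := RingHom.finite_algebraMap.2 hFK
    obtain ⟨P, hP⟩ := exists_above (IsScalarTower.toAlgHom k F K) hfin p
    obtain ⟨e, he, h⟩ := below_spec (IsScalarTower.toAlgHom k F K) P
    rw [hP] at h
    exact ⟨P, e, he, h⟩
  have hsum : ∀ (P : Place k K) (z : K), (∀ s, Ge (act a s P) 0 z) →
      Ge P 0 (algebraMap F K (pr z) * y) := by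
    intro P z hz
    rw [hpr]
    apply Ge.sum
    intro s _
    have h1 : Ge P 0 (a s z) := by
      rcases hz s with h | h
      · left; rw [h, map_zero]
      · right; exact h
    simpa using (Ge.const (P := P) ((ψ s)⁻¹ : kˣ).val).mul h1
  have hlamB : ∀ i, ∀ z ∈ BB (k := k) x, lam i z = 0 := by
    intro i z hz
    have h1 : pr z ∈ GeS {p : Place k F | 0 ≤ p.ord x₀} E := by
      intro p hp
      obtain ⟨P, e, hPe⟩ := habove p
      apply hE P p e hPe
      apply hsum
      intro s
      apply hz
      rw [act_ord, hax]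
      change 0 ≤ P.ord (algebraMap F K x₀)
      rw [hPe.2]
      exact mul_nonneg (by positivity) hp
    change μ i (π (pr z)) = 0
    rw [hA _ h1, map_zero]
  have hlamI : ∀ i, ∀ z ∈ BI (k := k) x, lam i z = 0 := by
    intro i z hz
    have h1 : pr z ∈ GeS {p : Place k F | p.ord x₀ < 0} E := by
      intro p hp
      obtain ⟨P, e, hPe⟩ := habove p
      apply hE P p e hPe
      apply hsum
      intro s
      apply hz
      rw [act_ord, hax]
      change P.ord (algebraMap F K x₀) < 0
      rw [hPe.2]
      exact mul_neg_of_pos_of_neg (by exact_mod_cast hPe.1) hp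
    change μ i (π (pr z)) = 0
    rw [hB _ h1, map_zero]
  have hG : (Fintype.card G : k) ≠ 0 := by exact_mod_cast Fintype.card_ne_zero
  have hlamv : ∀ i j, lam i (algebraMap F K (v j) * y) = if j = i then (Fintype.card G : k) else 0 := by
    intro i j
    change μ i (π (pr _)) = _
    rw [hprF, map_smul, map_smul, hμ]
    split_ifs <;> simp
  have hlamne : ∀ i, lam i ≠ 0 := by
    intro i h
    have h1 := hlamv i i
    rw [h, if_pos rfl, LinearMap.zero_apply] at h1
    exact hG h1.symm
  have hlama : ∀ i s z, lam i (a s z) = (ψ s : k) * lam i z := by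
    intro i s z
    change μ i (π (pr _)) = _
    rw [hpra, map_smul, map_smul]; rfl
  choose f hf0 hf using fun i => exists_mult (lam i) (hlamI i) hx (hlamB i) (hlamne i)
  obtain ⟨dd, hdd⟩ := exists_der_one hx
  -- the forms
  have hmem : ∀ i, f i • D k K x ∈ Eigenforms a ψ⁻¹ := by
    intro i
    apply Submodule.subset_span
    refine ⟨fun P => regularAt_of hdd (mult_regular hx dd hdd (lam i) (hlamI i) (hlamB i) (hf0 i)
      (hf i) P), f i, x, hax, ?_, rfl⟩
    intro s
    have h1 := mult_eigen hx (hf i) (a s) (hax s) (ψ s : k) (hlama i s)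
    rw [MonoidHom.inv_apply]
    nth_rewrite 2 [← h1]
    rw [smul_smul, ← Units.val_mul, inv_mul_cancel, Units.val_one, one_smul]
  have hLI : LinearIndependent k (fun i => (⟨f i • D k K x, hmem i⟩ : Eigenforms a ψ⁻¹)) := by
    rw [Fintype.linearIndependent_iff]
    intro c hc j
    have h1 : ∑ i, c i • (f i • D k K x) = 0 := by
      have := congrArg Subtype.val hc
      simpa using this
    have h2 : (∑ i, c i • f i) • D k K x = 0 := by
      rw [Finset.sum_smul, ← h1]
      apply Finset.sum_congr rfl
      intro i _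
      rw [smul_assoc]
    have h3 : ∑ i, c i • f i = 0 := (smul_eq_zero.1 h2).resolve_right (D_ne_zero hdd)
    have h4 : ∑ i, c i * lam i (algebraMap F K (v j) * y) = 0 := by
      have h5 := Rs_sum hx Finset.univ c f (algebraMap F K (v j) * y)
      rw [h3, Rs_zero] at h5
      rw [h5]
      apply Finset.sum_congr rfl
      intro i _
      rw [lam_of_mult hx (hf i)]
    simp only [hlamv] at h4
    have h6 : ∑ i, c i * (if j = i then (Fintype.card G : k) else 0) = c j * Fintype.card G := by
      rw [Finset.sum_eq_single j]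
      · rw [if_pos rfl]
      · intro i _ hi
        rw [if_neg (Ne.symm hi), mul_zero]
      · intro h; exact absurd (Finset.mem_univ j) h
    rw [h6] at h4
    exact (mul_eq_zero.1 h4).resolve_right hG
  have := hLI.cardinal_le_rank
  simpa using this

end rank

end Pool.Agent.H25.VO
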