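import Pool.Agent.H25.VO.V9
import Pool.Agent.H25.VO.V15

/-!
# Paired characters: the vanishing theorem with the number of regular eigenforms
-/

set_option autoImplicit false
set_option linter.overlappingInstances false
set_option linter.unusedSectionVars false

namespace Pool.Agent.H25.VO

open FF IntermediateField Module Pool.Agent.W603.LV Pool.Agent.W619.PQ Pool.Agent.Q70.CH
open KaehlerDifferential

section pairing

/-- the larger of the two elements of a pair -/
lemma exists_max {ρ : Type} [Fintype ρ] [DecidableEq ρ] (τ : ρ → ρ) (h1 : ∀ P, τ P ≠ P)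
    (h2 : ∀ P, τ (τ P) = P) : ∃ (q : ρ → ρ) (S : Finset ρ),
      (∀ i, (Finset.univ.filter fun j => q j = i) = ∅ ∨
        (Finset.univ.filter fun j => q j = i) = {i, τ i}) ∧
      (Finset.univ.filter fun j => q j ≠ j) = S ∧
      ∀ f : ρ → ℤ, ∑ j, f j = ∑ j ∈ S, (f j + f (τ j)) := by
  classical
  obtain ⟨e⟩ : Nonempty (ρ ≃ Fin (Fintype.card ρ)) := ⟨Fintype.equivFin ρ⟩
  have he : ∀ P, e P < e (τ P) ∨ e (τ P) < e P := fun P =>
    lt_or_gt_of_ne fun h => h1 P (e.injective h).symm
  let q : ρ → ρ := fun P => if e P < e (τ P) then τ P else P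
  refine ⟨q, Finset.univ.filter fun j => e j < e (τ j), ?_, ?_, ?_⟩
  · intro i
    by_cases hi : e i < e (τ i)
    · left
      rw [Finset.filter_eq_empty_iff]
      intro j _ hj
      by_cases hj2 : e j < e (τ j)
      · have : τ j = i := by simpa [q, hj2] using hj
        rw [← this, h2] at hi
        exact absurd hi (not_lt.2 hj2.le)
      · have : j = i := by simpa [q, hj2] using hj
        rw [this] at hj2
        exact hj2 hi
    · right
      ext j
      rw [Finset.mem_filter, Finset.mem_insert, Finset.mem_singleton]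
      constructor
      · rintro ⟨-, hj⟩
        by_cases hj2 : e j < e (τ j)
        · have : τ j = i := by simpa [q, hj2] using hj
          right; rw [← this, h2]
        · left; simpa [q, hj2] using hj
      · rintro (rfl | rfl)
        · exact ⟨Finset.mem_univ _, by simp [q, hi]⟩
        · refine ⟨Finset.mem_univ _, ?_⟩
          have hlt : e (τ i) < e (τ (τ i)) := by
            rw [h2]; exact (he i).resolve_left hi
          simp only [q, if_pos hlt, h2]
  · ext j
    simp only [Finset.mem_filter, Finset.mem_univ, true_and, q]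
    by_cases hj : e j < e (τ j)
    · simp [hj, h1 j]
    · simp [hj]
  · intro f
    rw [Finset.sum_add_distrib, ← Finset.sum_filter_add_sum_filter_not Finset.univ
      (fun j => e j < e (τ j)) f]
    congr 1
    refine Finset.sum_bij' (fun j _ => τ j) (fun j _ => τ j) ?_ ?_ ?_ ?_ ?_
    · intro j hj
      rw [Finset.mem_filter] at hj ⊢
      refine ⟨Finset.mem_univ _, ?_⟩
      rw [h2]; exact (he j).resolve_left hj.2
    · intro j hj
      rw [Finset.mem_filter] at hj ⊢
      refine ⟨Finset.mem_univ _, ?_⟩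
      rw [h2]; exact not_lt.2 hj.2.le
    · intro j _; exact h2 j
    · intro j _; exact h2 j
    · intro j _; rw [h2]

lemma emod_pair {d a b : ℤ} (hd : 0 < d) (ha : ¬ d ∣ a) (h : d ∣ a + b) :
    (-a) % d + (-b) % d = d := by
  have h1 : 0 ≤ (-a) % d := Int.emod_nonneg _ hd.ne'
  have h2 : (-a) % d < d := Int.emod_lt_of_pos _ hd
  have h3 : 0 ≤ (-b) % d := Int.emod_nonneg _ hd.ne'
  have h4 : (-b) % d < d := Int.emod_lt_of_pos _ hd
  have h5 : (-a) % d ≠ 0 := fun h => ha (by
    have := Int.dvd_of_emod_eq_zero h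
    exact (Int.dvd_neg).1 this)
  have h6 : d ∣ (-a) % d + (-b) % d := by
    have h7 := Int.emod_add_mul_ediv (-a) d
    have h8 := Int.emod_add_mul_ediv (-b) d
    have h9 : (-a) % d + (-b) % d = -(a + b) - d * ((-a) / d + (-b) / d) := by linarith
    rw [h9]
    exact dvd_sub ((Int.dvd_neg).2 h) (dvd_mul_right _ _)
  obtain ⟨t, ht⟩ := h6
  have h7 : 0 < d * t := by rw [← ht]; omega
  have h8 : d * t < 2 * d := by rw [← ht]; omega
  have h9 : 0 < t := by
    by_contra hc
    have : d * t ≤ 0 := mul_nonpos_of_nonneg_of_nonpos hd.le (not_lt.1 hc)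
    omega
  have h10 : t < 2 := by
    by_contra hc
    have : d * 2 ≤ d * t := mul_le_mul_of_nonneg_left (not_lt.1 hc) hd.le
    omega
  have h11 : t = 1 := by omega
  rw [ht, h11, mul_one]

end pairing

variable {k : Type} [Field k] [CharZero k] [IsAlgClosed k] {F K : Type} [Field F] [Algebra k F]
  [IsFF k F] [Field K] [Algebra k K] [IsFF k K] [Algebra F K] [IsScalarTower k F K] {G : Type}
  [CommGroup G] [Fintype G] {a : G →* (K ≃ₐ[k] K)}

/-- `χ` is a *paired* character -/
def Paired (a : G →* (K ≃ₐ[k] K)) (F : Type) [Field F] [Algebra k F] [Algebra F K]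
    (χ : G →* kˣ) : Prop :=
  ∃ (y : K) (d : ℕ) (b : F) (τ : Place k F → Place k F), y ≠ 0 ∧ 0 < d ∧
    y ^ d = algebraMap F K b ∧ (∀ s, a s y = (χ s : k) • y) ∧ (∃ P : Place k F, ¬ (d : ℤ) ∣ P.ord b) ∧
    ∀ P : Place k F, ¬ (d : ℤ) ∣ P.ord b → τ P ≠ P ∧ τ (τ P) = P ∧ (d : ℤ) ∣ P.ord b + (τ P).ord b

lemma ell_zero_le {k : Type} [Field k] [CharZero k] [IsAlgClosed k] {K : Type} [Field K]
    [Algebra k K] [IsFF k K] : ell (0 : Place k K →₀ ℤ) ≤ 1 := by
  obtain ⟨P, -⟩ := exists_place (k := k) (K := K)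
  have h1 : -Finsupp.single P (1 : ℤ) ≤ (0 : Place k K →₀ ℤ) := by
    rw [neg_nonpos]
    exact Finsupp.single_nonneg.2 zero_le_one
  have h2 := ell_le h1
  have h3 : ddeg (-Finsupp.single P (1 : ℤ)) = -1 := by
    rw [ddeg_neg, ddeg_single, deg_one P]; simp
  have h4 : ell (-Finsupp.single P (1 : ℤ)) = 0 := by
    unfold ell
    rw [LL_eq_bot (by rw [h3]; norm_num)]
    simp
  rw [h3, h4, ddeg_zero] at h2
  linarith

lemma one_le_ell_zero {k : Type} [Field k] [CharZero k] [IsAlgClosed k] {K : Type} [Field K]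
    [Algebra k K] [IsFF k K] : 1 ≤ ell (0 : Place k K →₀ ℤ) := by
  unfold ell
  have h1 : (1 : K) ∈ LL (0 : Place k K →₀ ℤ) := by
    right
    intro P
    rw [P.ord_one]; simp
  have h2 : 0 < finrank k (LL (0 : Place k K →₀ ℤ)) := by
    rw [finrank_pos_iff_exists_ne_zero]
    exact ⟨⟨1, h1⟩, fun h => one_ne_zero (congrArg Subtype.val h)⟩
  exact_mod_cast h2

theorem exists_genus (k : Type) [Field k] [CharZero k] [IsAlgClosed k] (K : Type) [Field K]
    [Algebra k K] [IsFF k K] : ∃ g : ℕ, IsGenus k K g := by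
  obtain ⟨γ, N, h1, h2⟩ := riemann k K
  have h3 := h1 0
  have h4 := ell_zero_le (k := k) (K := K)
  rw [ddeg_zero] at h3
  obtain ⟨g, hg⟩ : ∃ g : ℕ, γ = (g : ℤ) - 1 := ⟨(γ + 1).toNat, by omega⟩
  refine ⟨g, N, fun D hD => ?_⟩
  rw [← ddeg_eq_sum] at hD ⊢
  have := h2 D hD
  change ell D = _
  omega

theorem paired_number (hq : IsQuot a F) {χ : G →* kˣ} (h : Paired a F χ) :
    ∃ c : ℕ, (∀ o : Place k F, Van a χ c o) ∧ (c : Cardinal) ≤ Module.rank k (Eigenforms a χ) := by
  classical
  obtain ⟨g, hg⟩ := exists_genus k F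
  obtain ⟨y, d, b, τ, hy, hd, hb, hya, ⟨P₀, hP₀⟩, hτ⟩ := h
  have hya' : ∀ s, a s y = algebraMap k K (χ s : k) * y := by
    intro s; rw [hya, Algebra.smul_def]
  have hd' : (0 : ℤ) < d := by exact_mod_cast hd
  -- the branch points
  have hfin : {P : Place k F | ¬ (d : ℤ) ∣ P.ord b}.Finite :=
    (finite_support (k := k) b).subset fun P hP h0 => hP (by
      rw [h0]; exact dvd_zero _)
  let ρ : Type := {P : Place k F // ¬ (d : ℤ) ∣ P.ord b}
  have : Finite ρ := hfin.to_subtype
  have : Fintype ρ := Fintype.ofFinite ρ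
  let t : ρ → ρ := fun P => ⟨τ P.1, fun hc => P.2 ((dvd_add_left hc).1 (hτ P.1 P.2).2.2)⟩
  have ht1 : ∀ P, t P ≠ P := fun P hP => (hτ P.1 P.2).1 (congrArg Subtype.val hP)
  have ht2 : ∀ P, t (t P) = P := fun P => Subtype.ext (hτ P.1 P.2).2.1
  obtain ⟨q, S, hq1, hq2, hq3⟩ := exists_max t ht1 ht2
  have hS : 0 < S.card := by
    rw [Finset.card_pos, Finset.nonempty_iff_ne_empty]
    intro hS
    have := hq3 (fun _ => 1)
    rw [hS, Finset.sum_empty, Finset.sum_const, Finset.card_univ] at this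
    have h0 : 0 < Fintype.card ρ := Fintype.card_pos_iff.2 ⟨⟨P₀, hP₀⟩⟩
    simp at this
    omega
  obtain ⟨m, hm⟩ : ∃ m, S.card = m + 1 := ⟨S.card - 1, by omega⟩
  refine ⟨g + m, ?_, ?_⟩
  · intro o ι _ _ W _ _ Ψ hι P1 P2 P3 _ x
    refine vanish_ramified (ρ := ρ) hq hg hy hya' hd hb (r := Subtype.val) Subtype.val_injective
      (q := q) ?_ ?_ ?_ (m := m) (by rw [hq2, hm]) hι P1 P2 P3 x
    · intro P hP
      by_contra hc
      exact hP ⟨⟨P, hc⟩, rfl⟩
    · intro j; exact j.2
    · intro i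
      rcases hq1 i with h | h
      · rw [h, Finset.sum_empty]; exact dvd_zero _
      · rw [h, Finset.sum_pair (ht1 i).symm]
        exact (hτ i.1 i.2).2.2
  · -- the Chevalley–Weil bound
    have hb0 : b ≠ 0 := by
      rintro rfl
      rw [map_zero] at hb
      exact hy ((pow_eq_zero_iff hd.ne').1 hb)
    let E : Place k F →₀ ℤ := Finsupp.onFinset (finite_support (k := k) b).toFinset
      (fun P => (-P.ord b) / d) (by
        intro P hP
        rw [Set.Finite.mem_toFinset]
        intro h0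
        apply hP
        change (-P.ord b) / (d : ℤ) = 0
        rw [h0]; simp)
    have hEdeg : ddeg E = - (m + 1 : ℕ) := by
      let T : Finset (Place k F) := (finite_support (k := k) b).toFinset
      have hT : ∀ P : Place k F, P.ord b ≠ 0 → P ∈ T := by
        intro P hP
        rw [Set.Finite.mem_toFinset]; exact hP
      have h1 : ddeg E = ∑ P ∈ T, (-P.ord b) / (d : ℤ) := by
        rw [ddeg_eq_sum]
        exact Finsupp.onFinset_sum _ (fun _ => rfl)
      have h2 : (d : ℤ) * ∑ P ∈ T, (-P.ord b) / (d : ℤ) = - ∑ P ∈ T, (-P.ord b) % (d : ℤ) := by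
        have h3 : ∑ P ∈ T, P.ord b = 0 := sum_ord_finset b T hT
        have h4 : ∑ P ∈ T, ((d : ℤ) * ((-P.ord b) / (d : ℤ)) + (-P.ord b) % (d : ℤ)) =
            ∑ P ∈ T, -P.ord b := by
          apply Finset.sum_congr rfl
          intro P _
          exact Int.mul_ediv_add_emod _ _
        rw [Finset.sum_add_distrib, Finset.sum_neg_distrib, h3, ← Finset.mul_sum] at h4
        linarith
      have h3 : ∑ P ∈ T, (-P.ord b) % (d : ℤ) = ∑ j : ρ, (-(j.1).ord b) % (d : ℤ) := by
        rw [← Finset.sum_subtype (T.filter fun P => ¬ (d : ℤ) ∣ P.ord b)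
          (p := fun P => ¬ (d : ℤ) ∣ P.ord b) ?_ (fun P => (-P.ord b) % (d : ℤ))]
        · rw [Finset.sum_filter]
          apply Finset.sum_congr rfl
          intro P _
          split_ifs with hc
          · exact Int.emod_eq_zero_of_dvd ((Int.dvd_neg).2 hc)
          · rfl
        · intro P
          rw [Finset.mem_filter]
          constructor
          · exact fun h => h.2
          · intro h
            exact ⟨hT P (fun h0 => h (by rw [h0]; exact dvd_zero _)), h⟩
      rw [hq3] at h3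
      have h4 : ∑ j ∈ S, ((-(j.1).ord b) % (d : ℤ) + (-((t j).1).ord b) % (d : ℤ)) =
          (m + 1 : ℕ) * (d : ℤ) := by
        rw [← hm, ← nsmul_eq_mul, ← Finset.sum_const]
        apply Finset.sum_congr rfl
        intro j _
        exact emod_pair hd' j.2 (hτ j.1 j.2).2.2
      rw [h4] at h3
      rw [h3, ← h1] at h2
      have h5 : (d : ℤ) * (ddeg E + (m + 1 : ℕ)) = 0 := by rw [mul_add, h2]; ring
      have := (mul_eq_zero.1 h5).resolve_left hd'.ne'
      linarith
    have hyinv : ∀ s, a s y⁻¹ = algebraMap k K (χ⁻¹ s : k) * y⁻¹ := by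
      intro s
      rw [map_inv₀, hya', mul_inv, MonoidHom.inv_apply, Units.val_inv_eq_inv_val, map_inv₀]
    obtain ⟨r, hr1, hr2⟩ := rank_eigenforms hq hg (ψ := χ⁻¹) (inv_ne_zero hy) hyinv E (by
      intro P p e hPe f hf
      rcases eq_or_ne f 0 with rfl | hf0
      · left; rfl
      right
      have hfK : algebraMap F K f ≠ 0 := by simpa using hf0
      have h1 : 0 ≤ P.ord (algebraMap F K f * y⁻¹) := by
        rcases hf with h | h
        · exact absurd h (mul_ne_zero hfK (inv_ne_zero hy))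
        · exact h
      have h2 : (d : ℤ) * P.ord (algebraMap F K f * y⁻¹) = e * (d * p.ord f - p.ord b) := by
        rw [← P.ord_pow, mul_pow, inv_pow, hb, ← map_inv₀, ← map_pow, ← map_mul, hPe.2,
          p.ord_mul (pow_ne_zero _ hf0) (inv_ne_zero hb0), p.ord_pow, p.ord_inv]
        ring
      have h3 : 0 ≤ (e : ℤ) * (d * p.ord f - p.ord b) := by
        rw [← h2]; exact mul_nonneg hd'.le h1
      have h4 : 0 ≤ (d : ℤ) * p.ord f - p.ord b :=
        nonneg_of_mul_nonneg_right h3 (by exact_mod_cast hPe.1)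
      change -((-p.ord b) / (d : ℤ)) ≤ p.ord f
      have h5 : -p.ord f ≤ (-p.ord b) / (d : ℤ) := by
        rw [Int.le_ediv_iff_mul_le hd']
        linarith
      linarith)
    have h0 : χ⁻¹⁻¹ = χ := by
      ext s
      rw [MonoidHom.inv_apply, MonoidHom.inv_apply, _root_.inv_inv]
    rw [h0] at hr1
    refine le_trans ?_ hr1
    rw [hEdeg] at hr2
    push_cast at hr2
    have h1 := ell_nonneg E
    have : g + m ≤ r := by omega
    exact_mod_cast this

theorem trivial_number (hq : IsQuot a F) :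
    ∃ c : ℕ, (∀ o : Place k F, Van a 1 c o) ∧ (c : Cardinal) ≤ Module.rank k (Eigenforms a 1) := by
  classical
  obtain ⟨g, hg⟩ := exists_genus k F
  refine ⟨g, ?_, ?_⟩
  · intro o ι _ _ W _ _ Ψ hι P1 P2 P3 P4 x
    refine vanish_trivial hq hg hι P1 ?_ P3 (P4 rfl) x
    intro u x
    rw [P2]; simp
  · obtain ⟨r, hr1, hr2⟩ := rank_eigenforms hq hg (ψ := 1) (y := 1) one_ne_zero (by simp) 0 (by
      intro P p e hPe f hf
      rcases eq_or_ne f 0 with rfl | hf0
      · left; rfl
      right
      have hfK : algebraMap F K f ≠ 0 := by simpa using hf0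
      have h1 : 0 ≤ P.ord (algebraMap F K f * 1) := by
        rcases hf with h | h
        · exact absurd h (mul_ne_zero hfK one_ne_zero)
        · exact h
      rw [mul_one, hPe.2] at h1
      rw [Finsupp.coe_zero, Pi.zero_apply, neg_zero]
      exact nonneg_of_mul_nonneg_right h1 (by exact_mod_cast hPe.1))
    have h0 : (1 : G →* kˣ)⁻¹ = 1 := by
      ext s
      rw [MonoidHom.inv_apply, MonoidHom.one_apply, _root_.inv_one]
    rw [h0] at hr1
    refine le_trans ?_ hr1
    have h1 := one_le_ell_zero (k := k) (K := F)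
    rw [ddeg_zero] at hr2
    have : g ≤ r := by omega
    exact_mod_cast this

end Pool.Agent.H25.VO
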