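import Pool.Agent.H25.VO.V11

/-!
# The quotient of the product of two curves
-/

set_option autoImplicit false
set_option linter.overlappingInstances false
set_option linter.unusedSectionVars false

namespace Pool.Agent.H25.VO

open FF Pool.Agent.Q70.CH Equiv

/-- The alternating sum `∑ τ, sgn(τ) a_{τ(1)} × ... × a_{τ(n)}`. -/
noncomputable def alt {X : Type} {n : ℕ} (a : Fin n → X →₀ ℚ) : (Fin n → X) →₀ ℚ :=
  ∑ τ : Perm (Fin n), ((Perm.sign τ : ℤ) : ℚ) • cross (fun i => a (τ i))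

lemma cross_smul {X : Type} {n : ℕ} (c : ℚ) (a : Fin n → X →₀ ℚ) :
    cross (fun i => c • a i) = c ^ n • cross a := by
  ext v
  rw [Finsupp.smul_apply, cross_apply, cross_apply]
  simp only [Finsupp.smul_apply, smul_eq_mul]
  rw [Finset.prod_mul_distrib, Finset.prod_const, Finset.card_univ, Fintype.card_fin]

lemma alt_smul {X : Type} {n : ℕ} (c : ℚ) (a : Fin n → X →₀ ℚ) :
    alt (fun i => c • a i) = c ^ n • alt a := by
  unfold alt
  rw [Finset.smul_sum]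
  apply Finset.sum_congr rfl
  intro τ _
  rw [cross_smul, smul_comm]

lemma alt_map {X Y : Type} {n : ℕ} (f : X → Y) (a : Fin n → X →₀ ℚ) :
    Finsupp.lmapDomain ℚ ℚ (fun v : Fin n → X => fun i => f (v i)) (alt a) =
      alt (fun i => (a i).mapDomain f) := by
  unfold alt
  rw [map_sum]
  apply Finset.sum_congr rfl
  intro τ _
  rw [map_smul]
  congr 1
  exact cross_map (fun i => a (τ i)) (fun _ => f)

section quotient

variable {k : Type} [Field k] [CharZero k] {F₁ F₂ K₁ K₂ : Type} [Field F₁] [Algebra k F₁]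
  [Field F₂] [Algebra k F₂] [Field K₁] [Algebra k K₁] [Field K₂] [Algebra k K₂] [Algebra F₁ K₁]
  [IsScalarTower k F₁ K₁] [Algebra F₂ K₂] [IsScalarTower k F₂ K₂] {G : Type} [CommGroup G]

/-- the diagonal action on the points of the product -/
noncomputable def act₂ (a₁ : G →* (K₁ ≃ₐ[k] K₁)) (a₂ : G →* (K₂ ≃ₐ[k] K₂)) (g : G)
    (p : Place k K₁ × Place k K₂) : Place k K₁ × Place k K₂ := (act a₁ g p.1, act a₂ g p.2)

/-- the orbits -/
def orb (a₁ : G →* (K₁ ≃ₐ[k] K₁)) (a₂ : G →* (K₂ ≃ₐ[k] K₂)) :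
    Setoid (Place k K₁ × Place k K₂) where
  r p q := ∃ g : G, q = act₂ a₁ a₂ g p
  iseqv :=
    { refl := fun p => ⟨1, by simp [act₂, act_one]⟩
      symm := by
        rintro p q ⟨g, rfl⟩
        exact ⟨g⁻¹, by simp [act₂, ← act_mul, act_one]⟩
      trans := by
        rintro p q r ⟨g, rfl⟩ ⟨h, rfl⟩
        exact ⟨h * g, by simp [act₂, act_mul]⟩ }

variable {a₁ : G →* (K₁ ≃ₐ[k] K₁)} {a₂ : G →* (K₂ ≃ₐ[k] K₂)} [Fintype G]

theorem voisin_quotient [IsAlgClosed k] [IsFF k K₁] [IsFF k K₂] [IsFF k F₁] [IsFF k F₂]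
    (hq₁ : IsQuot a₁ F₁) (hq₂ : IsQuot a₂ F₂) [Fintype (G →* kˣ)] {c₁ c₂ : (G →* kˣ) → ℕ}
    (V1 : ∀ χ (o : Place k F₁), Van a₁ χ (c₁ χ) o) (V2 : ∀ χ (o : Place k F₂), Van a₂ χ (c₂ χ) o)
    {n : ℕ} (hn : ∑ χ, c₁ χ * c₂ χ⁻¹ < n) (z : Fin n → (Place k K₁ × Place k K₂) →₀ ℚ)
    (h1 : ∀ i, (∑ g : G, (z i).mapDomain (act₂ a₁ a₂ g)).mapDomain Prod.fst ∈ TC k K₁)
    (h2 : ∀ i, (∑ g : G, (z i).mapDomain (act₂ a₁ a₂ g)).mapDomain Prod.snd ∈ TC k K₂) :
    alt (fun i => (z i).mapDomain (Quotient.mk (orb a₁ a₂))) ∈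
      (TT k K₁ K₂ n).map (Finsupp.lmapDomain ℚ ℚ
        (fun (v : Fin n → Place k K₁ × Place k K₂) i => Quotient.mk (orb a₁ a₂) (v i))) := by
  classical
  have key := voisin_core hq₁ hq₂ V1 V2 hn (fun i => ∑ g : G, (z i).mapDomain (act₂ a₁ a₂ g))
    (by
      intro i g
      change Finsupp.mapDomain (act₂ a₁ a₂ g) _ = _
      rw [Finsupp.mapDomain_finsetSum]
      refine Fintype.sum_equiv (Equiv.mulLeft g) _ _ fun h => ?_
      rw [Equiv.coe_mulLeft, ← Finsupp.mapDomain_comp]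
      congr 1
      ext1 p
      simp only [Function.comp, act₂, act_mul]) h1 h2
  have h3 : ∀ i, (∑ g : G, (z i).mapDomain (act₂ a₁ a₂ g)).mapDomain (Quotient.mk (orb a₁ a₂)) =
      (Fintype.card G : ℚ) • (z i).mapDomain (Quotient.mk (orb a₁ a₂)) := by
    intro i
    rw [Finsupp.mapDomain_finsetSum]
    have h4 : ∀ g : G, ((z i).mapDomain (act₂ a₁ a₂ g)).mapDomain (Quotient.mk (orb a₁ a₂)) =
        (z i).mapDomain (Quotient.mk (orb a₁ a₂)) := by
      intro g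
      rw [← Finsupp.mapDomain_comp]
      congr 1
      ext1 p
      exact Quotient.sound ⟨g⁻¹, by simp [act₂, ← act_mul, act_one]⟩
    rw [Finset.sum_congr rfl fun g _ => h4 g, Finset.sum_const, Finset.card_univ,
      Nat.cast_smul_eq_nsmul]
  have h5 := alt_map (Quotient.mk (orb a₁ a₂)) (fun i => ∑ g : G, (z i).mapDomain (act₂ a₁ a₂ g))
  simp only [h3] at h5
  rw [alt_smul] at h5
  have h6 : (Fintype.card G : ℚ) ^ n ≠ 0 := pow_ne_zero _ (by exact_mod_cast Fintype.card_ne_zero)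
  have h7 : alt (fun i => (z i).mapDomain (Quotient.mk (orb a₁ a₂))) =
      ((Fintype.card G : ℚ) ^ n)⁻¹ • Finsupp.lmapDomain ℚ ℚ
        (fun (v : Fin n → Place k K₁ × Place k K₂) i => Quotient.mk (orb a₁ a₂) (v i))
        (alt (fun i => ∑ g : G, (z i).mapDomain (act₂ a₁ a₂ g))) := by
    rw [h5, smul_smul, inv_mul_cancel₀ h6, one_smul]
  rw [h7]
  exact Submodule.smul_mem _ _ (Submodule.mem_map_of_mem key)

end quotient

end Pool.Agent.H25.VO
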