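import Pool.Graph.R_pool_sql_team_seeded_2aa45f1a.Q70.CH.Prod2

/-!
# Values of functions at places
-/

set_option autoImplicit false
set_option linter.overlappingInstances false
set_option linter.unusedSectionVars false

namespace Pool.Agent.H25.VO

open FF IntermediateField Module Pool.Agent.W603.LV Pool.Agent.W619.PQ Pool.Agent.Q70.CH

section vl

variable {k K : Type} [Field k] [Field K] [Algebra k K]

/-- the function `f` is regular at `P` with value `c` -/
def Vl (P : Place k K) (f : K) (c : k) : Prop := Ge P 1 (f - algebraMap k K c)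

variable {P : Place k K} {f g : K} {c c' : k}

lemma Vl.ge (h : Vl P f c) : Ge P 0 f := by
  have h1 : f = (f - algebraMap k K c) + algebraMap k K c := by ring
  rw [h1]
  exact (Ge.mono (by norm_num) h).add (Ge.const c)

lemma vl_zero_iff : Vl P f 0 ↔ Ge P 1 f := by
  unfold Vl; rw [map_zero, sub_zero]

lemma Vl.unique (h : Vl P f c) (h' : Vl P f c') : c = c' := by
  have h1 : Ge P 1 (algebraMap k K (c' - c)) := by
    have : algebraMap k K (c' - c) = (f - algebraMap k K c) - (f - algebraMap k K c') := by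
      rw [map_sub]; ring
    rw [this]; exact Ge.sub h h'
  by_contra hne
  have h2 : c' - c ≠ 0 := sub_ne_zero.2 (Ne.symm hne)
  rcases h1 with h1 | h1
  · exact h2 ((map_eq_zero (algebraMap k K)).1 h1)
  · rw [P.ord_const h2] at h1; omega

lemma Vl.const (P : Place k K) (c : k) : Vl P (algebraMap k K c) c := by
  unfold Vl; rw [sub_self]; exact Ge.zero

lemma Vl.one (P : Place k K) : Vl P (1 : K) (1 : k) := by
  have := Vl.const P (1 : k)
  rwa [map_one] at this

lemma Vl.add (h : Vl P f c) (h' : Vl P g c') : Vl P (f + g) (c + c') := by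
  unfold Vl
  have : f + g - algebraMap k K (c + c') = (f - algebraMap k K c) + (g - algebraMap k K c') := by
    rw [map_add]; ring
  rw [this]; exact Ge.add h h'

lemma Vl.sub (h : Vl P f c) (h' : Vl P g c') : Vl P (f - g) (c - c') := by
  unfold Vl
  have : f - g - algebraMap k K (c - c') = (f - algebraMap k K c) - (g - algebraMap k K c') := by
    rw [map_sub]; ring
  rw [this]; exact Ge.sub h h'

lemma Vl.mul (h : Vl P f c) (h' : Vl P g c') : Vl P (f * g) (c * c') := by
  unfold Vl
  have h1 : f * g - algebraMap k K (c * c') =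
      (f - algebraMap k K c) * g + algebraMap k K c * (g - algebraMap k K c') := by
    rw [map_mul]; ring
  rw [h1]
  have h2 := Ge.mul h h'.ge
  have h3 := Ge.mul (Ge.const (P := P) c) h'
  exact Ge.add (by simpa using h2) (by simpa using h3)

lemma Vl.smul (a : k) (h : Vl P f c) : Vl P (algebraMap k K a * f) (a * c) :=
  (Vl.const P a).mul h

lemma Vl.pow (h : Vl P f c) (n : ℕ) : Vl P (f ^ n) (c ^ n) := by
  induction n with
  | zero => simpa using Vl.one P
  | succ n ih => rw [pow_succ, pow_succ]; exact ih.mul h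

lemma Vl.prod {ι : Type} (s : Finset ι) {f : ι → K} {c : ι → k} (h : ∀ i ∈ s, Vl P (f i) (c i)) :
    Vl P (∏ i ∈ s, f i) (∏ i ∈ s, c i) := by
  classical
  induction s using Finset.induction_on with
  | empty => simpa using Vl.one P
  | insert a s ha ih =>
    rw [Finset.prod_insert ha, Finset.prod_insert ha]
    exact (h a (Finset.mem_insert_self _ _)).mul (ih fun i hi => h i (Finset.mem_insert_of_mem hi))

lemma Vl.sum {ι : Type} (s : Finset ι) {f : ι → K} {c : ι → k} (h : ∀ i ∈ s, Vl P (f i) (c i)) :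
    Vl P (∑ i ∈ s, f i) (∑ i ∈ s, c i) := by
  classical
  induction s using Finset.induction_on with
  | empty =>
    have := Vl.const P (0 : k)
    simpa using this
  | insert a s ha ih =>
    rw [Finset.sum_insert ha, Finset.sum_insert ha]
    exact (h a (Finset.mem_insert_self _ _)).add (ih fun i hi => h i (Finset.mem_insert_of_mem hi))

lemma Vl.ne_zero (h : Vl P f c) (hc : c ≠ 0) : f ≠ 0 ∧ P.ord f = 0 := by
  have hc' : algebraMap k K c ≠ 0 := by simpa using hc
  rcases h with h | h
  · rw [sub_eq_zero] at h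
    rw [h]
    exact ⟨hc', P.ord_const hc⟩
  · by_cases hz : f - algebraMap k K c = 0
    · rw [sub_eq_zero] at hz
      rw [hz]
      exact ⟨hc', P.ord_const hc⟩
    have h1 := P.ord_add_eq hc' hz (by rw [P.ord_const hc]; omega)
    rw [add_sub_cancel] at h1
    exact ⟨h1.1, by rw [h1.2, P.ord_const hc]⟩

lemma Vl.ne_zero_of_ord (h : Vl P f c) (hf : f ≠ 0) (h0 : P.ord f = 0) : c ≠ 0 := by
  rintro rfl
  rw [vl_zero_iff] at h
  rcases h with h | h
  · exact hf h
  · omega

lemma Vl.inv (h : Vl P f c) (hc : c ≠ 0) : Vl P f⁻¹ c⁻¹ := by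
  obtain ⟨hf, h0⟩ := h.ne_zero hc
  have hc' : algebraMap k K c ≠ 0 := by simpa using hc
  unfold Vl
  have h1 : f⁻¹ - algebraMap k K c⁻¹ = (f - algebraMap k K c) * (-(f⁻¹ * (algebraMap k K c)⁻¹)) := by
    rw [map_inv₀]
    field_simp
    ring
  rw [h1]
  have h2 : Ge P 0 (-(f⁻¹ * (algebraMap k K c)⁻¹)) := by
    right
    rw [P.ord_neg, P.ord_mul (inv_ne_zero hf) (inv_ne_zero hc'), P.ord_inv, P.ord_inv, h0,
      P.ord_const hc]
    simp
  have h3 := Ge.mul h h2
  simpa using h3

lemma Vl.div (h : Vl P f c) (h' : Vl P g c') (hc : c' ≠ 0) : Vl P (f / g) (c / c') := by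
  rw [div_eq_mul_inv, div_eq_mul_inv]; exact h.mul (h'.inv hc)

lemma Vl.zpow (h : Vl P f c) (hc : c ≠ 0) (n : ℤ) : Vl P (f ^ n) (c ^ n) := by
  cases n with
  | ofNat n => simpa using h.pow n
  | negSucc n =>
    rw [zpow_negSucc, zpow_negSucc]
    exact (h.pow _).inv (pow_ne_zero _ hc)

lemma vl_comp {σ : K ≃ₐ[k] K} : Vl (P.comp σ) f c ↔ Vl P (σ f) c := by
  unfold Vl Ge
  rw [P.comp_ord, map_sub, σ.commutes]
  have : f - algebraMap k K c = 0 ↔ σ f - algebraMap k K c = 0 := by
    constructor
    · intro h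
      have := congrArg σ h
      rwa [map_sub, σ.commutes, map_zero] at this
    · intro h
      apply σ.injective
      rw [map_sub, σ.commutes, map_zero]; exact h
  rw [this]

end vl

section vl2

variable {k K : Type} [Field k] [Field K] [Algebra k K] [CharZero k] [IsAlgClosed k] [IsFF k K]

theorem exists_vl (P : Place k K) {f : K} (hf : Ge P 0 f) : ∃ c, Vl P f c := by
  have h1 : finrank k P.RF = 1 := deg_one P
  have hreg : P.Reg f := hf
  obtain ⟨c, hc⟩ : ∃ c : k, algebraMap k P.RF c = P.red f := by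
    obtain ⟨v, hv, h⟩ := finrank_eq_one_iff'.1 h1
    obtain ⟨a, ha⟩ := h (P.red f)
    obtain ⟨b, hb⟩ := h 1
    refine ⟨a / b, ?_⟩
    have hb0 : b ≠ 0 := by
      rintro rfl
      rw [zero_smul] at hb
      exact zero_ne_one hb
    have h3 : v = b⁻¹ • (1 : P.RF) := by rw [← hb, smul_smul, inv_mul_cancel₀ hb0, one_smul]
    rw [Algebra.algebraMap_eq_smul_one, ← ha, h3, smul_smul, div_eq_mul_inv]
  refine ⟨c, ?_⟩
  have h2 : P.red (f - algebraMap k K c) = 0 := by
    rw [P.red_sub hreg (P.reg_const c), ← hc, P.algebraMap_RF, sub_self]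
  have h3 : P.Reg (f - algebraMap k K c) := by
    rw [sub_eq_add_neg]
    exact P.reg_add hreg (P.reg_neg (P.reg_const c))
  rw [P.red_eq_zero_iff h3] at h2
  rcases h2 with h2 | h2
  · exact Or.inl h2
  · exact Or.inr (by omega)

variable {L : Type} [Field L] [Algebra k L] [IsFF k L]

lemma ge_below {φ : K →ₐ[k] L} {Q : Place k L} {f : K} {n : ℤ} (hn : 0 ≤ n) (h : Ge (below φ Q) n f) :
    Ge Q n (φ f) := by
  obtain ⟨e, he, hs⟩ := below_spec φ Q
  rcases h with h | h
  · left; rw [h, map_zero]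
  · right
    rw [hs]
    nlinarith

lemma vl_below {φ : K →ₐ[k] L} {Q : Place k L} {f : K} {c : k} (h : Vl (below φ Q) f c) :
    Vl Q (φ f) c := by
  have := ge_below (φ := φ) (Q := Q) (by norm_num : (0 : ℤ) ≤ 1) h
  rwa [map_sub, φ.commutes] at this

end vl2

end Pool.Agent.H25.VO
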