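import Pool.Agent.H25.VO.V9

/-!
# The main theorem for invariant cycles on the product of the two curves
-/

set_option autoImplicit false
set_option linter.overlappingInstances false
set_option linter.unusedSectionVars false

namespace Pool.Agent.H25.VO

open FF Pool.Agent.Q70.CH Equiv

section phik0

/-- averaging in one coordinate -/
lemma sum_coord (k : Type) [Field k] [CharZero k] {G : Type} [CommGroup G] [Fintype G] {n : ℕ}
    {W : Type} [AddCommGroup W] [Module k W] (f : (Fin n → G) → W) [DecidableEq (Fin n)] (i : Fin n)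
    (h : ∀ s : Fin n → G, ∑ g : G, f (s * Pi.mulSingle i g) = 0) : ∑ s : Fin n → G, f s = 0 := by
  classical
  have h1 : ∀ g : G, ∑ s : Fin n → G, f (s * Pi.mulSingle i g) = ∑ s : Fin n → G, f s := by
    intro g
    exact Fintype.sum_equiv (Equiv.mulRight (Pi.mulSingle i g)) _ _ fun s => rfl
  have h2 : (Fintype.card G : k) • ∑ s : Fin n → G, f s = 0 := by
    rw [Nat.cast_smul_eq_nsmul, ← Finset.card_univ, ← Finset.sum_const]
    rw [Finset.sum_congr rfl fun g _ => (h1 g).symm, Finset.sum_comm]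
    exact Finset.sum_eq_zero fun s _ => h s
  rcases smul_eq_zero.1 h2 with h3 | h3
  · exact absurd h3 (by exact_mod_cast Fintype.card_ne_zero)
  · exact h3

end phik0

section phik

variable {k : Type} [Field k] [CharZero k] {F₁ F₂ K₁ K₂ : Type} [Field F₁] [Algebra k F₁]
  [Field F₂] [Algebra k F₂] [Field K₁] [Algebra k K₁] [Field K₂] [Algebra k K₂] [Algebra F₁ K₁]
  [IsScalarTower k F₁ K₁] [Algebra F₂ K₂] [IsScalarTower k F₂ K₂] {G : Type} [CommGroup G]
  [Fintype G] {n : ℕ} {W : Type} [AddCommGroup W] [Module k W]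

/-- the weight of a pair of translations -/
def cf (κ : Fin n → (G →* kˣ)) (s t : Fin n → G) : kˣ := ∏ i, (κ i (s i) * (κ i (t i))⁻¹)

lemma cf_mul_left (κ : Fin n → (G →* kˣ)) (s t u : Fin n → G) :
    cf κ (s * u) t = cf κ s t * ∏ i, κ i (u i) := by
  unfold cf
  rw [← Finset.prod_mul_distrib]
  apply Finset.prod_congr rfl
  intro i _
  rw [Pi.mul_apply, map_mul]
  exact mul_right_comm _ _ _

lemma cf_mul_right (κ : Fin n → (G →* kˣ)) (s t u : Fin n → G) :
    cf κ s (t * u) = cf κ s t * (∏ i, κ i (u i))⁻¹ := by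
  unfold cf
  rw [← Finset.prod_inv_distrib, ← Finset.prod_mul_distrib]
  apply Finset.prod_congr rfl
  intro i _
  rw [Pi.mul_apply, map_mul, mul_inv, mul_assoc]

/-- the part of a functional belonging to the characters `κ` -/
noncomputable def PhiK (a₁ : G →* (K₁ ≃ₐ[k] K₁)) (a₂ : G →* (K₂ ≃ₐ[k] K₂))
    (Φ : (Fin n → Place k K₁ × Place k K₂) → W) (κ : Fin n → (G →* kˣ))
    (v : Fin n → Place k K₁ × Place k K₂) : W := by
  classical
  exact ∑ s : Fin n → G, ∑ t : Fin n → G, ((cf κ s t : kˣ) : k) • Φ (tw a₁ a₂ s t v)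

variable {a₁ : G →* (K₁ ≃ₐ[k] K₁)} {a₂ : G →* (K₂ ≃ₐ[k] K₂)}

omit [Fintype G] in
lemma prod_mulSingle (κ : Fin n → (G →* kˣ)) {i : Fin n} (hi : κ i = 1) (g : G) :
    ∏ j, κ j ((Pi.mulSingle i g : Fin n → G) j) = 1 := by
  apply Finset.prod_eq_one
  intro j _
  by_cases hj : j = i
  · rw [hj, hi]; rfl
  · rw [Pi.mulSingle_eq_of_ne hj, map_one]

lemma phiK_eig (hq₁ : IsQuot a₁ F₁) (hq₂ : IsQuot a₂ F₂) {o₁ : Place k F₁} {o₂ : Place k F₂}
    {p₁ : Place k K₁} {p₂ : Place k K₂} {e₁ e₂ : ℕ} (hp₁ : Over p₁ o₁ e₁) (hp₂ : Over p₂ o₂ e₂)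
    {Φ : (Fin n → Place k K₁ × Place k K₂) → W} (hΦ : KillsF (PP k K₁ K₂ n) Φ)
    (b1 : ∀ (v : Fin n → Place k K₁ × Place k K₂) i,
      ∑ g : G, Φ (Function.update v i (act a₁ g p₁, (v i).2)) = 0)
    (b2 : ∀ (v : Fin n → Place k K₁ × Place k K₂) i,
      ∑ g : G, Φ (Function.update v i ((v i).1, act a₂ g p₂)) = 0) (κ : Fin n → (G →* kˣ)) :
    Eig a₁ a₂ o₁ o₂ κ (PhiK a₁ a₂ Φ κ) := by
  classical
  constructor
  · unfold PhiK
    apply KillsF.sum
    intro s _
    apply KillsF.sum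
    intro t _
    exact (hΦ.comp (tw_isMap s t)).smul _
  · intro u v
    unfold PhiK
    rw [Finset.smul_sum]
    refine Fintype.sum_equiv (Equiv.mulRight u) _ _ fun s => ?_
    rw [Finset.smul_sum]
    apply Finset.sum_congr rfl
    intro t _
    rw [tw_tw, mul_one, Equiv.coe_mulRight, smul_smul, ← Units.val_mul, cf_mul_left]
    congr 2
    rw [mul_comm (cf κ s t), inv_mul_cancel_left]
  · intro u v
    unfold PhiK
    rw [Finset.smul_sum]
    apply Finset.sum_congr rfl
    intro s _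
    rw [Finset.smul_sum]
    refine Fintype.sum_equiv (Equiv.mulRight u) _ _ fun t => ?_
    rw [tw_tw, mul_one, Equiv.coe_mulRight, smul_smul, ← Units.val_mul, cf_mul_right]
    congr 2
    rw [mul_comm (cf κ s t), mul_inv_cancel_left]
  · intro i hi v e hv
    obtain ⟨u₀, hu₀⟩ := exists_act hq₁ hp₁ hv
    unfold PhiK
    rw [Finset.sum_comm]
    apply Finset.sum_eq_zero
    intro t _
    apply sum_coord k _ i
    intro s
    have h1 : ∀ g : G, ((cf κ (s * Pi.mulSingle i g) t : kˣ) : k) •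
        Φ (tw a₁ a₂ (s * Pi.mulSingle i g) t v) = ((cf κ s t : kˣ) : k) •
        Φ (Function.update (tw a₁ a₂ s t v) i (act a₁ (g * (s i * u₀)) p₁, (tw a₁ a₂ s t v i).2)) := by
      intro g
      rw [cf_mul_left, prod_mulSingle κ hi, mul_one]
      congr 2
      ext1 j
      by_cases hj : j = i
      · subst hj
        rw [Function.update_self]
        simp only [tw]
        congr 1
        rw [Pi.mul_apply, Pi.mulSingle_eq_same, hu₀, ← act_mul]
        congr 1
        rw [mul_comm (s j) g, mul_assoc]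
      · rw [Function.update_of_ne hj]
        simp only [tw]
        rw [Pi.mul_apply, Pi.mulSingle_eq_of_ne hj, mul_one]
    rw [Finset.sum_congr rfl fun g _ => h1 g, ← Finset.smul_sum]
    have h2 : ∑ g : G, Φ (Function.update (tw a₁ a₂ s t v) i
        (act a₁ (g * (s i * u₀)) p₁, (tw a₁ a₂ s t v i).2)) =
        ∑ g : G, Φ (Function.update (tw a₁ a₂ s t v) i (act a₁ g p₁, (tw a₁ a₂ s t v i).2)) :=
      Fintype.sum_equiv (Equiv.mulRight (s i * u₀)) _ _ fun g => rfl
    rw [h2, b1, smul_zero]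
  · intro i hi v e hv
    obtain ⟨u₀, hu₀⟩ := exists_act hq₂ hp₂ hv
    unfold PhiK
    apply Finset.sum_eq_zero
    intro s _
    apply sum_coord k _ i
    intro t
    have h1 : ∀ g : G, ((cf κ s (t * Pi.mulSingle i g) : kˣ) : k) •
        Φ (tw a₁ a₂ s (t * Pi.mulSingle i g) v) = ((cf κ s t : kˣ) : k) •
        Φ (Function.update (tw a₁ a₂ s t v) i ((tw a₁ a₂ s t v i).1, act a₂ (g * (t i * u₀)) p₂)) := by
      intro g
      rw [cf_mul_right, prod_mulSingle κ hi, inv_one, mul_one]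
      congr 2
      ext1 j
      by_cases hj : j = i
      · subst hj
        rw [Function.update_self]
        simp only [tw]
        congr 1
        rw [Pi.mul_apply, Pi.mulSingle_eq_same, hu₀, ← act_mul]
        congr 1
        rw [mul_comm (t j) g, mul_assoc]
      · rw [Function.update_of_ne hj]
        simp only [tw]
        rw [Pi.mul_apply, Pi.mulSingle_eq_of_ne hj, mul_one]
    rw [Finset.sum_congr rfl fun g _ => h1 g, ← Finset.smul_sum]
    have h2 : ∑ g : G, Φ (Function.update (tw a₁ a₂ s t v) i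
        ((tw a₁ a₂ s t v i).1, act a₂ (g * (t i * u₀)) p₂)) =
        ∑ g : G, Φ (Function.update (tw a₁ a₂ s t v) i ((tw a₁ a₂ s t v i).1, act a₂ g p₂)) :=
      Fintype.sum_equiv (Equiv.mulRight (t i * u₀)) _ _ fun g => rfl
    rw [h2, b2, smul_zero]

lemma sum_cf [IsAlgClosed k] [Fintype (G →* kˣ)] [DecidableEq (Fin n → G)] (s t : Fin n → G) :
    ∑ κ : Fin n → (G →* kˣ), ((cf κ s t : kˣ) : k) =
      if s = t then ((Fintype.card (G →* kˣ)) ^ n : ℕ) else 0 := by
  classical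
  have h1 : ∀ κ : Fin n → (G →* kˣ), ((cf κ s t : kˣ) : k) =
      ∏ i, ((κ i (s i * (t i)⁻¹) : kˣ) : k) := by
    intro κ
    unfold cf
    rw [Units.coe_prod]
    apply Finset.prod_congr rfl
    intro i _
    rw [map_mul, map_inv]
  have h2 := Finset.prod_univ_sum (fun _ : Fin n => (Finset.univ : Finset (G →* kˣ)))
    (fun i χ => ((χ (s i * (t i)⁻¹) : kˣ) : k))
  rw [Fintype.piFinset_univ] at h2
  rw [Finset.sum_congr rfl fun κ _ => h1 κ, ← h2]
  split_ifs with h
  · subst h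
    simp
  · obtain ⟨i, hi⟩ : ∃ i, s i ≠ t i := by
      by_contra hc
      push Not at hc
      exact h (funext hc)
    rw [Nat.cast_zero]
    refine Finset.prod_eq_zero (Finset.mem_univ i) ?_
    exact char_sum fun hc => hi (mul_inv_eq_one.1 hc)

lemma sum_phiK [IsAlgClosed k] [Fintype (G →* kˣ)] (Φ : (Fin n → Place k K₁ × Place k K₂) → W)
    (v : Fin n → Place k K₁ × Place k K₂) :
    ∑ κ : Fin n → (G →* kˣ), PhiK a₁ a₂ Φ κ v =
      ((Fintype.card (G →* kˣ)) ^ n : ℕ) • ∑ s : Fin n → G, Φ (tw a₁ a₂ s s v) := by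
  classical
  unfold PhiK
  rw [Finset.sum_comm, Finset.smul_sum]
  apply Finset.sum_congr rfl
  intro s _
  rw [Finset.sum_comm]
  have h1 : ∀ t : Fin n → G, ∑ κ : Fin n → (G →* kˣ), ((cf κ s t : kˣ) : k) •
      Φ (tw a₁ a₂ s t v) = if s = t then (((Fintype.card (G →* kˣ)) ^ n : ℕ) : k) •
        Φ (tw a₁ a₂ s t v) else 0 := by
    intro t
    rw [← Finset.sum_smul, sum_cf]
    split_ifs
    · rfl
    · rw [Nat.cast_zero, zero_smul]
  rw [Finset.sum_congr rfl fun t _ => h1 t, Finset.sum_ite_eq, if_pos (Finset.mem_univ s),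
    Nat.cast_smul_eq_nsmul]

end phik

end Pool.Agent.H25.VO
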