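import Pool.Agent.H25.VO.V10

/-!
# The main theorem for invariant cycles on the product of the two curves, continued
-/

set_option autoImplicit false
set_option linter.overlappingInstances false
set_option linter.unusedSectionVars false

namespace Pool.Agent.H25.VO

open FF Pool.Agent.Q70.CH Equiv TensorProduct

section tensor

/-- extension of scalars is injective -/
lemma one_tmul_eq_zero {k M : Type} [Field k] [CharZero k] [AddCommGroup M] [Module ℚ M] {m : M}
    (h : (1 : k) ⊗ₜ[ℚ] m = 0) : m = 0 := by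
  obtain ⟨l, hl⟩ := (Algebra.linearMap ℚ k).exists_leftInverse_of_injective (by
    rw [LinearMap.ker_eq_bot]
    exact (algebraMap ℚ k).injective)
  have h1 : l 1 = 1 := by
    have := LinearMap.congr_fun hl (1 : ℚ)
    simpa using this
  have h2 := congrArg (fun z => TensorProduct.lid ℚ M (LinearMap.rTensor M l z)) h
  simp only [LinearMap.rTensor_tmul, h1, TensorProduct.lid_tmul, one_smul, map_zero] at h2
  exact h2

end tensor

section core

variable {k : Type} [Field k] [CharZero k] {F₁ F₂ K₁ K₂ : Type} [Field F₁] [Algebra k F₁]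
  [Field F₂] [Algebra k F₂] [Field K₁] [Algebra k K₁] [Field K₂] [Algebra k K₂] [Algebra F₁ K₁]
  [IsScalarTower k F₁ K₁] [Algebra F₂ K₂] [IsScalarTower k F₂ K₂] {G : Type} [CommGroup G]
  [Fintype G] {n : ℕ} {a₁ : G →* (K₁ ≃ₐ[k] K₁)} {a₂ : G →* (K₂ ≃ₐ[k] K₂)}

/-- replacement of one coordinate by a point of an orbit -/
noncomputable def rep (a₁ : G →* (K₁ ≃ₐ[k] K₁)) (a₂ : G →* (K₂ ≃ₐ[k] K₂)) (p₁ : Place k K₁)
    (p₂ : Place k K₂) (σ : Fin n × Bool) (g : G) (v : Fin n → Place k K₁ × Place k K₂) :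
    Fin n → Place k K₁ × Place k K₂ :=
  if σ.2 then Function.update v σ.1 (act a₁ g p₁, (v σ.1).2)
  else Function.update v σ.1 ((v σ.1).1, act a₂ g p₂)

lemma rep_isMap (p₁ : Place k K₁) (p₂ : Place k K₂) (σ : Fin n × Bool) (g : G) :
    IsMap (PP k K₁ K₂ n) (PP k K₁ K₂ n) (rep a₁ a₂ p₁ p₂ σ g) := by
  obtain ⟨i, b⟩ := σ
  intro B _ _ _ s hs
  cases b with
  | true => exact update_Mn hs i (const_Mc _) ((mem_Mn.1 hs) i).2
  | false => exact update_Mn hs i ((mem_Mn.1 hs) i).1 (const_Mc _)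

lemma lc_comp {V W : Type} [AddCommGroup W] [Module ℚ W] (Φ : V → W) (f : V → V) (z : V →₀ ℚ) :
    Finsupp.linearCombination ℚ (fun v => Φ (f v)) z =
      Finsupp.linearCombination ℚ Φ (z.mapDomain f) := by
  rw [Finsupp.linearCombination_mapDomain]; rfl

lemma lc_sum {V W α : Type} [AddCommGroup W] [Module ℚ W] [Fintype α] (Φ : α → V → W)
    (z : V →₀ ℚ) : Finsupp.linearCombination ℚ (fun v => ∑ i, Φ i v) z =
      ∑ i, Finsupp.linearCombination ℚ (Φ i) z := by
  simp only [Finsupp.linearCombination_apply, Finsupp.sum]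
  rw [Finset.sum_comm]
  apply Finset.sum_congr rfl
  intro v _
  rw [Finset.smul_sum]

lemma lc_smul {V W : Type} [AddCommGroup W] [Module ℚ W] (c : ℚ) (Φ : V → W)
    (z : V →₀ ℚ) : Finsupp.linearCombination ℚ (fun v => c • Φ v) z =
      c • Finsupp.linearCombination ℚ Φ z := by
  simp only [Finsupp.linearCombination_apply, Finsupp.sum]
  rw [Finset.smul_sum]
  apply Finset.sum_congr rfl
  intro v _
  rw [smul_comm]

lemma lc_nsmul {V W : Type} [AddCommGroup W] [Module ℚ W] (c : ℕ) (Φ : V → W)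
    (z : V →₀ ℚ) : Finsupp.linearCombination ℚ (fun v => c • Φ v) z =
      c • Finsupp.linearCombination ℚ Φ z := by
  have := lc_smul (c : ℚ) Φ z
  simpa only [Nat.cast_smul_eq_nsmul] using this

lemma lc_sub {V W : Type} [AddCommGroup W] [Module ℚ W] (Φ Ψ : V → W)
    (z : V →₀ ℚ) : Finsupp.linearCombination ℚ (fun v => Φ v - Ψ v) z =
      Finsupp.linearCombination ℚ Φ z - Finsupp.linearCombination ℚ Ψ z := by
  simp only [Finsupp.linearCombination_apply, Finsupp.sum]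
  rw [← Finset.sum_sub_distrib]
  apply Finset.sum_congr rfl
  intro v _
  rw [smul_sub]

/-- **Main theorem** for invariant Albanese-trivial cycles on the product of two curves. -/
theorem voisin_core [IsAlgClosed k] [IsFF k K₁] [IsFF k K₂] [IsFF k F₁] [IsFF k F₂]
    (hq₁ : IsQuot a₁ F₁) (hq₂ : IsQuot a₂ F₂) [Fintype (G →* kˣ)] {c₁ c₂ : (G →* kˣ) → ℕ}
    (V1 : ∀ χ (o : Place k F₁), Van a₁ χ (c₁ χ) o) (V2 : ∀ χ (o : Place k F₂), Van a₂ χ (c₂ χ) o)
    (hn : ∑ χ, c₁ χ * c₂ χ⁻¹ < n) (a : Fin n → (Place k K₁ × Place k K₂) →₀ ℚ)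
    (hinv : ∀ i g, (a i).mapDomain (fun p => (act a₁ g p.1, act a₂ g p.2)) = a i)
    (h1 : ∀ i, (a i).mapDomain Prod.fst ∈ TC k K₁) (h2 : ∀ i, (a i).mapDomain Prod.snd ∈ TC k K₂) :
    ∑ σ : Perm (Fin n), ((Perm.sign σ : ℤ) : ℚ) • cross (fun i => a (σ i)) ∈ TT k K₁ K₂ n := by
  classical
  obtain ⟨p₁, -⟩ := exists_place (k := k) (K := K₁)
  obtain ⟨p₂, -⟩ := exists_place (k := k) (K := K₂)
  obtain ⟨o₁, e₁, he₁, ho₁⟩ := exists_below (IsScalarTower.toAlgHom k F₁ K₁) p₁
  obtain ⟨o₂, e₂, he₂, ho₂⟩ := exists_below (IsScalarTower.toAlgHom k F₂ K₂) p₂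
  have hp₁ : Over p₁ o₁ e₁ := ⟨he₁, ho₁⟩
  have hp₂ : Over p₂ o₂ e₂ := ⟨he₂, ho₂⟩
  -- the universal functional
  let M := ((Fin n → Place k K₁ × Place k K₂) →₀ ℚ) ⧸ TT k K₁ K₂ n
  let Φ₀ : (Fin n → Place k K₁ × Place k K₂) → k ⊗[ℚ] M := fun v =>
    (1 : k) ⊗ₜ[ℚ] (TT k K₁ K₂ n).mkQ (Finsupp.single v 1)
  have hΦ₀ : KillsF (PP k K₁ K₂ n) Φ₀ := by
    intro B _ _ _ s hs t ht
    have h3 := killsF_mkQ (X := PP k K₁ K₂ n) B s hs t ht
    have h4 : ((divisor k t).sum fun Q m => m • Φ₀ (s Q)) =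
        (1 : k) ⊗ₜ[ℚ] ((divisor k t).sum fun Q m => m • (TT k K₁ K₂ n).mkQ
          (Finsupp.single (s Q) 1)) := by
      unfold Finsupp.sum
      rw [TensorProduct.tmul_sum]
      apply Finset.sum_congr rfl
      intro Q _
      exact (map_zsmul (TensorProduct.mk ℚ k M 1) _ _).symm
    have h5 : ((divisor k t).sum fun Q m => m • (TT k K₁ K₂ n).mkQ
          (Finsupp.single (s Q) 1)) = 0 := h3
    rw [h4, h5, TensorProduct.tmul_zero]
  have hlc₀ : ∀ z, Finsupp.linearCombination ℚ Φ₀ z = (1 : k) ⊗ₜ[ℚ] (TT k K₁ K₂ n).mkQ z := by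
    intro z
    have h3 : Finsupp.linearCombination ℚ Φ₀ =
        (TensorProduct.mk ℚ k M 1) ∘ₗ (TT k K₁ K₂ n).mkQ := by
      apply Finsupp.lhom_ext'
      intro v
      apply LinearMap.ext_ring
      rw [LinearMap.comp_apply, LinearMap.comp_apply, Finsupp.lsingle_apply,
        Finsupp.linearCombination_single, one_smul]
      rfl
    rw [h3]; rfl
  -- normalization
  obtain ⟨Φ, ⟨hK, hPr⟩, hnorm⟩ := exists_normal (W := k ⊗[ℚ] M) (rep (n := n) a₁ a₂ p₁ p₂)
    (by
      rintro ⟨i, b⟩ s t v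
      cases b <;> simp [rep])
    (by
      rintro ⟨i, b⟩ ⟨j, b'⟩ s t v hne
      by_cases hij : i = j
      · subst hij
        cases b <;> cases b' <;> simp [rep] at hne ⊢
      · cases b <;> cases b' <;>
          simp [rep, Function.update_of_ne hij, Function.update_of_ne (Ne.symm hij),
            Function.update_comm hij])
    (fun Φ => KillsF (PP k K₁ K₂ n) Φ ∧
      ∀ a : Fin n → (Place k K₁ × Place k K₂) →₀ ℚ, (∀ i, (a i).mapDomain Prod.fst ∈ TC k K₁) →
      (∀ i, (a i).mapDomain Prod.snd ∈ TC k K₂) →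
      Finsupp.linearCombination ℚ Φ (cross a) = Finsupp.linearCombination ℚ Φ₀ (cross a))
    (by
      rintro Φ σ ⟨hK, hPr⟩
      refine ⟨hK.sub (KillsF.smul _ (KillsF.sum _ fun g _ => hK.comp (rep_isMap p₁ p₂ σ g))), ?_⟩
      intro a ha1 ha2
      rw [lc_sub, lc_smul, lc_sum, hPr a ha1 ha2]
      have h3 : ∀ g : G, Finsupp.linearCombination ℚ
          (fun v => Φ (rep a₁ a₂ p₁ p₂ σ g v)) (cross a) = 0 := by
        intro g
        rw [lc_comp Φ (rep a₁ a₂ p₁ p₂ σ g)]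
        apply hK.ev
        obtain ⟨i, b⟩ := σ
        cases b with
        | true => exact e1_cross (act a₁ g p₁) i a (ha2 i)
        | false => exact e2_cross (act a₂ g p₂) i a (ha1 i)
      rw [Finset.sum_congr rfl fun g _ => h3 g, Finset.sum_const_zero, smul_zero, sub_zero])
    Φ₀ ⟨hΦ₀, fun _ _ _ => rfl⟩
  have hEig : ∀ κ : Fin n → (G →* kˣ), Eig a₁ a₂ o₁ o₂ κ (PhiK a₁ a₂ Φ κ) :=
    fun κ => phiK_eig hq₁ hq₂ hp₁ hp₂ hK (fun v i => hnorm (i, true) v)
      (fun v i => hnorm (i, false) v) κ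
  -- antisymmetrization
  have hanti : ∀ (κ : Fin n → (G →* kˣ)) (v : Fin n → Place k K₁ × Place k K₂),
      ∑ σ : Perm (Fin n), ((Perm.sign σ : ℤ) : ℚ) • PhiK a₁ a₂ Φ κ (fun i => v (σ i)) = 0 := by
    intro κ v
    obtain ⟨χ, hχ⟩ : ∃ χ, c₁ χ * c₂ χ⁻¹ < (Finset.univ.filter fun i => κ i = χ).card := by
      by_contra hc
      push Not at hc
      have h3 : (Finset.univ : Finset (Fin n)).card =
          ∑ χ, (Finset.univ.filter fun i => κ i = χ).card :=
        Finset.card_eq_sum_card_fiberwise fun i _ => Finset.mem_univ _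
      have h4 := Finset.sum_le_sum fun χ (_ : χ ∈ Finset.univ) => hc χ
      rw [← h3, Finset.card_univ, Fintype.card_fin] at h4
      omega
    exact antisym_block (PhiK a₁ a₂ Φ κ) (Finset.univ.filter fun i => κ i = χ)
      (block (hEig κ) (fun i hi => (Finset.mem_filter.1 hi).2) (V1 χ o₁) (V2 χ⁻¹ o₂) hχ) v
  -- evaluation
  have hev : ∀ σ : Perm (Fin n), ((Fintype.card (G →* kˣ)) ^ n * Fintype.card (Fin n → G) : ℕ) •
      Finsupp.linearCombination ℚ Φ (cross fun i => a (σ i)) =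
      ∑ κ : Fin n → (G →* kˣ), Finsupp.linearCombination ℚ (fun v =>
        PhiK a₁ a₂ Φ κ (fun i => v (σ i))) (cross a) := by
    intro σ
    have h3 : ∀ κ : Fin n → (G →* kˣ), Finsupp.linearCombination ℚ (fun v =>
        PhiK a₁ a₂ Φ κ (fun i => v (σ i))) (cross a) =
        Finsupp.linearCombination ℚ (PhiK a₁ a₂ Φ κ) (cross fun i => a (σ i)) := by
      intro κ
      rw [cross_perm, lc_comp (PhiK a₁ a₂ Φ κ) (fun v i => v (σ i))]
    rw [Finset.sum_congr rfl fun κ _ => h3 κ, ← lc_sum]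
    simp only [sum_phiK]
    rw [lc_nsmul, lc_sum, mul_smul]
    congr 1
    have h4 : ∀ s : Fin n → G, Finsupp.linearCombination ℚ (fun v => Φ (tw a₁ a₂ s s v))
        (cross fun i => a (σ i)) = Finsupp.linearCombination ℚ Φ (cross fun i => a (σ i)) := by
      intro s
      rw [lc_comp Φ (tw a₁ a₂ s s)]
      congr 1
      have h5 := cross_map (fun i => a (σ i)) (fun i p => (act a₁ (s i) p.1, act a₂ (s i) p.2))
      simp only [hinv] at h5
      exact h5
    rw [Finset.sum_congr rfl fun s _ => h4 s, Finset.sum_const, Finset.card_univ]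
  -- conclusion
  have hfin : Finsupp.linearCombination ℚ Φ₀
      (∑ σ : Perm (Fin n), ((Perm.sign σ : ℤ) : ℚ) • cross (fun i => a (σ i))) = 0 := by
    have h3 : Finsupp.linearCombination ℚ Φ₀
        (∑ σ : Perm (Fin n), ((Perm.sign σ : ℤ) : ℚ) • cross (fun i => a (σ i))) =
        ∑ σ : Perm (Fin n), ((Perm.sign σ : ℤ) : ℚ) •
          Finsupp.linearCombination ℚ Φ (cross fun i => a (σ i)) := by
      rw [map_sum]
      apply Finset.sum_congr rfl
      intro σ _
      rw [map_smul, hPr (fun i => a (σ i)) (fun i => h1 _) (fun i => h2 _)]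
    rw [h3]
    set C := ((Fintype.card (G →* kˣ)) ^ n * Fintype.card (Fin n → G) : ℕ) with hC
    have hC0 : (C : ℚ) ≠ 0 := by
      have : C ≠ 0 := by
        rw [hC]
        exact mul_ne_zero (pow_ne_zero _ Fintype.card_ne_zero) Fintype.card_ne_zero
      exact_mod_cast this
    have h4 : (C : ℚ) • ∑ σ : Perm (Fin n), ((Perm.sign σ : ℤ) : ℚ) •
        Finsupp.linearCombination ℚ Φ (cross fun i => a (σ i)) = 0 := by
      rw [Finset.smul_sum]
      have h5 : ∀ σ : Perm (Fin n), (C : ℚ) • (((Perm.sign σ : ℤ) : ℚ) •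
          Finsupp.linearCombination ℚ Φ (cross fun i => a (σ i))) =
          ∑ κ : Fin n → (G →* kˣ), Finsupp.linearCombination ℚ (fun v =>
            ((Perm.sign σ : ℤ) : ℚ) • PhiK a₁ a₂ Φ κ (fun i => v (σ i))) (cross a) := by
        intro σ
        rw [smul_comm, Nat.cast_smul_eq_nsmul, hev, Finset.smul_sum]
        apply Finset.sum_congr rfl
        intro κ _
        rw [lc_smul]
      rw [Finset.sum_congr rfl fun σ _ => h5 σ, Finset.sum_comm]
      apply Finset.sum_eq_zero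
      intro κ _
      rw [← lc_sum]
      simp only [hanti]
      rw [Finsupp.linearCombination_apply]
      simp
    exact (smul_eq_zero.1 h4).resolve_left hC0
  rw [hlc₀] at hfin
  have h3 := one_tmul_eq_zero hfin
  rwa [← LinearMap.mem_ker, Submodule.ker_mkQ] at h3

end core

end Pool.Agent.H25.VO
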