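import Pool.Agent.H25.VO.V6

/-!
# Principal parts modulo functions: a lower bound for the first cohomology
-/

set_option autoImplicit false
set_option linter.overlappingInstances false
set_option linter.unusedSectionVars false

namespace Pool.Agent.H25.VO

open FF IntermediateField Module Pool.Agent.W603.LV Pool.Agent.W619.PQ Pool.Agent.Q70.CH

section

variable {k F : Type} [Field k] [Field F] [Algebra k F]

/-- functions with bounded poles at the places of `S` -/
def GeS (S : Set (Place k F)) (E : Place k F → ℤ) : Submodule k F where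
  carrier := {f | ∀ P ∈ S, Ge P (-E P) f}
  add_mem' := fun ha hb P hP => (ha P hP).add (hb P hP)
  zero_mem' := fun P _ => Ge.zero
  smul_mem' := by
    intro c y hy P hP
    rw [Algebra.smul_def]
    simpa using (Ge.const (P := P) c).mul (hy P hP)

lemma mem_GeS {S : Set (Place k F)} {E : Place k F → ℤ} {f : F} :
    f ∈ GeS S E ↔ ∀ P ∈ S, Ge P (-E P) f := Iff.rfl

/-- a space of principal parts at the places of a finite set -/
lemma exists_princ [DecidableEq (Place k F)] (S : Finset (Place k F)) (E : Place k F → ℤ)
    (m : Multiset (Place k F)) (hm : ∀ P ∈ m, P ∈ S) :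
    ∃ V : Submodule k F, FiniteDimensional k V ∧ finrank k V = Multiset.card m ∧
      V ≤ GeS (S : Set (Place k F)) (fun P => E P + m.count P) ∧
      V ⊓ GeS (S : Set (Place k F)) E = ⊥ := by
  induction m using Multiset.induction_on with
  | empty =>
    refine ⟨⊥, inferInstance, by simp, bot_le, bot_inf_eq _⟩
  | cons Q m ih =>
    obtain ⟨V, hV1, hV2, hV3, hV4⟩ := ih (fun P hP => hm P (Multiset.mem_cons_of_mem hP))
    have hQ : Q ∈ S := hm Q (Multiset.mem_cons_self _ _)
    obtain ⟨w, hw0, hw⟩ := exists_orders S
      (fun P => if P = Q then -(E P + m.count P) - 1 else -E P)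
    have hwQ : Q.ord w = -(E Q + m.count Q) - 1 := by rw [hw Q hQ, if_pos rfl]
    have hle : V ≤ GeS (S : Set (Place k F)) (fun P => E P + (Q ::ₘ m).count P) := by
      intro f hf P hP
      have h1 := hV3 hf P hP
      refine h1.mono ?_
      have h2 : m.count P ≤ (Q ::ₘ m).count P := Multiset.count_le_count_cons P Q m
      change -(E P + ((Q ::ₘ m).count P : ℤ)) ≤ -(E P + (m.count P : ℤ))
      omega
    have hwmem : w ∈ GeS (S : Set (Place k F)) (fun P => E P + (Q ::ₘ m).count P) := by
      intro P hP
      right
      rw [hw P hP]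
      change -(E P + ((Q ::ₘ m).count P : ℤ)) ≤ _
      split_ifs with h
      · subst h
        rw [Multiset.count_cons_self]
        push_cast; omega
      · have : (0 : ℤ) ≤ ((Q ::ₘ m).count P : ℤ) := by positivity
        omega
    -- an element of `V + k w` with bounded poles belongs to `V`
    have hkey : ∀ v ∈ V, ∀ c : k, Ge Q (-(E Q + m.count Q)) (v + c • w) → c = 0 := by
      intro v hv c hc
      by_contra hne
      have h1 : Ge Q (-(E Q + m.count Q)) (c • w) := by
        have := hc.sub (hV3 hv Q hQ)
        rwa [add_sub_cancel_left] at this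
      have hcK : algebraMap k F c ≠ 0 := by simpa using hne
      rw [Algebra.smul_def] at h1
      have h2 := h1.resolve_left (mul_ne_zero hcK hw0)
      rw [Q.ord_mul hcK hw0, Q.ord_const hne, hwQ] at h2
      omega
    have hwV : w ∉ V := by
      intro h
      have := hkey (-w) (V.neg_mem h) 1 (by rw [one_smul, neg_add_cancel]; exact Ge.zero)
      exact one_ne_zero this
    refine ⟨V ⊔ Submodule.span k {w}, inferInstance, ?_, ?_, ?_⟩
    · have h1 := Submodule.finrank_sup_add_finrank_inf_eq V (Submodule.span k {w})
      have h2 : V ⊓ Submodule.span k {w} = ⊥ := by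
        rw [eq_bot_iff]
        intro f hf
        obtain ⟨c, hc⟩ := Submodule.mem_span_singleton.1 hf.2
        have hfV := hf.1
        rw [← hc] at hfV ⊢
        by_cases hc0 : c = 0
        · rw [hc0, zero_smul]; exact Submodule.zero_mem _
        · exfalso
          apply hwV
          have := V.smul_mem c⁻¹ hfV
          rwa [smul_smul, inv_mul_cancel₀ hc0, one_smul] at this
      rw [h2, finrank_bot, add_zero, hV2, finrank_span_singleton hw0] at h1
      rw [h1, Multiset.card_cons]
    · exact sup_le hle (by
        rw [Submodule.span_singleton_le_iff_mem]; exact hwmem)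
    · rw [eq_bot_iff]
      rintro f ⟨hf1, hf2⟩
      obtain ⟨v, hv, w', hw', rfl⟩ := Submodule.mem_sup.1 hf1
      obtain ⟨c, rfl⟩ := Submodule.mem_span_singleton.1 hw'
      have hc : c = 0 := hkey v hv c ((hf2 Q hQ).mono (by
        have : (0 : ℤ) ≤ (m.count Q : ℤ) := by positivity
        omega))
      rw [hc, zero_smul, add_zero] at hf2 ⊢
      have : v ∈ V ⊓ GeS (S : Set (Place k F)) E := ⟨hv, hf2⟩
      rwa [hV4] at this

variable [CharZero k] [IsAlgClosed k] [IsFF k F]

/-- The lower bound: functions modulo (functions with bounded poles at the places where `x` is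
regular) and (functions with bounded poles at the poles of `x`). -/
theorem exists_quot {g : ℕ} (hg : IsGenus k F g) (E : Place k F →₀ ℤ) {x : F}
    (hx : Transcendental k x) : ∃ (Q : Type) (_ : AddCommGroup Q) (_ : Module k Q)
      (π : F →ₗ[k] Q) (r : ℕ) (v : Fin r → F), LinearIndependent k (fun i => π (v i)) ∧
      (g : ℤ) - 1 - ddeg E + ell E ≤ r ∧
      (∀ f ∈ GeS {P | 0 ≤ P.ord x} E, π f = 0) ∧ (∀ f ∈ GeS {P | P.ord x < 0} E, π f = 0) := by
  classical
  obtain ⟨S, hS, hSdeg⟩ := poles hx
  let N : ℕ := finrank k⟮x⟯ F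
  have hNS : ∑ P ∈ S, (-P.ord x).toNat = N := by
    change _ = finrank k⟮x⟯ F
    rw [← hSdeg]
    apply Finset.sum_congr rfl
    intro P _
    rw [deg_one P, mul_one]
  have hN : 0 < N := by
    have := IsFF.finite hx
    exact finrank_pos
  have hSset : (S : Set (Place k F)) = {P | P.ord x < 0} := by
    ext P; exact hS P
  -- a large multiple of the pole divisor
  obtain ⟨N₀, hN₀⟩ := hg
  obtain ⟨n, hn⟩ : ∃ n : ℕ, N₀ ≤ ddeg E + n * N := by
    refine ⟨(N₀ - ddeg E).toNat, ?_⟩
    have h1 : ((N₀ - ddeg E).toNat : ℤ) * 1 ≤ ((N₀ - ddeg E).toNat : ℤ) * N :=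
      mul_le_mul_of_nonneg_left (by exact_mod_cast hN) (by positivity)
    omega
  let m : Multiset (Place k F) := ∑ P ∈ S, Multiset.replicate (n * (-P.ord x).toNat) P
  have hmcount : ∀ P, m.count P = if P ∈ S then n * (-P.ord x).toNat else 0 := by
    intro P
    change Multiset.count P (∑ P ∈ S, Multiset.replicate (n * (-P.ord x).toNat) P) = _
    rw [Multiset.count_sum']
    simp only [Multiset.count_replicate]
    rw [Finset.sum_ite_eq']
  have hmS : ∀ P ∈ m, P ∈ S := by
    intro P hP
    by_contra hc
    have h1 := hmcount P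
    rw [if_neg hc] at h1
    exact (Multiset.count_eq_zero.1 h1) hP
  have hmcard : Multiset.card m = n * N := by
    change Multiset.card (∑ P ∈ S, Multiset.replicate (n * (-P.ord x).toNat) P) = _
    rw [Multiset.card_sum]
    simp only [Multiset.card_replicate]
    rw [← Finset.mul_sum, hNS]
  obtain ⟨V, hVfin, hVrank, hVle, hVinf⟩ := exists_princ S (fun P => E P) m hmS
  -- the divisor `E + n (x)_∞`
  let D : Place k F →₀ ℤ := E + ∑ P ∈ S, Finsupp.single P ((n * (-P.ord x).toNat : ℕ) : ℤ)
  have hDP : ∀ P, D P = E P + (if P ∈ S then ((n * (-P.ord x).toNat : ℕ) : ℤ) else 0) := by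
    intro P
    change (E + ∑ P ∈ S, Finsupp.single P ((n * (-P.ord x).toNat : ℕ) : ℤ)) P = _
    rw [Finsupp.add_apply, Finsupp.finsetSum_apply]
    congr 1
    simp only [Finsupp.single_apply]
    rw [Finset.sum_ite_eq']
  have hDdeg : ddeg D = ddeg E + n * N := by
    have h1 : ∀ T : Finset (Place k F), ddeg (∑ P ∈ T, Finsupp.single P
        ((n * (-P.ord x).toNat : ℕ) : ℤ)) = ((∑ P ∈ T, n * (-P.ord x).toNat : ℕ) : ℤ) := by
      intro T
      induction T using Finset.induction_on with
      | empty => simp [ddeg_zero]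
      | insert Q T hQ ih =>
        rw [Finset.sum_insert hQ, ddeg_add, ih, ddeg_single, deg_one, Finset.sum_insert hQ]
        push_cast; ring
    change ddeg (E + _) = _
    rw [ddeg_add, h1, ← Finset.mul_sum, hNS]
    push_cast; ring
  have hDell : ell D = ddeg E + n * N + 1 - g := by
    have h1 := hN₀ D (by rw [← ddeg_eq_sum, hDdeg]; exact hn)
    rw [← ddeg_eq_sum, hDdeg] at h1
    exact h1
  -- the quotients
  let B : Submodule k F := GeS {P | P.ord x < 0} E
  let A : Submodule k F := GeS {P | 0 ≤ P.ord x} E
  let q₁ := B.mkQ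
  let Ab : Submodule k (F ⧸ B) := A.map q₁
  let π : F →ₗ[k] ((F ⧸ B) ⧸ Ab) := Ab.mkQ ∘ₗ q₁
  have hπA : ∀ f ∈ A, π f = 0 := by
    intro f hf
    change Ab.mkQ (q₁ f) = 0
    rw [← LinearMap.mem_ker, Submodule.ker_mkQ]
    exact Submodule.mem_map_of_mem hf
  have hπB : ∀ f ∈ B, π f = 0 := by
    intro f hf
    have : q₁ f = 0 := by
      rw [← LinearMap.mem_ker, Submodule.ker_mkQ]; exact hf
    change Ab.mkQ (q₁ f) = 0
    rw [this, map_zero]
  -- the image of `L(D)`
  let Lb : Submodule k (F ⧸ B) := (LL D).map q₁
  have hLbrank : (finrank k Lb : ℤ) = ell D - ell E := by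
    let φ : LL D →ₗ[k] (F ⧸ B) := q₁ ∘ₗ (LL D).subtype
    have h1 := LinearMap.finrank_range_add_finrank_ker φ
    have h2 : LinearMap.range φ = Lb := by
      rw [LinearMap.range_comp, Submodule.range_subtype]
    have h3 : finrank k (LinearMap.ker φ) = finrank k (LL E) := by
      have h4 : (LinearMap.ker φ).map (LL D).subtype = LL E := by
        ext f
        constructor
        · rintro ⟨⟨f', hf'⟩, hker, rfl⟩
          have h5 : f' ∈ B := by
            have : q₁ f' = 0 := hker
            rwa [← LinearMap.mem_ker, Submodule.ker_mkQ] at this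
          change f' ∈ LL E
          rw [mem_LL]
          by_cases hf0 : f' = 0
          · exact Or.inl hf0
          right
          intro P
          by_cases hP : P.ord x < 0
          · exact (h5 P hP).resolve_left hf0
          · have h6 := (mem_LL.1 hf').resolve_left hf0 P
            rw [hDP, if_neg (by rw [hS]; exact hP), add_zero] at h6
            exact h6
        · intro hf
          have hfD : f ∈ LL D := by
            rw [mem_LL] at hf ⊢
            rcases hf with hf | hf
            · exact Or.inl hf
            right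
            intro P
            have h6 := hf P
            rw [hDP]
            split_ifs <;> omega
          refine ⟨⟨f, hfD⟩, ?_, rfl⟩
          change q₁ f = 0
          rw [← LinearMap.mem_ker, Submodule.ker_mkQ]
          intro P _
          rcases mem_LL.1 hf with hf | hf
          · exact Or.inl hf
          · exact Or.inr (hf P)
      rw [← h4]
      exact (LinearEquiv.finrank_eq (Submodule.equivMapOfInjective (LL D).subtype
        (Submodule.injective_subtype _) (LinearMap.ker φ)))
    rw [h2, h3] at h1
    unfold ell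
    omega
  -- the map from `V`
  let θ : V →ₗ[k] ((F ⧸ B) ⧸ Ab) := π ∘ₗ V.subtype
  have hker : finrank k (LinearMap.ker θ) ≤ finrank k Lb := by
    have hmap : ∀ v : LinearMap.ker θ, q₁ ((v : V) : F) ∈ Lb := by
      intro v
      have h1 : Ab.mkQ (q₁ ((v : V) : F)) = 0 := v.2
      rw [← LinearMap.mem_ker, Submodule.ker_mkQ] at h1
      obtain ⟨f, hf, hfv⟩ := h1
      refine ⟨f, ?_, hfv⟩
      have h2 : f - ((v : V) : F) ∈ B := by
        have : q₁ (f - ((v : V) : F)) = 0 := by rw [map_sub, hfv, sub_self]
        rwa [← LinearMap.mem_ker, Submodule.ker_mkQ] at this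
      change f ∈ LL D
      rw [mem_LL]
      by_cases hf0 : f = 0
      · exact Or.inl hf0
      right
      intro P
      by_cases hP : P ∈ S
      · have h3 := hVle (v : V).2 P hP
        have h4 : Ge P (-(E P + (m.count P : ℤ))) f := by
          have h5 : f = (f - ((v : V) : F)) + ((v : V) : F) := by ring
          rw [h5]
          refine Ge.add ((h2 P ((hS P).1 hP)).mono ?_) h3
          have : (0 : ℤ) ≤ (m.count P : ℤ) := by positivity
          omega
        have h5 := h4.resolve_left hf0
        rw [hmcount, if_pos hP] at h5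
        rw [hDP, if_pos hP]
        exact h5
      · rw [hDP, if_neg hP, add_zero]
        have h3 : 0 ≤ P.ord x := by
          by_contra hc
          exact hP ((hS P).2 (by omega))
        exact (hf P h3).resolve_left hf0
    let θ' : LinearMap.ker θ →ₗ[k] Lb :=
      LinearMap.codRestrict Lb (q₁ ∘ₗ V.subtype ∘ₗ (LinearMap.ker θ).subtype) hmap
    have hLfin : FiniteDimensional k Lb := by
      change FiniteDimensional k ((LL D).map q₁)
      infer_instance
    refine LinearMap.finrank_le_finrank_of_injective (f := θ') ?_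
    intro v w hvw
    have h1 : q₁ ((v : V) : F) = q₁ ((w : V) : F) := congrArg Subtype.val hvw
    have h2 : ((v : V) : F) - ((w : V) : F) ∈ B := by
      have : q₁ (((v : V) : F) - ((w : V) : F)) = 0 := by rw [map_sub, h1, sub_self]
      rwa [← LinearMap.mem_ker, Submodule.ker_mkQ] at this
    have h3 : ((v : V) : F) - ((w : V) : F) ∈ V ⊓ GeS (S : Set (Place k F)) (fun P => E P) :=
      ⟨V.sub_mem (v : V).2 (w : V).2, by rw [hSset]; exact h2⟩
    rw [hVinf, Submodule.mem_bot] at h3
    exact Subtype.ext (Subtype.ext (sub_eq_zero.1 h3))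
  have hrk := LinearMap.finrank_range_add_finrank_ker θ
  rw [hVrank, hmcard] at hrk
  -- a basis of the range
  let b := Module.finBasis k (LinearMap.range θ)
  have hb : ∀ i, ∃ v : F, π v = (b i : (F ⧸ B) ⧸ Ab) := by
    intro i
    obtain ⟨v, hv⟩ := (b i).2
    exact ⟨(v : F), hv⟩
  choose v hv using hb
  refine ⟨(F ⧸ B) ⧸ Ab, inferInstance, inferInstance, π, finrank k (LinearMap.range θ), v, ?_, ?_,
    hπA, hπB⟩
  · have h1 : (fun i => π (v i)) = fun i => ((b i : LinearMap.range θ) : (F ⧸ B) ⧸ Ab) :=
      funext hv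
    rw [h1]
    exact b.linearIndependent.map' (LinearMap.range θ).subtype (Submodule.ker_subtype _)
  · have h1 : ((n * N : ℕ) : ℤ) = finrank k (LinearMap.range θ) + finrank k (LinearMap.ker θ) := by
      rw [← hrk]; push_cast; ring
    push_cast at h1
    have h2 : (finrank k (LinearMap.ker θ) : ℤ) ≤ finrank k Lb := by exact_mod_cast hker
    rw [hLbrank, hDell] at h2
    omega

end

end Pool.Agent.H25.VO
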