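import Pool.Agent.H25.VO.V13
import Pool.Graph.R_seed8.W619.PQ.Genus

/-!
# Regular eigenforms on a curve with an action of a finite abelian group
-/

set_option autoImplicit false
set_option linter.overlappingInstances false
set_option linter.unusedSectionVars false

namespace Pool.Agent.H25.VO

open FF IntermediateField Module Pool.Agent.W603.LV Pool.Agent.W619.PQ Pool.Agent.Q70.CH
open KaehlerDifferential

section forms

variable {k K : Type} [Field k] [Field K] [Algebra k K]

/-- The differential `ω` is regular at the point `P`: `ω = f dt` with `t` a local parameter and `f`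
regular at `P`. -/
def RegularAt (P : Place k K) (ω : Ω[K⁄k]) : Prop :=
  ∃ f t : K, P.ord t = 1 ∧ 0 ≤ P.ord f ∧ ω = f • D k K t

/-- The space of the everywhere regular differentials `ω` with `s^* ω = χ(s) ω` for all `s`; these
are the regular differentials of the form `f dx` with `x` invariant and `s f = χ(s) f`. -/
noncomputable def Eigenforms {G : Type} [CommGroup G] (a : G →* (K ≃ₐ[k] K)) (χ : G →* kˣ) :
    Submodule k Ω[K⁄k] :=
  Submodule.span k {ω | (∀ P, RegularAt P ω) ∧ ∃ f x : K, (∀ s, a s x = x) ∧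
    (∀ s, a s f = (χ s : k) • f) ∧ ω = f • D k K x}

end forms

section oneDim

variable {k K : Type} [Field k] [CharZero k] [IsAlgClosed k] [Field K] [Algebra k K] [IsFF k K]

lemma D_ratio {t : K} (ht : Transcendental k t) (f : K) : ∃ c : K, D k K f = c • D k K t := by
  obtain ⟨c, hc⟩ := ratio ht f
  refine ⟨c, ?_⟩
  rw [← sub_eq_zero, ← Module.forall_dual_apply_eq_zero_iff K]
  intro φ
  have h1 := hc (φ.compDer (D k K))
  change φ (D k K f) = c * φ (D k K t) at h1
  rw [map_sub, map_smul, h1, smul_eq_mul, sub_self]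

lemma lift_D (dd : Derivation k K K) (f : K) : dd.liftKaehlerDifferential (D k K f) = dd f :=
  dd.liftKaehlerDifferential_comp_D f

lemma regularAt_of {x : K} {dd : Derivation k K K} (hx : dd x = 1) {P : Place k K} {f : K}
    (hf : vo P dd ≤ P.ord f) : RegularAt P (f • D k K x) := by
  have hdd : dd ≠ 0 := by
    rintro rfl
    simp at hx
  have hπ := ord_unif P
  have hπt : Transcendental k (unif P) := P.transcendental_of_ord_ne (by omega)
  obtain ⟨c, hc⟩ := D_ratio hπt x
  have h1 : 1 = c * dd (unif P) := by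
    have := congrArg dd.liftKaehlerDifferential hc
    rwa [map_smul, lift_D, lift_D, hx, smul_eq_mul] at this
  have h2 := der_pi_ne_zero hdd P hπ
  have hc0 : c ≠ 0 := by
    rintro rfl
    rw [zero_mul] at h1
    exact one_ne_zero h1
  have h3 : P.ord c = - vo P dd := by
    have h4 := congrArg P.ord h1
    rw [P.ord_one, P.ord_mul hc0 h2] at h4
    unfold vo
    omega
  refine ⟨f * c, unif P, hπ, ?_, by rw [hc, smul_smul]⟩
  by_cases hf0 : f = 0
  · rw [hf0, zero_mul, P.ord_zero]
  · rw [P.ord_mul hf0 hc0]; omega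

lemma D_ne_zero {x : K} {dd : Derivation k K K} (hx : dd x = 1) : D k K x ≠ 0 := by
  intro h
  have := congrArg dd.liftKaehlerDifferential h
  rw [lift_D, map_zero, hx] at this
  exact one_ne_zero this

lemma exists_der_one {x : K} (hx : Transcendental k x) : ∃ dd : Derivation k K K, dd x = 1 := by
  obtain ⟨D₀, hD₀⟩ := exists_der (k := k) (K := K)
  refine ⟨(D₀ x)⁻¹ • D₀, ?_⟩
  rw [Derivation.coe_smul, Pi.smul_apply, smul_eq_mul, inv_mul_cancel₀ (der_ne_zero hD₀ hx)]

end oneDim

section equiv

variable {k K : Type} [Field k] [CharZero k] [IsAlgClosed k] [Field K] [Algebra k K] [IsFF k K]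

/-- an automorphism which fixes `x` is an automorphism over `k(x)` -/
lemma trace_inv {x : K} (σ : K ≃ₐ[k] K) (hσ : σ x = x) (z : K) :
    Algebra.trace k⟮x⟯ K (σ z) = Algebra.trace k⟮x⟯ K z := by
  have h1 : ∀ r : k⟮x⟯, σ (algebraMap k⟮x⟯ K r) = algebraMap k⟮x⟯ K r := by
    intro r
    obtain ⟨p, q, h⟩ := (IntermediateField.mem_adjoin_simple_iff k (r : K)).1 r.2
    change σ (r : K) = (r : K)
    have h2 : ∀ p : Polynomial k, σ (Polynomial.aeval x p) = Polynomial.aeval x p := by
      intro p
      have := Polynomial.aeval_algHom_apply (σ : K →ₐ[k] K) x p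
      change Polynomial.aeval (σ x) p = σ (Polynomial.aeval x p) at this
      rw [← this, hσ]
    rw [h, map_div₀, h2, h2]
  let σ' : K ≃ₐ[k⟮x⟯] K := AlgEquiv.ofRingEquiv (f := σ.toRingEquiv) h1
  exact Algebra.trace_eq_of_algEquiv σ' z

/-- the residue pairing -/
noncomputable def Rs {x : K} (hx : Transcendental k x) (f z : K) : k :=
  (iota hx (Algebra.trace k⟮x⟯ K (f * z))).coeff 1

/-- the linear functional attached to a multiplier -/
lemma lam_of_mult {x : K} (hx : Transcendental k x) {lam : K →ₗ[k] k}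
    {hI : ∀ y ∈ BI (k := k) x, lam y = 0} {f : K}
    (hf : ∀ y, iota hx (Algebra.trace k⟮x⟯ K (f * y)) = SS lam hI y) (y : K) :
    lam y = Rs hx f y := by
  unfold Rs
  rw [hf, SS_coeff]
  congr 1
  rw [sub_self, zpow_zero, one_mul]

lemma Rs_zero {x : K} (hx : Transcendental k x) (z : K) : Rs hx 0 z = 0 := by
  unfold Rs
  rw [zero_mul, map_zero, map_zero, HahnSeries.coeff_zero]

lemma Rs_add {x : K} (hx : Transcendental k x) (f g z : K) :
    Rs hx (f + g) z = Rs hx f z + Rs hx g z := by
  unfold Rs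
  rw [add_mul, map_add, map_add, HahnSeries.coeff_add]

lemma iota_const {x : K} (hx : Transcendental k x) (c : k) :
    iota hx (algebraMap k k⟮x⟯ c) = HahnSeries.C c := by
  have h1 := iota_px hx (Polynomial.C c)
  rw [eU_C] at h1
  rw [← h1]
  congr 1
  unfold px
  rw [Polynomial.aeval_C]

lemma Rs_smul {x : K} (hx : Transcendental k x) (c : k) (f z : K) :
    Rs hx (c • f) z = c * Rs hx f z := by
  unfold Rs
  have h1 : c • f * z = (algebraMap k k⟮x⟯ c) • (f * z) := by
    rw [smul_mul_assoc, algebraMap_smul]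
  rw [h1, map_smul, smul_eq_mul, map_mul, iota_const, HahnSeries.C_mul_eq_smul,
    HahnSeries.coeff_smul, smul_eq_mul]

lemma Rs_sum {x : K} (hx : Transcendental k x) {ι : Type} (s : Finset ι) (c : ι → k) (f : ι → K)
    (z : K) : Rs hx (∑ i ∈ s, c i • f i) z = ∑ i ∈ s, c i * Rs hx (f i) z := by
  classical
  induction s using Finset.induction_on with
  | empty => rw [Finset.sum_empty, Finset.sum_empty, Rs_zero]
  | insert a s ha ih => rw [Finset.sum_insert ha, Finset.sum_insert ha, Rs_add, Rs_smul, ih]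

/-- the multiplier of an eigenfunctional is an eigenfunction -/
lemma mult_eigen {x : K} (hx : Transcendental k x) {lam : K →ₗ[k] k}
    {hI : ∀ y ∈ BI (k := k) x, lam y = 0} {f : K}
    (hf : ∀ y, iota hx (Algebra.trace k⟮x⟯ K (f * y)) = SS lam hI y) (σ : K ≃ₐ[k] K) (hσ : σ x = x)
    (c : k) (hlam : ∀ z, lam (σ z) = c * lam z) : c • σ f = f := by
  have hfin := IsFF.finite hx
  have hchar : CharZero k⟮x⟯ := charZero_of_injective_algebraMap (algebraMap k k⟮x⟯).injective
  have hsep : Algebra.IsSeparable k⟮x⟯ K := inferInstance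
  have hx0 : x ≠ 0 := by
    rintro rfl
    exact hx isAlgebraic_zero
  have hSS : ∀ z, SS lam hI (σ z) = HahnSeries.C c * SS lam hI z := by
    intro z
    ext j
    rw [SS_coeff, HahnSeries.C_mul_eq_smul, HahnSeries.coeff_smul, SS_coeff, smul_eq_mul, ← hlam]
    congr 1
    rw [map_mul, map_zpow₀, hσ]
  have key : ∀ z, Algebra.trace k⟮x⟯ K ((c • σ f - f) * z) = 0 := by
    intro z
    obtain ⟨z', rfl⟩ := σ.surjective z
    have h1 : Algebra.trace k⟮x⟯ K (σ f * σ z') = Algebra.trace k⟮x⟯ K (f * z') := by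
      rw [← map_mul, trace_inv σ hσ]
    have h2 : iota hx (Algebra.trace k⟮x⟯ K (f * σ z')) =
        iota hx (algebraMap k k⟮x⟯ c * Algebra.trace k⟮x⟯ K (f * z')) := by
      rw [hf, hSS, map_mul, iota_const, hf]
    have h3 := (iota hx).injective h2
    have h4 : c • σ f * σ z' = (algebraMap k k⟮x⟯ c) • (σ f * σ z') := by
      rw [smul_mul_assoc, algebraMap_smul]
    rw [sub_mul, map_sub, h4, map_smul, h1, h3, smul_eq_mul, sub_self]
  have h5 : c • σ f - f = 0 := by
    by_contra hne
    have h6 := key ((c • σ f - f)⁻¹)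
    rw [mul_inv_cancel₀ hne] at h6
    have h7 : Algebra.trace k⟮x⟯ K (1 : K) = (finrank k⟮x⟯ K : k⟮x⟯) := by
      have := Algebra.trace_algebraMap (R := k⟮x⟯) (S := K) (1 : k⟮x⟯)
      rw [map_one] at this
      rw [this]; simp
    rw [h7] at h6
    have h8 : finrank k⟮x⟯ K ≠ 0 := finrank_pos.ne'
    exact h8 (by exact_mod_cast h6)
  exact sub_eq_zero.1 h5

end equiv

end Pool.Agent.H25.VO
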