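import Pool.Agent.H25.VO.V2

/-!
# Conjugates with lifts, and elements of a rational function field
-/

set_option autoImplicit false
set_option linter.overlappingInstances false
set_option linter.unusedSectionVars false

namespace Pool.Agent.H25.VO

open FF IntermediateField Module Pool.Agent.W603.LV Pool.Agent.W619.PQ Pool.Agent.Q70.CH

section lifts

variable {k : Type} [Field k] [CharZero k]

/-- Conjugates of `F` over `R`, with lifts to a larger field `K`. -/
theorem exists_lifts (R F K : Type) [Field R] [Field F] [Field K] [Algebra k R] [Algebra k F]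
    [Algebra k K] [Algebra R F] [Algebra F K] [Algebra R K] [IsScalarTower R F K]
    [IsScalarTower k R F] [IsScalarTower k F K] [IsScalarTower k R K] [IsFF k R]
    [FiniteDimensional R F] [FiniteDimensional F K] :
    ∃ (L : Type) (_ : Field L) (_ : Algebra k L) (_ : Algebra R L) (_ : IsScalarTower k R L)
      (_ : FiniteDimensional R L) (_ : IsFF k L) (J : Type) (_ : Fintype J)
      (ψ : J → (K →ₐ[k] L)), Fintype.card J = finrank R F ∧
      (∀ j (f : R), ψ j (algebraMap R K f) = algebraMap R L f) ∧
      (∀ z : F, algebraMap R L (Algebra.norm R z) = ∏ j, ψ j (algebraMap F K z)) := by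
  have hc : CharZero R := charZero_of_injective_algebraMap (algebraMap k R).injective
  have hfRK : FiniteDimensional R K := FiniteDimensional.trans R F K
  let Ω := AlgebraicClosure K
  have h1 : IsScalarTower k R Ω := by
    refine IsScalarTower.of_algebraMap_eq fun c => ?_
    rw [IsScalarTower.algebraMap_apply k K Ω, IsScalarTower.algebraMap_apply k R K,
      ← IsScalarTower.algebraMap_apply R K Ω]
  let L := IntermediateField.normalClosure R K Ω
  have hfin : FiniteDimensional R L := inferInstance
  have hff : IsFF k L := isFF_ext (k := k) R L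
  -- the extensions
  have hext : ∀ σ : F →ₐ[R] Ω, ∃ τ : K →ₐ[R] Ω, ∀ f : F, τ (algebraMap F K f) = σ f := by
    intro σ
    obtain ⟨τ, hτ⟩ := IsAlgClosed.surjective_domRestrict_of_isAlgebraic (K := R) (L := F) (M := Ω)
      (E := K) σ
    refine ⟨τ, fun f => ?_⟩
    rw [← hτ]; rfl
  choose τ hτ using hext
  refine ⟨L, inferInstance, inferInstance, inferInstance, inferInstance, hfin, hff,
    F →ₐ[R] Ω, inferInstance,
    fun σ => ((τ σ).codRestrict L.toSubalgebra
      (fun x => (τ σ).fieldRange_le_normalClosure ⟨x, rfl⟩)).restrictScalars k, ?_, ?_, ?_⟩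
  · exact AlgHom.card R F Ω
  · intro σ f
    apply Subtype.ext
    change τ σ (algebraMap R K f) = algebraMap R Ω f
    exact (τ σ).commutes f
  · intro z
    apply Subtype.ext
    have h2 := Algebra.norm_eq_prod_embeddings R Ω z
    refine Eq.trans ?_ (h2.trans ?_)
    · rfl
    · have h3 := (map_prod L.val (fun σ : F →ₐ[R] Ω => ((τ σ).codRestrict L.toSubalgebra
        (fun x => (τ σ).fieldRange_le_normalClosure ⟨x, rfl⟩)) (algebraMap F K z)) Finset.univ)
      refine Eq.trans ?_ h3.symm
      apply Finset.prod_congr rfl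
      intro σ _
      exact (hτ σ z).symm

end lifts

section rational

variable {k L : Type} [Field k] [Field L] [Algebra k L]

/-- the function `∏ t, (T - t) ^ n t` -/
noncomputable def rat (T : L) (n : k →₀ ℤ) : L := n.prod fun t m => (T - algebraMap k L t) ^ m

lemma sub_ne {T : L} (hT : Transcendental k T) (t : k) : T - algebraMap k L t ≠ 0 := by
  intro h
  rw [sub_eq_zero] at h
  rw [h] at hT
  exact hT (isAlgebraic_algebraMap t)

lemma rat_add {T : L} (hT : Transcendental k T) (n m : k →₀ ℤ) :
    rat T (n + m) = rat T n * rat T m := by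
  unfold rat
  classical
  apply Finsupp.prod_add_index'
  · intro t; exact zpow_zero _
  · intro t a b; exact zpow_add₀ (sub_ne hT t) a b

lemma rat_neg {T : L} (n : k →₀ ℤ) : rat T (-n) = (rat T n)⁻¹ := by
  unfold rat
  classical
  rw [Finsupp.prod_neg_index]
  · unfold Finsupp.prod
    rw [← Finset.prod_inv_distrib]
    apply Finset.prod_congr rfl
    intro t _
    exact zpow_neg _ _
  · intro t; exact zpow_zero _

lemma rat_single (T : L) (t : k) (m : ℤ) :
    rat T (Finsupp.single t m) = (T - algebraMap k L t) ^ m := by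
  unfold rat
  exact Finsupp.prod_single_index (zpow_zero _)

lemma rat_zero (T : L) : rat T (0 : k →₀ ℤ) = 1 := Finsupp.prod_zero_index

lemma rat_nsmul {T : L} (hT : Transcendental k T) (n : k →₀ ℤ) (d : ℕ) :
    rat T (d • n) = rat T n ^ d := by
  induction d with
  | zero => rw [zero_smul, rat_zero, pow_zero]
  | succ d ih => rw [succ_nsmul, rat_add hT, ih, pow_succ]

lemma rat_ne {T : L} (hT : Transcendental k T) (n : k →₀ ℤ) : rat T n ≠ 0 := by
  unfold rat
  exact Finset.prod_ne_zero_iff.2 fun t _ => zpow_ne_zero _ (sub_ne hT t)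

lemma rat_map {L' : Type} [Field L'] [Algebra k L'] (φ : L →ₐ[k] L') (T : L) (n : k →₀ ℤ) :
    φ (rat T n) = rat (φ T) n := by
  unfold rat Finsupp.prod
  rw [map_prod]
  apply Finset.prod_congr rfl
  intro t _
  rw [map_zpow₀, map_sub, φ.commutes]

lemma rat_map' {L' : Type} [Field L'] [Algebra k L'] [Algebra L L'] [IsScalarTower k L L'] (T : L)
    (n : k →₀ ℤ) : algebraMap L L' (rat T n) = rat (algebraMap L L' T) n :=
  rat_map (IsScalarTower.toAlgHom k L L') T n

/-- every nonzero polynomial in `T` is a product of linear factors -/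
lemma poly_rep [IsAlgClosed k] {T : L} (hT : Transcendental k T) (p : Polynomial k) (hp : p ≠ 0) :
    ∃ (β : k) (n : k →₀ ℤ), β ≠ 0 ∧ Polynomial.aeval T p = algebraMap k L β * rat T n := by
  have h1 := IsAlgClosed.splits p
  have h2 := h1.eq_prod_roots
  have h3 : ∀ m : Multiset k, ∃ n : k →₀ ℤ,
      (m.map fun t => T - algebraMap k L t).prod = rat T n := by
    intro m
    induction m using Multiset.induction_on with
    | empty => exact ⟨0, by rw [rat_zero]; simp⟩
    | cons t m ih =>
      obtain ⟨n, hn⟩ := ih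
      refine ⟨Finsupp.single t 1 + n, ?_⟩
      rw [Multiset.map_cons, Multiset.prod_cons, hn, rat_add hT, rat_single, zpow_one]
  obtain ⟨n, hn⟩ := h3 p.roots
  refine ⟨p.leadingCoeff, n, Polynomial.leadingCoeff_ne_zero.2 hp, ?_⟩
  rw [← hn]
  conv_lhs => rw [h2]
  rw [map_mul, Polynomial.aeval_C, map_multiset_prod, Multiset.map_map]
  congr 3
  ext t
  simp

/-- every nonzero element of the field `k(T)` is, up to a constant, a product of linear factors -/
lemma rat_rep [IsAlgClosed k] {T : L} (hT : Transcendental k T) (z : L) (hz : z ≠ 0)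
    (hm : z ∈ k⟮T⟯) :
    ∃ (β : k) (n : k →₀ ℤ), β ≠ 0 ∧ z = algebraMap k L β * rat T n := by
  obtain ⟨r, s, h⟩ := (IntermediateField.mem_adjoin_simple_iff k z).1 hm
  have hr : r ≠ 0 := by
    rintro rfl
    rw [map_zero, zero_div] at h
    exact hz h
  have hs : s ≠ 0 := by
    rintro rfl
    rw [map_zero, div_zero] at h
    exact hz h
  obtain ⟨β, n, hβ, h1⟩ := poly_rep hT r hr
  obtain ⟨γ, m, hγ, h2⟩ := poly_rep hT s hs
  refine ⟨β / γ, n + -m, div_ne_zero hβ hγ, ?_⟩
  rw [h, h1, h2, rat_add hT, rat_neg, map_div₀]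
  have h3 := rat_ne hT m
  have h4 : algebraMap k L γ ≠ 0 := by simpa using hγ
  field_simp

/-- the order of `rat T n` at a place where `T` has the value `t` -/
lemma ord_rat {T : L} (hT : Transcendental k T) (n : k →₀ ℤ) (Q : Place k L) (t : k)
    (hQ : 0 < Q.ord (T - algebraMap k L t)) :
    Q.ord (rat T n) = n t * Q.ord (T - algebraMap k L t) := by
  classical
  unfold rat Finsupp.prod
  have h0 : ∀ t' : k, t' ≠ t → Q.ord (T - algebraMap k L t') = 0 := by
    intro t' ht'
    have h1 : Vl Q T t := Or.inr (by omega)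
    have h2 : Vl Q (T - algebraMap k L t') (t - t') := h1.sub (Vl.const Q t')
    exact (h2.ne_zero (sub_ne_zero.2 ht'.symm)).2
  rw [ord_prod' _ _ _ fun t' _ => zpow_ne_zero _ (sub_ne hT t')]
  have h1 : ∀ t' ∈ n.support, Q.ord ((T - algebraMap k L t') ^ n t') =
      if t' = t then n t * Q.ord (T - algebraMap k L t) else 0 := by
    intro t' _
    rw [Q.ord_zpow]
    split_ifs with h
    · rw [h]
    · rw [h0 t' h, mul_zero]
  rw [Finset.sum_congr rfl h1, Finset.sum_ite_eq']
  split_ifs with h
  · rfl
  · rw [Finsupp.notMem_support_iff.1 h, zero_mul]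

/-- the order at a pole of `T` -/
lemma ord_rat_pole {T : L} (hT : Transcendental k T) (n : k →₀ ℤ) (Q : Place k L)
    (hQ : Q.ord T < 0) :
    Q.ord (rat T n) = (n.sum fun _ m => m) * Q.ord T := by
  classical
  have hT0 : T ≠ 0 := by rintro rfl; exact hT isAlgebraic_zero
  have h0 : ∀ t : k, Q.ord (T - algebraMap k L t) = Q.ord T := by
    intro t
    by_cases ht : t = 0
    · rw [ht, map_zero, sub_zero]
    have h1 : algebraMap k L t ≠ 0 := by simpa using ht
    rw [sub_eq_add_neg]
    exact (Q.ord_add_eq hT0 (neg_ne_zero.2 h1) (by rw [Q.ord_neg, Q.ord_const ht]; exact hQ)).2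
  unfold rat Finsupp.prod Finsupp.sum
  rw [ord_prod' _ _ _ fun t' _ => zpow_ne_zero _ (sub_ne hT t'), Finset.sum_mul]
  apply Finset.sum_congr rfl
  intro t _
  rw [Q.ord_zpow, h0]

/-- a product of linear factors of total degree zero has the value one at the poles of `T` -/
lemma vl_rat_pole {T : L} (hT : Transcendental k T) (n : k →₀ ℤ) (Q : Place k L)
    (hQ : Q.ord T < 0) (hn : (n.sum fun _ m => m) = 0) : Vl Q (rat T n) 1 := by
  classical
  have hT0 : T ≠ 0 := by rintro rfl; exact hT isAlgebraic_zero
  have h1 : ∀ t : k, Vl Q (1 - algebraMap k L t * T⁻¹) 1 := by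
    intro t
    have h2 : Vl Q T⁻¹ 0 := by
      rw [vl_zero_iff]; right; rw [Q.ord_inv]; omega
    have h3 := (Vl.one Q).sub (h2.smul t)
    rwa [mul_zero, sub_zero] at h3
  have h4 : rat T n = ∏ t ∈ n.support, (1 - algebraMap k L t * T⁻¹) ^ n t := by
    have h5 : ∀ t ∈ n.support, (T - algebraMap k L t) ^ n t =
        T ^ n t * (1 - algebraMap k L t * T⁻¹) ^ n t := by
      intro t _
      rw [← mul_zpow]
      congr 1
      field_simp
    unfold rat Finsupp.prod
    rw [Finset.prod_congr rfl h5, Finset.prod_mul_distrib]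
    have h6 : ∏ t ∈ n.support, T ^ n t = 1 := by
      have h7 : ∀ s : Finset k, ∏ t ∈ s, T ^ n t = T ^ (∑ t ∈ s, n t) := by
        intro s
        induction s using Finset.induction_on with
        | empty => simp
        | insert a s ha ih => rw [Finset.prod_insert ha, Finset.sum_insert ha, zpow_add₀ hT0, ih]
      rw [h7]
      have h8 : ∑ t ∈ n.support, n t = 0 := hn
      rw [h8, zpow_zero]
    rw [h6, one_mul]
  rw [h4]
  have h9 := Vl.prod (P := Q) n.support (f := fun t => (1 - algebraMap k L t * T⁻¹) ^ n t)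
    (c := fun _ => (1 : k)) (fun t _ => by
      have := (h1 t).zpow one_ne_zero (n t)
      rwa [one_zpow] at this)
  simpa using h9

end rational

end Pool.Agent.H25.VO
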