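import Pool.Agent.H25.VO.V3

/-!
# The test curve
-/

set_option autoImplicit false
set_option linter.overlappingInstances false
set_option linter.unusedSectionVars false

namespace Pool.Agent.H25.VO

open FF IntermediateField Module Pool.Agent.W603.LV Pool.Agent.W619.PQ Pool.Agent.Q70.CH

/-- an injection compatible with given values -/
lemma exists_inj {J ι α : Type} [Fintype J] [Fintype ι] (b : J → α) (z : ι → α)
    (h : ∀ P, cnt b P ≤ cnt z P) : ∃ f : J ↪ ι, ∀ j, z (f j) = b j := by
  classical
  have h1 : ∀ P, Nonempty ({j // b j = P} ↪ {i // z i = P}) := by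
    intro P
    rw [Function.Embedding.nonempty_iff_card_le, Fintype.card_subtype, Fintype.card_subtype]
    have h2 := h P
    unfold cnt at h2
    convert h2
  let e : ∀ P, {j // b j = P} ↪ {i // z i = P} := fun P => Classical.choice (h1 P)
  refine ⟨⟨fun j => (e (b j) ⟨j, rfl⟩).1, ?_⟩, fun j => (e (b j) ⟨j, rfl⟩).2⟩
  intro j j' hjj
  have h3 : b j = b j' := by
    rw [← (e (b j) ⟨j, rfl⟩).2, ← (e (b j') ⟨j', rfl⟩).2]
    exact congrArg z hjj
  have h4 : ∀ P (hj : b j = P) (hj' : b j' = P), (e P ⟨j, hj⟩).1 = (e P ⟨j', hj'⟩).1 → j = j' := by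
    intro P hj hj' h
    have := (e P).injective (Subtype.ext h)
    exact congrArg Subtype.val this
  apply h4 (b j') h3 rfl
  have h5 : ∀ P (hP : b j = P), (e P ⟨j, hP⟩).1 = (e (b j) ⟨j, rfl⟩).1 := by
    intro P hP; subst hP; rfl
  rw [h5]; exact hjj

section

variable {k : Type} [Field k] [CharZero k]

/-- `Φ` is constant under rational equivalence -/
def KillsF (X : Sp k) {W : Type} [AddCommGroup W] (Φ : X.pts → W) : Prop :=
  ∀ (B : Type) [Field B] [Algebra k B] [IsFF k B] (s : Place k B → X.pts), s ∈ X.mor B →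
    ∀ t : B, t ≠ 0 → ((divisor k t).sum fun Q n => n • Φ (s Q)) = 0

/-- the extension of function fields is finite -/
lemma finite_ext (F K : Type) [Field F] [Field K] [Algebra k F] [Algebra k K] [Algebra F K]
    [IsScalarTower k F K] [IsFF k F] [hK : IsFF k K] : FiniteDimensional F K := by
  obtain ⟨t, ht⟩ := IsFF.exists_transcendental (k := k) (K := F)
  have ht' : Transcendental k (algebraMap F K t) := by
    intro h
    exact ht ((isAlgebraic_algebraMap_iff (algebraMap F K).injective).1 h)
  have h1 := IsFF.isAlgebraic ht'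
  have h2 : Algebra.IsAlgebraic F K := by
    constructor
    intro x
    have h3 := h1.isAlgebraic x
    obtain ⟨p, hp, hpx⟩ := h3
    have hle : k⟮algebraMap F K t⟯ ≤ (IsScalarTower.toAlgHom k F K).fieldRange := by
      rw [adjoin_simple_le_iff]; exact ⟨t, rfl⟩
    have h4 : IsAlgebraic (IsScalarTower.toAlgHom k F K).fieldRange x := by
      let inc : k⟮algebraMap F K t⟯ →+* (IsScalarTower.toAlgHom k F K).fieldRange :=
        (IntermediateField.inclusion hle).toRingHom
      refine ⟨p.map inc, ?_, ?_⟩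
      · rwa [Ne, Polynomial.map_eq_zero_iff inc.injective]
      · rw [Polynomial.aeval_def, Polynomial.eval₂_map]
        exact hpx
    obtain ⟨q, hq, hqx⟩ := h4
    let e : F ≃+* (IsScalarTower.toAlgHom k F K).fieldRange :=
      (AlgEquiv.ofInjectiveField (IsScalarTower.toAlgHom k F K)).toRingEquiv
    refine ⟨q.map e.symm.toRingHom, ?_, ?_⟩
    · rwa [Ne, Polynomial.map_eq_zero_iff e.symm.injective]
    · rw [Polynomial.aeval_def, Polynomial.eval₂_map]
      rw [← hqx, Polynomial.aeval_def]
      congr 1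
      ext c
      obtain ⟨c', rfl⟩ := e.surjective c
      simp
      rfl
  have h5 : Algebra.EssFiniteType F K := by
    have := hK.ess
    exact Algebra.EssFiniteType.of_comp k F K
  obtain ⟨s, hs⟩ := IntermediateField.fg_top F K
  have h6 : FiniteDimensional F (IntermediateField.adjoin F (s : Set K)) :=
    IntermediateField.finiteDimensional_adjoin (fun x _ => (h2.isAlgebraic x).isIntegral)
  rw [hs] at h6
  exact IntermediateField.topEquiv.toLinearEquiv.finiteDimensional

variable [IsAlgClosed k]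

/-- the test curve -/
theorem test_curve {F K : Type} [Field F] [Algebra k F] [IsFF k F] [Field K] [Algebra k K]
    [IsFF k K] [Algebra F K] [IsScalarTower k F K] {G : Type} [CommGroup G] [Fintype G]
    {a : G →* (K ≃ₐ[k] K)} (hq : IsQuot a F) {ι : Type} [Fintype ι] (x : ι → Place k K)
    (z : ι → Place k F) (hz : ∀ i, ∃ e, Over (x i) (z i) e) (h : F) (hh : Transcendental k h)
    (hpole : ∀ P : Place k F, - P.ord h ≤ cnt z P) {χ : G →* kˣ} {y : K} (hy : y ≠ 0)
    (hya : ∀ s, a s y = algebraMap k K (χ s : k) * y) {d : ℕ} (hd : 0 < d) {b : F}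
    (hb : y ^ d = algebraMap F K b) (hbz : ∀ i, (z i).ord b = 0) {W : Type} [AddCommGroup W]
    [Module k W] (Ψ : (ι → Place k K) → W) (P1 : ∀ (π : Equiv.Perm ι) x, Ψ (fun i => x (π i)) = Ψ x)
    (P2 : ∀ (u : ι → G) x, Ψ (fun i => act a (u i) (x i)) = (((χ (∏ i, u i))⁻¹ : kˣ) : k) • Ψ x) :
    ∃ (L : Type) (_ : Field L) (_ : Algebra k L) (_ : IsFF k L) (T Y : L) (κ : k)
      (s : Place k L → (ι → Place k K)) (β : k) (n : k →₀ ℤ),
      Transcendental k T ∧ s ∈ ((curve (k := k) K).pow ι).mor L ∧ κ ≠ 0 ∧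
      (∀ Q : Place k L, Q.ord T < 0 → ∃ c, c ≠ 0 ∧ Vl Q Y c ∧ Ψ (s Q) = (κ * c⁻¹) • Ψ x) ∧
      (∀ (Q : Place k L) (t : k), 0 < Q.ord (T - algebraMap k L t) →
        ∀ P : Place k F, 0 < P.ord (h - algebraMap k F t) → ∃ i e, Over (s Q i) P e) ∧
      β ≠ 0 ∧ Y ^ d = algebraMap k L β * rat T n ∧
      (∀ t, ∀ S : Finset (Place k F), (∀ P, P ∈ S ↔ 0 < P.ord (h - algebraMap k F t)) →
        n t = ∑ P ∈ S, P.ord b) ∧ (n.sum fun _ m => m) = 0 := by
  classical
  have hFK : FiniteDimensional F K := finite_ext (k := k) F K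
  -- the rational function field
  let R := k⟮h⟯
  have hfin : FiniteDimensional R F := IsFF.finite hh
  let g : R := AdjoinSimple.gen k h
  have hgF : algebraMap R F g = h := AdjoinSimple.algebraMap_gen k h
  have hg : Transcendental k g := by
    intro hc
    apply hh
    rw [← hgF]
    exact hc.algebraMap
  have htop : k⟮g⟯ = ⊤ := by
    apply IntermediateField.lift_injective R
    rw [IntermediateField.lift_adjoin_simple, IntermediateField.lift_top]
    rfl
  have hR : IsFF k R := by
    apply IsFF.of_finite hg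
    rw [htop]
    exact Module.Finite.of_surjective (Algebra.linearMap (⊤ : IntermediateField k R) R)
      (fun x => ⟨⟨x, trivial⟩, rfl⟩)
  have hg0 : g ≠ 0 := by
    intro hc
    rw [hc] at hg
    exact hg isAlgebraic_zero
  have hgi : Transcendental k g⁻¹ := by
    intro hc
    apply hg
    simpa using hc.inv
  have htopi : k⟮g⁻¹⟯ = ⊤ := by rw [adjoin_inv, htop]
  obtain ⟨L, _, _, _, _, hRL, hffL, J, _, ψ, hJ, hψ, hN⟩ := exists_lifts (k := k) R F K
  let T : L := algebraMap R L g
  let φ : J → (F →ₐ[k] L) := fun j => (ψ j).comp (IsScalarTower.toAlgHom k F K)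
  have hφψ : ∀ j f, φ j f = ψ j (algebraMap F K f) := fun j f => rfl
  have hφ : ∀ j (f : R), φ j (algebraMap R F f) = algebraMap R L f := by
    intro j f
    rw [hφψ, ← IsScalarTower.algebraMap_apply R F K, hψ]
  have hN' : ∀ z : F, algebraMap R L (Algebra.norm R z) = ∏ j, φ j z := hN
  have hT : Transcendental k T := by
    intro hc
    apply hg
    exact (isAlgebraic_algebraMap_iff (algebraMap R L).injective).1 hc
  have hT0 : T ≠ 0 := by rintro hc; rw [hc] at hT; exact hT isAlgebraic_zero
  -- places of `F` below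
  have hbelow : ∀ (j : J) (Q : Place k L), ∃ e, Over (below (ψ j) Q) (below (φ j) Q) e := by
    intro j Q
    obtain ⟨e, he, h1⟩ := below_spec (ψ j) Q
    obtain ⟨p', e', he', h2⟩ := exists_below (IsScalarTower.toAlgHom k F K) (below (ψ j) Q)
    obtain ⟨e'', he'', h3⟩ := below_spec (φ j) Q
    have h4 : ∀ f, Q.ord (φ j f) = ((e * e' : ℕ) : ℤ) * p'.ord f := by
      intro f
      rw [hφψ, h1]
      have := h2 f
      change (below (ψ j) Q).ord (algebraMap F K f) = _ at this
      rw [this]; push_cast; ring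
    have h5 := (over_unique he'' h3 h4).1
    rw [h5]
    exact ⟨e', he', h2⟩
  -- the fibre over infinity
  have hcnt : ∀ Q : Place k L, Q.ord T < 0 → ∀ P : Place k F,
      (cnt (fun j => below (φ j) Q) P : ℤ) = max (- P.ord h) 0 := by
    intro Q hQ P
    have h1 : 0 < Q.ord (algebraMap R L g⁻¹) := by
      rw [map_inv₀, Q.ord_inv]
      change 0 < - Q.ord T
      omega
    rw [cnt_below φ hJ hφ hN' g⁻¹ hgi htopi Q h1 P, map_inv₀, hgF, P.ord_inv]
  obtain ⟨Sinf, hS1, hS2⟩ := poles hT
  have hLfin := IsFF.finite hT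
  obtain ⟨Q₀, hQ₀⟩ : Sinf.Nonempty := by
    rw [Finset.nonempty_iff_ne_empty]
    rintro rfl
    rw [Finset.sum_empty] at hS2
    have : 0 < finrank k⟮T⟯ L := finrank_pos
    omega
  have hQ₀' := (hS1 Q₀).1 hQ₀
  let b₀ : J → Place k F := fun j => below (φ j) Q₀
  obtain ⟨f, hf⟩ := exists_inj b₀ z (by
    intro P
    have h1 := hcnt Q₀ hQ₀' P
    have h2 := hpole P
    have h3 : (cnt b₀ P : ℤ) ≤ cnt z P := by
      change (cnt (fun j => below (φ j) Q₀) P : ℤ) ≤ _
      rw [h1]
      apply max_le <;> omega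
    exact_mod_cast h3)
  let s : Place k L → (ι → Place k K) := fun Q => Function.extend f (fun j => below (ψ j) Q) x
  have hs1 : ∀ Q j, s Q (f j) = below (ψ j) Q := fun Q j => f.injective.extend_apply _ _ j
  have hs2 : ∀ Q i, (¬ ∃ j, f j = i) → s Q i = x i := fun Q i hi =>
    Function.extend_apply' _ _ i hi
  have hs : s ∈ ((curve (k := k) K).pow ι).mor L := by
    intro i
    by_cases hi : ∃ j, f j = i
    · obtain ⟨j, rfl⟩ := hi
      right
      refine ⟨ψ j, fun Q => ?_⟩
      change ∃ e : ℕ, 0 < e ∧ ∀ f', Q.ord (ψ j f') = e * (s Q (f j)).ord f'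
      rw [hs1]
      exact below_spec (ψ j) Q
    · left
      exact ⟨x i, fun Q => hs2 Q i hi⟩
  -- the values of `y`
  have hyx : ∀ i, ∃ c, c ≠ 0 ∧ Vl (x i) y c := by
    intro i
    obtain ⟨e, he⟩ := hz i
    have h1 : (d : ℤ) * (x i).ord y = 0 := by
      rw [← (x i).ord_pow, hb, he.2, hbz, mul_zero]
    have h2 : (x i).ord y = 0 := by
      rcases mul_eq_zero.1 h1 with h3 | h3
      · omega
      · exact h3
    obtain ⟨c, hc⟩ := exists_vl (x i) (f := y) (Or.inr h2.ge)
    exact ⟨c, hc.ne_zero_of_ord hy h2, hc⟩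
  choose yv hyv0 hyv using hyx
  let Y : L := ∏ j, ψ j y
  let κ : k := ∏ j, yv (f j)
  have hκ : κ ≠ 0 := Finset.prod_ne_zero_iff.2 fun j _ => hyv0 _
  have hinf : ∀ Q : Place k L, Q.ord T < 0 → ∃ c, c ≠ 0 ∧ Vl Q Y c ∧ Ψ (s Q) = (κ * c⁻¹) • Ψ x := by
    intro Q hQ
    obtain ⟨π, hπ⟩ := exists_perm (fun j => below (φ j) Q) b₀ (by
      intro P
      have h1 := hcnt Q hQ P
      have h2 : (cnt b₀ P : ℤ) = _ := hcnt Q₀ hQ₀' P
      rw [← h2] at h1
      exact_mod_cast h1)
    let π' : Equiv.Perm ι := π.viaEmbedding f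
    have hπ1 : ∀ j, π' (f j) = f (π j) := fun j => π.viaEmbedding_apply f j
    have hπ2 : ∀ i, (¬ ∃ j, f j = i) → π' i = i := fun i hi =>
      π.viaEmbedding_apply_of_notMem f i (by simpa using hi)
    have hu : ∀ i, ∃ u : G, s Q i = act a u (x (π' i)) ∧ ((¬ ∃ j, f j = i) → u = 1) := by
      intro i
      by_cases hi : ∃ j, f j = i
      · obtain ⟨j, rfl⟩ := hi
        obtain ⟨e, he⟩ := hbelow j Q
        obtain ⟨e', he'⟩ := hz (π' (f j))
        have h1 : below (φ j) Q = z (π' (f j)) := by
          rw [hπ1, hf]; exact hπ j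
        rw [← h1] at he'
        obtain ⟨u, hu⟩ := exists_act hq he' he
        refine ⟨u, ?_, fun hc => absurd ⟨j, rfl⟩ hc⟩
        rw [hs1, hu]
      · refine ⟨1, ?_, fun _ => rfl⟩
        rw [act_one, hπ2 i hi, hs2 Q i hi]
    choose u hu1 hu2 using hu
    have hprod : ∏ j, u (f j) = ∏ i, u i :=
      Fintype.prod_of_injective f f.injective _ _ (fun i hi => hu2 i (by simpa using hi))
        (fun j => rfl)
    have hval : ∀ j, Vl Q (ψ j y) (((χ (u (f j)) : kˣ) : k) * yv (f (π j))) := by
      intro j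
      apply vl_below
      rw [← hs1, hu1, vl_act, hya, hπ1]
      exact (hyv _).smul _
    have hYv : Vl Q Y ((χ (∏ i, u i) : kˣ) * κ) := by
      have h1 := Vl.prod (P := Q) Finset.univ (f := fun j => ψ j y)
        (c := fun j => ((χ (u (f j)) : kˣ) : k) * yv (f (π j))) fun j _ => hval j
      have h2 : ∏ j, (((χ (u (f j)) : kˣ) : k) * yv (f (π j))) = (χ (∏ i, u i) : kˣ) * κ := by
        rw [Finset.prod_mul_distrib, ← hprod, map_prod, Units.coe_prod]
        congr 1
        exact Equiv.prod_comp π fun j => yv (f j)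
      rw [h2] at h1
      exact h1
    refine ⟨_, mul_ne_zero (Units.ne_zero _) hκ, hYv, ?_⟩
    have h3 : s Q = fun i => act a (u i) (x (π' i)) := funext hu1
    rw [h3, P2 u (fun i => x (π' i)), P1 π' x]
    congr 1
    rw [Units.val_inv_eq_inv_val]
    field_simp
  -- the fibre over a point
  have hcnt' : ∀ (Q : Place k L) (t : k), 0 < Q.ord (T - algebraMap k L t) → ∀ P : Place k F,
      (cnt (fun j => below (φ j) Q) P : ℤ) = max (P.ord (h - algebraMap k F t)) 0 := by
    intro Q t hQ P
    have h1 : Transcendental k (g - algebraMap k R t) := by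
      intro hc
      apply hg
      have := hc.add (isAlgebraic_algebraMap (R := k) (A := R) t)
      simpa using this
    have h2 : k⟮g - algebraMap k R t⟯ = ⊤ := by
      rw [← htop]
      apply le_antisymm
      · rw [adjoin_simple_le_iff]
        exact sub_mem (mem_adjoin_simple_self k g) (IntermediateField.algebraMap_mem _ t)
      · rw [adjoin_simple_le_iff]
        have := add_mem (mem_adjoin_simple_self k (g - algebraMap k R t))
          (IntermediateField.algebraMap_mem (k⟮g - algebraMap k R t⟯) t)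
        simpa using this
    have h3 : algebraMap R L (g - algebraMap k R t) = T - algebraMap k L t := by
      rw [map_sub, ← IsScalarTower.algebraMap_apply k R L]
    have h4 : algebraMap R F (g - algebraMap k R t) = h - algebraMap k F t := by
      rw [map_sub, ← IsScalarTower.algebraMap_apply k R F, hgF]
    have h5 := cnt_below φ hJ hφ hN' (g - algebraMap k R t) h1 h2 Q (by rw [h3]; exact hQ) P
    rw [h4] at h5
    exact h5
  -- the norm
  have hYd : Y ^ d = ∏ j, φ j b := by
    change (∏ j, ψ j y) ^ d = _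
    rw [← Finset.prod_pow]
    apply Finset.prod_congr rfl
    intro j _
    rw [← map_pow, hb, hφψ]
  have hb0 : b ≠ 0 := by
    rintro rfl
    rw [map_zero] at hb
    exact hy (pow_eq_zero_iff hd.ne' |>.1 hb)
  have hnb : Algebra.norm R b ≠ 0 := by
    rw [Algebra.norm_ne_zero_iff]; exact hb0
  obtain ⟨β, n, hβ, hn⟩ := rat_rep hg (Algebra.norm R b) hnb (by rw [htop]; trivial)
  have hYn : Y ^ d = algebraMap k L β * rat T n := by
    rw [hYd, ← hN', hn, map_mul, rat_map', ← IsScalarTower.algebraMap_apply k R L]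
  refine ⟨L, _, _, hffL, T, Y, κ, s, β, n, hT, hs, hκ, hinf, ?_, hβ, hYn, ?_, ?_⟩
  · intro Q t hQ P hP
    have h1 := hcnt' Q t hQ P
    rw [max_eq_left hP.le] at h1
    have h2 : 0 < cnt (fun j => below (φ j) Q) P := by omega
    unfold cnt at h2
    rw [Finset.card_pos] at h2
    obtain ⟨j, hj⟩ := h2
    rw [Finset.mem_filter] at hj
    obtain ⟨e, he⟩ := hbelow j Q
    refine ⟨f j, e, ?_⟩
    rw [hs1]
    have := hj.2
    simp only at this
    rw [this] at he
    exact he
  · intro t S hS
    have hTt : Transcendental k (T - algebraMap k L t) := by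
      intro hc
      apply hT
      have := hc.add (isAlgebraic_algebraMap (R := k) (A := L) t)
      simpa using this
    obtain ⟨S', hS'1, -, hS'2⟩ := zeros hTt
    have hLfin' := IsFF.finite hTt
    obtain ⟨Q, hQ⟩ : S'.Nonempty := by
      rw [Finset.nonempty_iff_ne_empty]
      rintro rfl
      rw [Finset.sum_empty] at hS'2
      have : 0 < finrank k⟮T - algebraMap k L t⟯ L := finrank_pos
      omega
    have hQ' := (hS'1 Q).1 hQ
    set E := Q.ord (T - algebraMap k L t) with hE
    have h1 : Q.ord (Y ^ d) = n t * E := by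
      have hβ' : algebraMap k L β ≠ 0 := by simpa using hβ
      rw [hYn, Q.ord_mul hβ' (rat_ne hT n), Q.ord_const hβ, zero_add, ord_rat hT n Q t hQ']
    have h2 : Q.ord (Y ^ d) = ∑ j, Q.ord (φ j b) := by
      rw [hYd]
      exact ord_prod' _ _ _ fun j _ => by simpa using hb0
    have he : ∀ j, ∃ e : ℤ, (∀ f', Q.ord (φ j f') = e * (below (φ j) Q).ord f') ∧
        e * (below (φ j) Q).ord (h - algebraMap k F t) = E := by
      intro j
      obtain ⟨e, he, h3⟩ := below_spec (φ j) Q
      refine ⟨e, h3, ?_⟩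
      rw [← h3, hE]
      congr 1
      rw [map_sub, (φ j).commutes]
      congr 1
      rw [← hgF, hφ]
    choose e he1 he2 using he
    have hmem : ∀ j, below (φ j) Q ∈ S := by
      intro j
      rw [hS]
      have h3 := he2 j
      have h4 := hcnt' Q t hQ' (below (φ j) Q)
      have h5 : 0 < cnt (fun j => below (φ j) Q) (below (φ j) Q) := by
        unfold cnt
        rw [Finset.card_pos]
        exact ⟨j, by simp⟩
      by_contra hc
      push Not at hc
      rw [max_eq_right hc] at h4
      omega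
    have h3 : ∑ j, Q.ord (φ j b) = ∑ P ∈ S, E * P.ord b := by
      rw [← Finset.sum_fiberwise_of_maps_to (s := Finset.univ) (t := S)
        (g := fun j => below (φ j) Q) fun j _ => hmem j]
      apply Finset.sum_congr rfl
      intro P hP
      have h4 : 0 < P.ord (h - algebraMap k F t) := (hS P).1 hP
      have h5 := hcnt' Q t hQ' P
      rw [max_eq_left h4.le] at h5
      have h6 : ∑ j ∈ Finset.univ.filter (fun j => below (φ j) Q = P), Q.ord (φ j b) =
          (∑ j ∈ Finset.univ.filter (fun j => below (φ j) Q = P), e j) * P.ord b := by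
        rw [Finset.sum_mul]
        apply Finset.sum_congr rfl
        intro j hj
        rw [he1, (Finset.mem_filter.1 hj).2]
      have h7 : (∑ j ∈ Finset.univ.filter (fun j => below (φ j) Q = P), e j) = E := by
        apply mul_right_cancel₀ h4.ne'
        rw [Finset.sum_mul]
        have h8 : ∀ j ∈ Finset.univ.filter (fun j => below (φ j) Q = P),
            e j * P.ord (h - algebraMap k F t) = E := by
          intro j hj
          have := he2 j
          rwa [(Finset.mem_filter.1 hj).2] at this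
        rw [Finset.sum_congr rfl h8, Finset.sum_const, nsmul_eq_mul]
        have h9 : ((Finset.univ.filter (fun j => below (φ j) Q = P)).card : ℤ) =
            P.ord (h - algebraMap k F t) := h5
        rw [h9]; ring
      rw [h6, h7]
    rw [h2, h3, ← Finset.mul_sum] at h1
    have hE0 : E ≠ 0 := by omega
    apply mul_left_cancel₀ hE0
    rw [h1]; ring
  · obtain ⟨c, hc0, hc, -⟩ := hinf Q₀ hQ₀'
    have h1 := (hc.ne_zero hc0).2
    have h2 : Q₀.ord (Y ^ d) = (n.sum fun _ m => m) * Q₀.ord T := by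
      have hβ' : algebraMap k L β ≠ 0 := by simpa using hβ
      rw [hYn, Q₀.ord_mul hβ' (rat_ne hT n), Q₀.ord_const hβ, zero_add, ord_rat_pole hT n Q₀ hQ₀']
    rw [Q₀.ord_pow, h1, mul_zero] at h2
    rcases mul_eq_zero.1 h2.symm with h3 | h3
    · exact h3
    · omega

end

end Pool.Agent.H25.VO
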