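import Pool.Agent.H25.VO.V4

/-!
# Roots of functions, and two algebraic lemmas
-/

set_option autoImplicit false
set_option linter.overlappingInstances false
set_option linter.unusedSectionVars false

namespace Pool.Agent.H25.VO

open FF IntermediateField Module Pool.Agent.W603.LV Pool.Agent.W619.PQ Pool.Agent.Q70.CH

section roots

variable {k L : Type} [Field k] [IsAlgClosed k] [Field L] [Algebra k L]

lemma alg_const {V : L} (h : IsAlgebraic k V) : ∃ γ : k, algebraMap k L γ = V := by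
  have h1 := IsAlgClosed.degree_eq_one_of_irreducible k (minpoly.irreducible h.isIntegral)
  exact minpoly.mem_range_of_degree_eq_one k V h1

lemma const_of_pow {V : L} {β : k} {m : ℕ} (hm : 0 < m) (h : V ^ m = algebraMap k L β) :
    ∃ γ : k, algebraMap k L γ = V := by
  apply alg_const
  have h1 : IsAlgebraic k (V ^ m) := by rw [h]; exact isAlgebraic_algebraMap β
  exact h1.of_pow hm

/-- extraction of a root -/
lemma exists_root {V w : L} (hw : w ≠ 0) {β : k} (hβ : β ≠ 0) {d : ℕ} (hd : 0 < d) {c : ℤ}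
    (hc : ¬ (d : ℤ) ∣ c) (h : V ^ d = algebraMap k L β * w ^ c) :
    ∃ (e : ℕ) (τ : L) (γ : k) (ν : ℤ), 0 < e ∧ ¬ (e : ℤ) ∣ ν ∧ γ ≠ 0 ∧ τ ^ e = w ∧
      V = algebraMap k L γ * τ ^ ν := by
  have hβ' : algebraMap k L β ≠ 0 := by simpa using hβ
  have hV : V ≠ 0 := by
    rintro rfl
    rw [zero_pow hd.ne'] at h
    exact mul_ne_zero hβ' (zpow_ne_zero _ hw) h.symm
  obtain ⟨δ, hδ⟩ : ∃ δ : ℕ, δ = Int.gcd c d := ⟨_, rfl⟩
  have hδ0 : 0 < δ := by
    rw [hδ]; exact Int.gcd_pos_of_ne_zero_right _ (by omega)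
  obtain ⟨ν, hν⟩ : (δ : ℤ) ∣ c := by rw [hδ]; exact Int.gcd_dvd_left ..
  obtain ⟨e', he'⟩ : (δ : ℤ) ∣ d := by rw [hδ]; exact Int.gcd_dvd_right ..
  have he'0 : 0 < e' := by
    have h1 : (0 : ℤ) < δ * e' := by rw [← he']; omega
    exact pos_of_mul_pos_right h1 (by omega)
  obtain ⟨e, rfl⟩ : ∃ e : ℕ, e' = e := ⟨e'.toNat, by omega⟩
  have he0 : 0 < e := by omega
  have hde : d = δ * e := by exact_mod_cast he'
  have hcop : IsCoprime ν (e : ℤ) := by
    rw [Int.isCoprime_iff_gcd_eq_one]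
    have h1 : Int.gcd (δ * ν) (δ * e) = δ * Int.gcd ν e := by
      rw [Int.gcd_mul_left]; simp
    rw [← hν, ← he', ← hδ] at h1
    exact (Nat.eq_of_mul_eq_mul_left hδ0 (by rw [mul_one]; exact h1)).symm
  have hne : ¬ (e : ℤ) ∣ ν := by
    rintro ⟨l, hl⟩
    apply hc
    refine ⟨l, ?_⟩
    rw [hν, hl, he']; ring
  -- `V ^ e = β' w ^ ν`
  have h1 : (V ^ e * w ^ (-ν)) ^ δ = algebraMap k L β := by
    rw [mul_pow, ← pow_mul, mul_comm e δ, ← hde, h, ← zpow_natCast (w ^ (-ν)), ← zpow_mul,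
      mul_assoc, ← zpow_add₀ hw, hν]
    have : (δ : ℤ) * ν + -ν * δ = 0 := by ring
    rw [this, zpow_zero, mul_one]
  obtain ⟨β', hβ1⟩ := const_of_pow hδ0 h1
  have hβ'0 : β' ≠ 0 := by
    rintro rfl
    rw [map_zero] at hβ1
    exact mul_ne_zero (pow_ne_zero _ hV) (zpow_ne_zero _ hw) hβ1.symm
  have hVe : V ^ e = algebraMap k L β' * w ^ ν := by
    rw [hβ1, mul_assoc, ← zpow_add₀ hw, neg_add_cancel, zpow_zero, mul_one]
  obtain ⟨A, B, hAB⟩ := hcop
  -- `τ₀`
  obtain ⟨ε, hε⟩ : ∃ ε : k, ε ^ e = (β' ^ A)⁻¹ := IsAlgClosed.exists_pow_nat_eq _ he0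
  have hε0 : ε ≠ 0 := by
    rintro rfl
    rw [zero_pow he0.ne'] at hε
    exact inv_ne_zero (zpow_ne_zero _ hβ'0) hε.symm
  let τ : L := algebraMap k L ε * (V ^ A * w ^ B)
  have hβ'' : algebraMap k L β' ≠ 0 := by simpa using hβ'0
  have hτ : τ ^ e = w := by
    change (algebraMap k L ε * (V ^ A * w ^ B)) ^ e = w
    have h2 : (V ^ A) ^ e = algebraMap k L β' ^ A * w ^ (ν * A) := by
      rw [← zpow_natCast, ← zpow_mul, mul_comm, zpow_mul, zpow_natCast, hVe, mul_zpow, ← zpow_mul]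
    have h3 : (w ^ B) ^ e = w ^ (B * e) := by
      rw [← zpow_natCast, ← zpow_mul]
    rw [mul_pow, mul_pow, h2, h3, ← map_pow, hε, map_inv₀, map_zpow₀, mul_assoc,
      ← zpow_add₀ hw]
    have h4 : ν * A + B * e = 1 := by rw [← hAB]; ring
    rw [h4, zpow_one]
    have h5 : algebraMap k L β' ^ A ≠ 0 := zpow_ne_zero _ hβ''
    field_simp
  have hτ0 : τ ≠ 0 := by
    intro hc0
    rw [hc0, zero_pow he0.ne'] at hτ
    exact hw hτ.symm
  have h6 : (V * τ ^ (-ν)) ^ e = algebraMap k L β' := by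
    rw [mul_pow, hVe, ← zpow_natCast (τ ^ (-ν)), ← zpow_mul, mul_comm (-ν) (e : ℤ), zpow_mul,
      zpow_natCast, hτ, mul_assoc, ← zpow_add₀ hw, add_neg_cancel, zpow_zero, mul_one]
  obtain ⟨γ, hγ⟩ := const_of_pow he0 h6
  refine ⟨e, τ, γ, ν, he0, hne, ?_, hτ, ?_⟩
  · rintro rfl
    rw [map_zero] at hγ
    exact mul_ne_zero hV (zpow_ne_zero _ hτ0) hγ.symm
  · rw [hγ, mul_assoc, ← zpow_add₀ hτ0, neg_add_cancel, zpow_zero, mul_one]

end roots

section kill

variable {k : Type} [Field k] [CharZero k] [IsAlgClosed k]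

/-- a functional which kills rational equivalences, constant on the zeros and on the poles of a
function, takes the same value on both -/
lemma kill_two {X : Sp k} {W : Type} [AddCommGroup W] [Module k W] {Φ : X.pts → W}
    (hK : KillsF X Φ) {L : Type} [Field L] [Algebra k L] [IsFF k L] {s : Place k L → X.pts}
    (hs : s ∈ X.mor L) {f : L} (hf : Transcendental k f) {A B : W}
    (hA : ∀ Q : Place k L, 0 < Q.ord f → Φ (s Q) = A)
    (hB : ∀ Q : Place k L, Q.ord f < 0 → Φ (s Q) = B) : A = B := by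
  classical
  have hf0 : f ≠ 0 := by rintro rfl; exact hf isAlgebraic_zero
  have h1 := hK L s hs f hf0
  unfold Finsupp.sum at h1
  have hd : ∀ Q : Place k L, divisor k f Q = Q.ord f := fun Q => divisor_apply f Q
  rw [← Finset.sum_filter_add_sum_filter_not (divisor k f).support (fun Q => 0 < Q.ord f)] at h1
  let D : ℤ := ∑ Q ∈ (divisor k f).support.filter (fun Q => 0 < Q.ord f), Q.ord f
  have htot : ∑ Q ∈ (divisor k f).support, Q.ord f = 0 := by
    have h2 := ddeg_divisor (k := k) (K := L) f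
    unfold ddeg Finsupp.sum at h2
    rw [← h2]
    apply Finset.sum_congr rfl
    intro Q _
    change Q.ord f = divisor k f Q * (Q.deg : ℤ)
    rw [deg_one Q, hd]; simp
  have hpoles : ∑ Q ∈ (divisor k f).support.filter (fun Q => ¬ 0 < Q.ord f), Q.ord f = -D := by
    have := Finset.sum_filter_add_sum_filter_not (divisor k f).support (fun Q => 0 < Q.ord f)
      (fun Q => Q.ord f)
    rw [htot] at this
    change D + _ = 0 at this
    omega
  have h2 : ∑ Q ∈ (divisor k f).support.filter (fun Q => 0 < Q.ord f), divisor k f Q • Φ (s Q) =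
      D • A := by
    change _ = (∑ Q ∈ (divisor k f).support.filter (fun Q => 0 < Q.ord f), Q.ord f) • A
    rw [Finset.sum_smul]
    apply Finset.sum_congr rfl
    intro Q hQ
    rw [hd, hA Q (Finset.mem_filter.1 hQ).2]
  have h3 : ∑ Q ∈ (divisor k f).support.filter (fun Q => ¬ 0 < Q.ord f),
      divisor k f Q • Φ (s Q) = (-D) • B := by
    rw [← hpoles, Finset.sum_smul]
    apply Finset.sum_congr rfl
    intro Q hQ
    rw [Finset.mem_filter, Finsupp.mem_support_iff, hd] at hQ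
    rw [hd, hB Q (by omega)]
  rw [h2, h3] at h1
  have hD : 0 < D := by
    obtain ⟨S, hS, -, hS2⟩ := zeros hf
    have hfin := IsFF.finite hf
    obtain ⟨Q₀, hQ₀⟩ : S.Nonempty := by
      rw [Finset.nonempty_iff_ne_empty]
      rintro rfl
      rw [Finset.sum_empty] at hS2
      have : 0 < finrank k⟮f⟯ L := finrank_pos
      omega
    have hQ₀' := (hS Q₀).1 hQ₀
    apply Finset.sum_pos
    · intro Q hQ
      rw [Finset.mem_filter] at hQ
      exact hQ.2
    · refine ⟨Q₀, ?_⟩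
      rw [Finset.mem_filter, Finsupp.mem_support_iff, hd]
      exact ⟨by omega, hQ₀'⟩
  have h4 : (D : k) • (A - B) = 0 := by
    rw [smul_sub, Int.cast_smul_eq_zsmul, Int.cast_smul_eq_zsmul, ← h1, neg_smul, sub_eq_add_neg]
  rcases smul_eq_zero.1 h4 with h5 | h5
  · exact absurd h5 (by exact_mod_cast hD.ne')
  · exact sub_eq_zero.1 h5

/-- the constant case: `Y` is, up to a constant, a product of linear factors of total degree zero -/
lemma final_const {K L : Type} [Field K] [Algebra k K] [IsFF k K] [Field L] [Algebra k L]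
    [IsFF k L] {ι : Type} {W : Type} [AddCommGroup W] [Module k W] {Ψ : (ι → Place k K) → W}
    (P3 : KillsF ((curve (k := k) K).pow ι) Ψ) {x : ι → Place k K} {T Y : L} {κ : k}
    {s : Place k L → (ι → Place k K)} (hT : Transcendental k T)
    (hs : s ∈ ((curve (k := k) K).pow ι).mor L) (hκ : κ ≠ 0)
    (hinf : ∀ Q : Place k L, Q.ord T < 0 → ∃ c, c ≠ 0 ∧ Vl Q Y c ∧ Ψ (s Q) = (κ * c⁻¹) • Ψ x)
    {γ : k} (hγ : γ ≠ 0) {m : k →₀ ℤ} (hm : (m.sum fun _ j => j) = 0)
    (hY : Y = algebraMap k L γ * rat T m) (v : k)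
    (hv : ∀ Q : Place k L, 0 < Q.ord (T - algebraMap k L v) → Ψ (s Q) = 0) : Ψ x = 0 := by
  have hTv : Transcendental k (T - algebraMap k L v) := by
    intro hc
    apply hT
    have := hc.add (isAlgebraic_algebraMap (R := k) (A := L) v)
    simpa using this
  have h1 := kill_two P3 hs hTv (A := 0) (B := (κ * γ⁻¹) • Ψ x) hv (by
    intro Q hQ
    have hQT : Q.ord T < 0 := by
      by_contra hc
      push Not at hc
      have h2 : Ge Q 0 T := Or.inr hc
      have h3 : Ge Q 0 (T - algebraMap k L v) := h2.sub (Ge.const v)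
      rcases h3 with h3 | h3
      · rw [h3, Q.ord_zero] at hQ; omega
      · omega
    obtain ⟨c, hc0, hc, h⟩ := hinf Q hQT
    have h2 : Vl Q Y (γ * 1) := by
      rw [hY]
      exact (vl_rat_pole hT m Q hQT hm).smul γ
    rw [mul_one] at h2
    rw [h, hc.unique h2])
  rcases smul_eq_zero.1 h1.symm with h2 | h2
  · exact absurd h2 (mul_ne_zero hκ (inv_ne_zero hγ))
  · exact h2

/-- the other case: `Y` is, up to a constant, a product of linear factors of total degree zero
times a power, prime to `e`, of an `e`-th root of `(T - v₂) / (T - v₁)` -/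
lemma final_root {K L : Type} [Field K] [Algebra k K] [IsFF k K] [Field L] [Algebra k L]
    [IsFF k L] {ι : Type} {W : Type} [AddCommGroup W] [Module k W] {Ψ : (ι → Place k K) → W}
    (P3 : KillsF ((curve (k := k) K).pow ι) Ψ) {x : ι → Place k K} {T Y : L} {κ : k}
    {s : Place k L → (ι → Place k K)} (hT : Transcendental k T)
    (hs : s ∈ ((curve (k := k) K).pow ι).mor L) (hκ : κ ≠ 0)
    (hinf : ∀ Q : Place k L, Q.ord T < 0 → ∃ c, c ≠ 0 ∧ Vl Q Y c ∧ Ψ (s Q) = (κ * c⁻¹) • Ψ x)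
    {γ : k} (hγ : γ ≠ 0) {m : k →₀ ℤ} (hm : (m.sum fun _ j => j) = 0)
    {v₁ v₂ : k} (hv : v₁ ≠ v₂) {e : ℕ} (he : 0 < e) {ν : ℤ} (hν : ¬ (e : ℤ) ∣ ν) {τ : L}
    (hτ : τ ^ e = (T - algebraMap k L v₂) * (T - algebraMap k L v₁)⁻¹)
    (hY : Y = algebraMap k L γ * rat T m * τ ^ ν) : Ψ x = 0 := by
  have hT1 := sub_ne hT v₁
  have hT2 := sub_ne hT v₂
  set w := (T - algebraMap k L v₂) * (T - algebraMap k L v₁)⁻¹ with hw
  have hw0 : w ≠ 0 := mul_ne_zero hT2 (inv_ne_zero hT1)
  have hw1 : w - 1 = algebraMap k L (v₁ - v₂) * (T - algebraMap k L v₁)⁻¹ := by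
    rw [hw, map_sub]; field_simp; ring
  have hv' : v₁ - v₂ ≠ 0 := sub_ne_zero.2 hv
  have hv'' : algebraMap k L (v₁ - v₂) ≠ 0 := (map_ne_zero (algebraMap k L)).2 hv'
  -- where `w` has the value one, `T` has a pole
  have hpole : ∀ Q : Place k L, Vl Q w 1 → Q.ord T < 0 := by
    intro Q hQ
    have h1 : Ge Q 1 (w - 1) := by
      have := hQ; unfold Vl at this; rwa [map_one] at this
    rw [hw1] at h1
    have h2 := h1.resolve_left (mul_ne_zero hv'' (inv_ne_zero hT1))
    rw [Q.ord_mul hv'' (inv_ne_zero hT1), Q.ord_const hv', Q.ord_inv] at h2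
    by_contra hc
    push Not at hc
    have h3 : Ge Q 0 T := Or.inr hc
    have h4 : Ge Q 0 (T - algebraMap k L v₁) := h3.sub (Ge.const v₁)
    have h5 := h4.resolve_left hT1
    omega
  have hτ0 : τ ≠ 0 := by
    rintro rfl
    rw [zero_pow he.ne'] at hτ
    exact hw0 hτ.symm
  obtain ⟨ζ, hζ⟩ : ∃ ζ : k, IsPrimitiveRoot ζ e :=
    have : NeZero (e : k) := ⟨by exact_mod_cast he.ne'⟩
    HasEnoughRootsOfUnity.exists_primitiveRoot k e
  have hζe : ζ ^ e = 1 := hζ.pow_eq_one
  have hζ0 : ζ ≠ 0 := hζ.ne_zero he.ne'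
  have hζν : ζ ^ ν ≠ 1 := by
    rw [Ne, hζ.zpow_eq_one_iff_dvd]; exact hν
  have hζ1 : ζ ≠ 1 := by
    rintro rfl
    rw [one_zpow] at hζν
    exact hζν rfl
  -- values of `Y`
  have hYv : ∀ (Q : Place k L) (c : k), c ^ e = 1 → Vl Q τ c →
      Q.ord T < 0 ∧ Ψ (s Q) = (κ * (γ * c ^ ν)⁻¹) • Ψ x := by
    intro Q c hc hQ
    have hc0 : c ≠ 0 := by
      rintro rfl
      rw [zero_pow he.ne'] at hc
      exact zero_ne_one hc
    have h1 : Vl Q w 1 := by
      have := hQ.pow e
      rwa [hτ, hc] at this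
    have h2 := hpole Q h1
    refine ⟨h2, ?_⟩
    obtain ⟨c', hc'0, hc', h⟩ := hinf Q h2
    have h3 : Vl Q Y (γ * 1 * c ^ ν) := by
      rw [hY]
      exact ((vl_rat_pole hT m Q h2 hm).smul γ).mul (hQ.zpow hc0 ν)
    rw [mul_one] at h3
    rw [h, hc'.unique h3]
  have hτt : Transcendental k τ := by
    intro hc
    obtain ⟨c, hc'⟩ := alg_const hc
    have h1 : w = algebraMap k L (c ^ e) := by rw [← hτ, ← hc', map_pow]
    have h2 : (T - algebraMap k L v₁)⁻¹ = algebraMap k L ((c ^ e - 1) / (v₁ - v₂)) := by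
      rw [map_div₀, map_sub, ← h1, map_one, hw1]; field_simp
    apply hT
    have h3 : T = (algebraMap k L ((c ^ e - 1) / (v₁ - v₂)))⁻¹ + algebraMap k L v₁ := by
      rw [← h2, inv_inv]; ring
    rw [h3]
    exact ((isAlgebraic_algebraMap _).inv).add (isAlgebraic_algebraMap _)
  have hsub : ∀ c : k, τ - algebraMap k L c ≠ 0 := fun c => sub_ne hτt c
  have hone : τ - 1 ≠ 0 := by have := hsub 1; rwa [map_one] at this
  let f : L := (τ - 1) / (τ - algebraMap k L ζ)
  have hf0 : f ≠ 0 := div_ne_zero hone (hsub ζ)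
  have hford : ∀ Q : Place k L, Q.ord f = Q.ord (τ - 1) - Q.ord (τ - algebraMap k L ζ) :=
    fun Q => Q.ord_div hone (hsub ζ)
  -- poles of `τ`
  have hpτ : ∀ Q : Place k L, Q.ord τ < 0 → Q.ord f = 0 := by
    intro Q hQ
    have h1 : ∀ c : k, Q.ord (τ - algebraMap k L c) = Q.ord τ := by
      intro c
      by_cases hc : c = 0
      · rw [hc, map_zero, sub_zero]
      have hc' : algebraMap k L c ≠ 0 := by simpa using hc
      rw [sub_eq_add_neg]
      exact (Q.ord_add_eq hτ0 (neg_ne_zero.2 hc') (by rw [Q.ord_neg, Q.ord_const hc]; exact hQ)).2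
    have h2 := h1 1
    rw [map_one] at h2
    rw [hford, h2, h1]; omega
  have hreg : ∀ Q : Place k L, Q.ord f ≠ 0 → ∃ c, Vl Q τ c := by
    intro Q hQ
    apply exists_vl
    right
    by_contra hc
    push Not at hc
    exact hQ (hpτ Q hc)
  have hval : ∀ (Q : Place k L) (c : k), Vl Q τ c → ∀ c' : k, c ≠ c' →
      Q.ord (τ - algebraMap k L c') = 0 := by
    intro Q c hQ c' hne
    exact ((hQ.sub (Vl.const Q c')).ne_zero (sub_ne_zero.2 hne)).2
  have hval' : ∀ (Q : Place k L) (c : k), Vl Q τ c → 0 < Q.ord (τ - algebraMap k L c) := by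
    intro Q c hQ
    have := hQ.resolve_left (hsub c)
    omega
  have hz1 : ∀ Q : Place k L, 0 < Q.ord f → Vl Q τ 1 := by
    intro Q hQ
    obtain ⟨c, hc⟩ := hreg Q (by omega)
    by_cases h1 : c = 1
    · rwa [h1] at hc
    exfalso
    have h2 := hval Q c hc 1 h1
    rw [map_one] at h2
    rw [hford, h2] at hQ
    by_cases h3 : c = ζ
    · rw [h3] at hc
      have := hval' Q ζ hc
      omega
    · rw [hval Q c hc ζ h3] at hQ
      omega
  have hz2 : ∀ Q : Place k L, Q.ord f < 0 → Vl Q τ ζ := by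
    intro Q hQ
    obtain ⟨c, hc⟩ := hreg Q (by omega)
    by_cases h1 : c = ζ
    · rwa [h1] at hc
    exfalso
    rw [hford, hval Q c hc ζ h1] at hQ
    by_cases h3 : c = 1
    · rw [h3] at hc
      have := hval' Q 1 hc
      rw [map_one] at this
      omega
    · have h2 := hval Q c hc 1 h3
      rw [map_one] at h2
      rw [h2] at hQ
      omega
  have hft : Transcendental k f := by
    intro hc
    obtain ⟨c, hc'⟩ := alg_const hc
    -- then `τ - 1 = c (τ - ζ)`
    have h1 : τ - 1 = algebraMap k L c * (τ - algebraMap k L ζ) := by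
      rw [hc']
      change τ - 1 = (τ - 1) / (τ - algebraMap k L ζ) * (τ - algebraMap k L ζ)
      rw [div_mul_cancel₀ _ (hsub ζ)]
    have h2 : τ * (1 - algebraMap k L c) = 1 - algebraMap k L (c * ζ) := by
      rw [map_mul]; linear_combination h1
    by_cases h3 : c = 1
    · rw [h3] at h2
      simp only [map_one, sub_self, mul_zero, one_mul] at h2
      apply hζ1
      have h4 : algebraMap k L ζ = algebraMap k L 1 := by
        rw [map_one]; linear_combination h2
      exact (algebraMap k L).injective h4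
    · apply hτt
      have h4 : (1 : L) - algebraMap k L c ≠ 0 := by
        intro h5
        apply h3
        apply (algebraMap k L).injective
        rw [map_one]; linear_combination -h5
      have h5 : τ = algebraMap k L ((1 - c * ζ) / (1 - c)) := by
        rw [map_div₀, map_sub, map_sub, map_one, ← h2]
        field_simp
      rw [h5]
      exact isAlgebraic_algebraMap _
  have h1 := kill_two P3 hs hft (A := (κ * (γ * 1 ^ ν)⁻¹) • Ψ x) (B := (κ * (γ * ζ ^ ν)⁻¹) • Ψ x)
    (fun Q hQ => (hYv Q 1 (one_pow _) (hz1 Q hQ)).2)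
    (fun Q hQ => (hYv Q ζ hζe (hz2 Q hQ)).2)
  rw [← sub_eq_zero, ← sub_smul] at h1
  rcases smul_eq_zero.1 h1 with h2 | h2
  · exfalso
    rw [one_zpow, mul_one, ← mul_sub, mul_eq_zero] at h2
    rcases h2 with h2 | h2
    · exact hκ h2
    · rw [sub_eq_zero, inv_inj] at h2
      apply hζν
      apply mul_left_cancel₀ hγ
      rw [mul_one, ← h2]
  · exact h2

end kill

end Pool.Agent.H25.VO
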