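import Pool.Agent.H25.VO.V5

/-!
# The vanishing theorem for one character
-/

set_option autoImplicit false
set_option linter.overlappingInstances false
set_option linter.unusedSectionVars false

namespace Pool.Agent.H25.VO

open FF IntermediateField Module Pool.Agent.W603.LV Pool.Agent.W619.PQ Pool.Agent.Q70.CH

section functions

variable {k : Type} [Field k] [CharZero k] [IsAlgClosed k] {F : Type} [Field F] [Algebra k F]
  [IsFF k F]

open Classical in
/-- the value of a function at a place (zero if it is not regular) -/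
noncomputable def vv (P : Place k F) (f : F) : k :=
  if h : Ge P 0 f then (exists_vl P h).choose else 0

lemma vv_spec {P : Place k F} {f : F} (h : Ge P 0 f) : Vl P f (vv P f) := by
  unfold vv
  rw [dif_pos h]
  exact (exists_vl P h).choose_spec

/-- the existence of functions with prescribed poles and with equalities between values -/
lemma exists_function {g : ℕ} (hg : IsGenus k F g) {ι : Type} [Fintype ι] (z : ι → Place k F)
    {E : Type} [Fintype E] (p p' : E → Place k F) (hp : ∀ e i, z i ≠ p e)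
    (hp' : ∀ e i, z i ≠ p' e) (hcard : g + Fintype.card E < Fintype.card ι) :
    ∃ h : F, Transcendental k h ∧ (∀ P : Place k F, - P.ord h ≤ cnt z P) ∧
      ∀ e, ∃ v, Vl (p e) h v ∧ Vl (p' e) h v := by
  classical
  let D : Place k F →₀ ℤ := ∑ i, Finsupp.single (z i) (1 : ℤ)
  have hDP : ∀ P, D P = cnt z P := fun P => sum_single_apply z P
  have hD : ddeg D = Fintype.card ι := by
    have h2 : ∀ s : Finset ι, ddeg (∑ i ∈ s, Finsupp.single (z i) (1 : ℤ) : Place k F →₀ ℤ) =
        s.card := by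
      intro s
      induction s using Finset.induction_on with
      | empty => simp [ddeg_zero]
      | insert a s ha ih =>
        rw [Finset.sum_insert ha, ddeg_add, ih, ddeg_single, deg_one,
          Finset.card_insert_of_notMem ha]
        push_cast; ring
    rw [← Finset.card_univ]
    exact h2 _
  have hell := riemann_ineq hg D
  rw [hD] at hell
  have hge : ∀ (P : Place k F), (∀ i, z i ≠ P) → ∀ f ∈ LL D, Ge P 0 f := by
    intro P hP f hf
    rcases mem_LL.1 hf with h | h
    · exact Or.inl h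
    · right
      have h1 := h P
      have h2 : cnt z P = 0 := by
        unfold cnt
        rw [Finset.card_eq_zero, Finset.filter_eq_empty_iff]
        intro i _; exact hP i
      rw [hDP, h2] at h1
      simpa using h1
  have hgp : ∀ e (f : LL D), Ge (p e) 0 (f : F) := fun e f => hge _ (hp e) f f.2
  have hgp' : ∀ e (f : LL D), Ge (p' e) 0 (f : F) := fun e f => hge _ (hp' e) f f.2
  let Λ : LL D →ₗ[k] (E → k) :=
    { toFun := fun f e => vv (p e) (f : F) - vv (p' e) (f : F)
      map_add' := by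
        intro f f'
        ext e
        have h1 := (vv_spec (hgp e (f + f'))).unique ((vv_spec (hgp e f)).add (vv_spec (hgp e f')))
        have h2 := (vv_spec (hgp' e (f + f'))).unique
          ((vv_spec (hgp' e f)).add (vv_spec (hgp' e f')))
        simp only [Pi.add_apply]
        rw [h1, h2]; ring
      map_smul' := by
        intro c f
        ext e
        have h0 : ((c • f : LL D) : F) = algebraMap k F c * (f : F) := by
          rw [Submodule.coe_smul, Algebra.smul_def]
        have h1 := vv_spec (hgp e (c • f))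
        have h2 := vv_spec (hgp' e (c • f))
        rw [h0] at h1 h2
        have h3 := h1.unique ((vv_spec (hgp e f)).smul c)
        have h4 := h2.unique ((vv_spec (hgp' e f)).smul c)
        simp only [Pi.smul_apply, smul_eq_mul, RingHom.id_apply]
        rw [h0, h3, h4]; ring }
  have hrk := LinearMap.finrank_range_add_finrank_ker Λ
  have hrange : finrank k (LinearMap.range Λ) ≤ Fintype.card E := by
    have := Submodule.finrank_le (LinearMap.range Λ)
    rwa [Module.finrank_fintype_fun_eq_card] at this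
  have hker : 2 ≤ finrank k (LinearMap.ker Λ) := by
    unfold ell at hell
    omega
  obtain ⟨f, hf⟩ : ∃ f : LinearMap.ker Λ, ¬ ∃ c : k, algebraMap k F c = ((f : LL D) : F) := by
    by_contra hc
    push Not at hc
    let incl : LinearMap.ker Λ →ₗ[k] F := (LL D).subtype ∘ₗ (LinearMap.ker Λ).subtype
    have hinj : Function.Injective incl := by
      intro f f' h
      exact Subtype.ext (Subtype.ext h)
    have h1 : LinearMap.range incl ≤ LinearMap.range (Algebra.linearMap k F) := by
      rintro _ ⟨f, rfl⟩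
      obtain ⟨c, hc'⟩ := hc f
      exact ⟨c, hc'⟩
    have h2 : finrank k (LinearMap.range incl) = finrank k (LinearMap.ker Λ) :=
      LinearMap.finrank_range_of_inj hinj
    have h3 : finrank k (LinearMap.range (Algebra.linearMap k F)) ≤ 1 := by
      have := LinearMap.finrank_range_le (Algebra.linearMap k F)
      rwa [Module.finrank_self] at this
    have h4 := Submodule.finrank_mono h1
    omega
  refine ⟨((f : LL D) : F), ?_, ?_, ?_⟩
  · intro hc
    exact hf (alg_const hc)
  · intro P
    rcases mem_LL.1 (f : LL D).2 with h | h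
    · exfalso
      exact hf ⟨0, by rw [map_zero, h]⟩
    · have := h P
      rw [hDP] at this
      omega
  · intro e
    have h1 := congrFun (LinearMap.mem_ker.1 f.2) e
    change vv (p e) ((f : LL D) : F) - vv (p' e) ((f : LL D) : F) = 0 at h1
    rw [sub_eq_zero] at h1
    refine ⟨_, vv_spec (hgp e f), ?_⟩
    rw [h1]
    exact vv_spec (hgp' e f)

lemma ord_pos_of_vl {P : Place k F} {h : F} (hh : Transcendental k h) {v : k} (hv : Vl P h v) :
    0 < P.ord (h - algebraMap k F v) := by
  have := hv.resolve_left (sub_ne hh v)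
  omega

lemma ord_pos_iff {P : Place k F} {h : F} (hh : Transcendental k h) {v t : k} (hv : Vl P h v) :
    0 < P.ord (h - algebraMap k F t) ↔ v = t := by
  constructor
  · intro h1
    exact hv.unique (Or.inr (by omega))
  · rintro rfl
    exact ord_pos_of_vl hh hv

/-- the degrees of the norm of `b` modulo `d` -/
lemma norm_mod {d : ℕ} {b : F} {ρ : Type} [Fintype ρ] [DecidableEq ρ] {r : ρ → Place k F}
    (hr : Function.Injective r) {q : ρ → ρ} (h1 : ∀ P, P ∉ Set.range r → (d : ℤ) ∣ P.ord b)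
    (h3 : ∀ i, (d : ℤ) ∣ ∑ j ∈ Finset.univ.filter (fun j => q j = i), (r j).ord b) {h : F}
    (hh : Transcendental k h) {H : ρ → k} (hH : ∀ j, Vl (r j) h (H j)) {j₀ : ρ}
    (hq : ∀ j, j ≠ j₀ → H (q j) = H j) {n : k →₀ ℤ}
    (hn : ∀ t, ∀ S : Finset (Place k F), (∀ P, P ∈ S ↔ 0 < P.ord (h - algebraMap k F t)) →
        n t = ∑ P ∈ S, P.ord b) (t : k) [DecidableEq k] :
    (d : ℤ) ∣ n t - (r j₀).ord b * ((if H j₀ = t then 1 else 0) - (if H (q j₀) = t then 1 else 0)) := by
  classical
  have hht : Transcendental k (h - algebraMap k F t) := by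
    intro hc
    apply hh
    have := hc.add (isAlgebraic_algebraMap (R := k) (A := F) t)
    simpa using this
  obtain ⟨S, hS, -, -⟩ := zeros hht
  have h4 := hn t S hS
  rw [← Finset.sum_filter_add_sum_filter_not S (fun P => P ∈ Set.range r)] at h4
  have h5 : (d : ℤ) ∣ ∑ P ∈ S.filter (fun P => ¬ P ∈ Set.range r), P.ord b :=
    Finset.dvd_sum fun P hP => h1 P (Finset.mem_filter.1 hP).2
  have h6 : ∑ P ∈ S.filter (fun P => P ∈ Set.range r), P.ord b =
      ∑ j, if H j = t then (r j).ord b else 0 := by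
    rw [← Finset.sum_filter]
    symm
    apply Finset.sum_bij (fun j _ => r j)
    · intro j hj
      rw [Finset.mem_filter] at hj ⊢
      exact ⟨(hS _).2 ((ord_pos_iff hh (hH j)).2 hj.2), ⟨j, rfl⟩⟩
    · intro j _ j' _ hjj
      exact hr hjj
    · intro P hP
      rw [Finset.mem_filter] at hP
      obtain ⟨hP1, j, rfl⟩ := hP
      refine ⟨j, ?_, rfl⟩
      rw [Finset.mem_filter]
      exact ⟨Finset.mem_univ _, (ord_pos_iff hh (hH j)).1 ((hS _).1 hP1)⟩
    · intro j _; rfl
  have h7 : (d : ℤ) ∣ ∑ j, if H (q j) = t then (r j).ord b else 0 := by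
    have h8 : ∑ j, (if H (q j) = t then (r j).ord b else 0) =
        ∑ i, ∑ j ∈ Finset.univ.filter (fun j => q j = i), if H i = t then (r j).ord b else 0 := by
      rw [← Finset.sum_fiberwise_of_maps_to (s := Finset.univ) (t := Finset.univ)
        (g := q) fun j _ => Finset.mem_univ _]
      apply Finset.sum_congr rfl
      intro i _
      apply Finset.sum_congr rfl
      intro j hj
      rw [(Finset.mem_filter.1 hj).2]
    rw [h8]
    apply Finset.dvd_sum
    intro i _
    split_ifs with hi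
    · exact h3 i
    · simp
  have h9 : ∑ j, (if H j = t then (r j).ord b else 0) =
      ∑ j, (if H (q j) = t then (r j).ord b else 0) +
      (r j₀).ord b * ((if H j₀ = t then 1 else 0) - (if H (q j₀) = t then 1 else 0)) := by
    rw [← Finset.add_sum_erase _ _ (Finset.mem_univ j₀),
      ← Finset.add_sum_erase (a := j₀) Finset.univ
        (fun j => if H (q j) = t then (r j).ord b else 0) (Finset.mem_univ j₀)]
    have h10 : ∑ j ∈ Finset.univ.erase j₀, (if H j = t then (r j).ord b else 0) =
        ∑ j ∈ Finset.univ.erase j₀, (if H (q j) = t then (r j).ord b else 0) := by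
      apply Finset.sum_congr rfl
      intro j hj
      rw [hq j (Finset.ne_of_mem_erase hj)]
    rw [h10]
    split_ifs <;> ring
  rw [h6, h9] at h4
  have h11 : n t - (r j₀).ord b * ((if H j₀ = t then 1 else 0) - (if H (q j₀) = t then 1 else 0)) =
      (∑ j, if H (q j) = t then (r j).ord b else 0) +
        ∑ P ∈ S.filter (fun P => ¬ P ∈ Set.range r), P.ord b := by
    rw [h4]; ring
  rw [h11]
  exact dvd_add h7 h5

end functions

section division

variable {k : Type}

lemma sm_add (n m : k →₀ ℤ) : ((n + m).sum fun _ j => j) = (n.sum fun _ j => j) +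
    (m.sum fun _ j => j) := by
  classical
  exact Finsupp.sum_add_index' (fun _ => rfl) (fun _ _ _ => rfl)

lemma sm_single (t : k) (c : ℤ) : ((Finsupp.single t c).sum fun _ j => j) = c :=
  Finsupp.sum_single_index rfl

lemma sm_nsmul (d : ℕ) (n : k →₀ ℤ) : ((d • n).sum fun _ j => j) = d * (n.sum fun _ j => j) := by
  induction d with
  | zero => simp
  | succ d ih => rw [succ_nsmul, sm_add, ih]; push_cast; ring

lemma exists_div {n : k →₀ ℤ} {d : ℕ} (hd : 0 < d) (h : ∀ t, (d : ℤ) ∣ n t)
    (hs : (n.sum fun _ m => m) = 0) :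
    ∃ m : k →₀ ℤ, n = d • m ∧ (m.sum fun _ j => j) = 0 := by
  classical
  let m : k →₀ ℤ := n.mapRange (fun j => j / d) (by simp)
  have hm : n = d • m := by
    ext t
    rw [Finsupp.smul_apply, nsmul_eq_mul]
    change n t = d * (n t / d)
    rw [Int.mul_ediv_cancel' (h t)]
  refine ⟨m, hm, ?_⟩
  rw [hm, sm_nsmul] at hs
  rcases mul_eq_zero.1 hs with h1 | h1
  · omega
  · exact h1

end division

section vanish

variable {k : Type} [Field k] [CharZero k] [IsAlgClosed k] {F K : Type} [Field F] [Algebra k F]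
  [IsFF k F] [Field K] [Algebra k K] [IsFF k K] [Algebra F K] [IsScalarTower k F K] {G : Type}
  [CommGroup G] [Fintype G] {a : G →* (K ≃ₐ[k] K)} {ι : Type} [Fintype ι] {W : Type}
  [AddCommGroup W] [Module k W] {χ : G →* kˣ} {Ψ : (ι → Place k K) → W}

/-- an eigenfunctional vanishes at the tuples with a coordinate fixed by `s`, `χ s ≠ 1` -/
lemma vanish_fixed [DecidableEq ι]
    (P2 : ∀ (u : ι → G) x, Ψ (fun i => act a (u i) (x i)) = (((χ (∏ i, u i))⁻¹ : kˣ) : k) • Ψ x)
    {x : ι → Place k K} {i : ι} {s : G} (hs : act a s (x i) = x i) (hχ : χ s ≠ 1) : Ψ x = 0 := by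
  have h1 := P2 (Pi.mulSingle i s) x
  have h2 : (fun j => act a ((Pi.mulSingle i s : ι → G) j) (x j)) = x := by
    ext1 j
    by_cases hj : j = i
    · subst hj; rw [Pi.mulSingle_eq_same, hs]
    · rw [Pi.mulSingle_eq_of_ne hj, act_one]
  have h3 : ∏ j, (Pi.mulSingle i s : ι → G) j = s := by
    rw [Finset.prod_eq_single i]
    · exact Pi.mulSingle_eq_same (M := fun _ : ι => G) i s
    · intro j _ hj; exact Pi.mulSingle_eq_of_ne (M := fun _ : ι => G) hj s
    · intro h; exact absurd (Finset.mem_univ i) h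
  rw [h2, h3] at h1
  have h4 : ((1 : k) - (((χ s)⁻¹ : kˣ) : k)) • Ψ x = 0 := by
    rw [sub_smul, one_smul, ← h1, sub_self]
  rcases smul_eq_zero.1 h4 with h5 | h5
  · exfalso
    apply hχ
    rw [sub_eq_zero] at h5
    have h6 : (1 : kˣ) = (χ s)⁻¹ := Units.ext (by simpa using h5)
    rw [← inv_inv (χ s), ← h6, inv_one]
  · exact h5

/-- the same at the tuples with a coordinate over a branch point -/
lemma vanish_branch [DecidableEq ι] (hq : IsQuot a F) {y : K} (hy : y ≠ 0)
    (hya : ∀ s, a s y = algebraMap k K (χ s : k) * y) {d : ℕ} {b : F}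
    (hb : y ^ d = algebraMap F K b)
    (P2 : ∀ (u : ι → G) x, Ψ (fun i => act a (u i) (x i)) = (((χ (∏ i, u i))⁻¹ : kˣ) : k) • Ψ x)
    {x : ι → Place k K} {i : ι} {p : Place k F} {e : ℕ} (hp : Over (x i) p e)
    (hd : ¬ (d : ℤ) ∣ p.ord b) : Ψ x = 0 := by
  by_contra hne
  apply hd
  apply dvd_of_trivial hq hy hya hb hp
  intro s hs
  by_contra hχ
  exact hne (vanish_fixed P2 hs hχ)

lemma vanish_aux [DecidableEq ι] (hq : IsQuot a F) {g : ℕ} (hg : IsGenus k F g) {y : K}
    (hy : y ≠ 0) (hya : ∀ s, a s y = algebraMap k K (χ s : k) * y) {d : ℕ} (hd : 0 < d) {b : F}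
    (hb : y ^ d = algebraMap F K b) {ρ : Type} [Fintype ρ] [DecidableEq ρ] {r : ρ → Place k F}
    (hr : Function.Injective r) {q : ρ → ρ} (h1 : ∀ P, P ∉ Set.range r → (d : ℤ) ∣ P.ord b)
    (h2 : ∀ j, ¬ (d : ℤ) ∣ (r j).ord b)
    (h3 : ∀ i, (d : ℤ) ∣ ∑ j ∈ Finset.univ.filter (fun j => q j = i), (r j).ord b) {m : ℕ}
    (hm : (Finset.univ.filter fun j => q j ≠ j).card = m + 1) (hι : g + m < Fintype.card ι)
    (P1 : ∀ (π : Equiv.Perm ι) x, Ψ (fun i => x (π i)) = Ψ x)
    (P2 : ∀ (u : ι → G) x, Ψ (fun i => act a (u i) (x i)) = (((χ (∏ i, u i))⁻¹ : kˣ) : k) • Ψ x)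
    (P3 : KillsF ((curve (k := k) K).pow ι) Ψ) {x : ι → Place k K} {z : ι → Place k F}
    (hz : ∀ i, ∃ e, Over (x i) (z i) e) (hbz : ∀ i, (z i).ord b = 0) : Ψ x = 0 := by
  classical
  have hzr : ∀ i j, z i ≠ r j := by
    intro i j hij
    apply h2 j
    rw [← hij, hbz]; simp
  obtain ⟨j₀, hj₀⟩ : ∃ j₀, j₀ ∈ Finset.univ.filter fun j => q j ≠ j := by
    apply Finset.Nonempty.exists_mem
    rw [← Finset.card_pos, hm]; omega
  -- the function `h`
  let E := {j : ρ // j ∈ (Finset.univ.filter fun j => q j ≠ j).erase j₀}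
  have hE : Fintype.card E = m := by
    rw [Fintype.card_coe, Finset.card_erase_of_mem hj₀, hm]; rfl
  obtain ⟨h, hh, hpole, hval⟩ := exists_function hg z (fun e : E => r e.1) (fun e : E => r (q e.1))
    (fun e i => hzr i _) (fun e i => hzr i _) (by rw [hE]; exact hι)
  have hreg : ∀ j, Ge (r j) 0 h := by
    intro j
    right
    have h4 := hpole (r j)
    have h5 : cnt z (r j) = 0 := by
      unfold cnt
      rw [Finset.card_eq_zero, Finset.filter_eq_empty_iff]
      intro i _; exact hzr i j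
    rw [h5] at h4
    omega
  have hH : ∀ j, Vl (r j) h (vv (r j) h) := fun j => vv_spec (hreg j)
  have hqH : ∀ j, j ≠ j₀ → vv (r (q j)) h = vv (r j) h := by
    intro j hj
    by_cases hqj : q j = j
    · rw [hqj]
    · obtain ⟨v, hv1, hv2⟩ := hval ⟨j, by
        rw [Finset.mem_erase, Finset.mem_filter]
        exact ⟨hj, Finset.mem_univ _, hqj⟩⟩
      rw [(hH j).unique hv1, (hH (q j)).unique hv2]
  obtain ⟨L, _, _, _, T, Y, κ, s, β, n, hT, hs, hκ, hinf, hfib, hβ, hYn, hn, hn0⟩ :=
    test_curve hq x z hz h hh hpole hy hya hd hb hbz Ψ P1 P2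
  have hmod := norm_mod hr h1 h3 hh hH hqH hn
  have hβ' : algebraMap k L β ≠ 0 := by simpa using hβ
  by_cases hv : vv (r (q j₀)) h = vv (r j₀) h
  · -- the constant case
    obtain ⟨μ, hμ, hμ0⟩ := exists_div hd (fun t => by
      have h4 := hmod t
      rw [hv, sub_self, mul_zero, sub_zero] at h4
      exact h4) hn0
    have hrat := rat_ne hT μ
    have h5 : (Y / rat T μ) ^ d = algebraMap k L β := by
      rw [div_pow, hYn, hμ, rat_nsmul hT]
      field_simp
    obtain ⟨γ, hγ⟩ := const_of_pow hd h5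
    have hγ0 : γ ≠ 0 := by
      rintro rfl
      rw [← hγ, map_zero, zero_pow hd.ne'] at h5
      exact hβ' h5.symm
    refine final_const P3 hT hs hκ hinf hγ0 hμ0 (Y := Y) ?_ (vv (r j₀) h) ?_
    · rw [hγ]; field_simp
    · intro Q hQ
      obtain ⟨i, e, hie⟩ := hfib Q _ hQ (r j₀) (ord_pos_of_vl hh (hH j₀))
      exact vanish_branch hq hy hya hb P2 hie (h2 j₀)
  · -- the other case
    set v₂ := vv (r j₀) h with hv₂
    set v₁ := vv (r (q j₀)) h with hv₁
    set c := (r j₀).ord b with hc
    have hT1 := sub_ne hT v₁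
    have hT2 := sub_ne hT v₂
    have hdiv : ∀ t, (d : ℤ) ∣ (n + (Finsupp.single v₂ (-c) + Finsupp.single v₁ c)) t := by
      intro t
      have h4 := hmod t
      rw [Finsupp.add_apply, Finsupp.add_apply, Finsupp.single_apply, Finsupp.single_apply]
      have h5 : n t + ((if v₂ = t then -c else 0) + (if v₁ = t then c else 0)) =
          n t - c * ((if v₂ = t then 1 else 0) - (if v₁ = t then 1 else 0)) := by
        split_ifs <;> ring
      rw [h5]; exact h4
    obtain ⟨μ, hμ, hμ0⟩ := exists_div hd hdiv (by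
      rw [sm_add, sm_add, sm_single, sm_single, hn0]; ring)
    have hrat := rat_ne hT μ
    set w := (T - algebraMap k L v₂) * (T - algebraMap k L v₁)⁻¹ with hw
    have hw0 : w ≠ 0 := mul_ne_zero hT2 (inv_ne_zero hT1)
    have h5 : rat T n = rat T μ ^ d * w ^ c := by
      have h6 : rat T n * (rat T (Finsupp.single v₂ (-c)) * rat T (Finsupp.single v₁ c)) =
          rat T μ ^ d := by
        rw [← rat_add hT, ← rat_add hT, hμ, rat_nsmul hT]
      rw [rat_single, rat_single] at h6
      rw [← h6, hw, mul_zpow, inv_zpow, zpow_neg]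
      have h7 : (T - algebraMap k L v₂) ^ c ≠ 0 := zpow_ne_zero _ hT2
      have h8 : (T - algebraMap k L v₁) ^ c ≠ 0 := zpow_ne_zero _ hT1
      field_simp
    have h6 : (Y / rat T μ) ^ d = algebraMap k L β * w ^ c := by
      rw [div_pow, hYn, h5]
      field_simp
    obtain ⟨e, τ, γ, ν, he, hν, hγ, hτ, hV⟩ := exists_root hw0 hβ hd (h2 j₀) h6
    refine final_root P3 hT hs hκ hinf hγ hμ0 hv he hν (v₂ := v₂) (v₁ := v₁) hτ ?_
    have h7 : Y = (Y / rat T μ) * rat T μ := by field_simp
    rw [h7, hV]; ring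

/-- **The vanishing theorem**, ramified characters. -/
theorem vanish_ramified [DecidableEq ι] (hq : IsQuot a F) {g : ℕ} (hg : IsGenus k F g) {y : K}
    (hy : y ≠ 0) (hya : ∀ s, a s y = algebraMap k K (χ s : k) * y) {d : ℕ} (hd : 0 < d) {b : F}
    (hb : y ^ d = algebraMap F K b) {ρ : Type} [Fintype ρ] [DecidableEq ρ] {r : ρ → Place k F}
    (hr : Function.Injective r) {q : ρ → ρ} (h1 : ∀ P, P ∉ Set.range r → (d : ℤ) ∣ P.ord b)
    (h2 : ∀ j, ¬ (d : ℤ) ∣ (r j).ord b)
    (h3 : ∀ i, (d : ℤ) ∣ ∑ j ∈ Finset.univ.filter (fun j => q j = i), (r j).ord b) {m : ℕ}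
    (hm : (Finset.univ.filter fun j => q j ≠ j).card = m + 1) (hι : g + m < Fintype.card ι)
    (P1 : ∀ (π : Equiv.Perm ι) x, Ψ (fun i => x (π i)) = Ψ x)
    (P2 : ∀ (u : ι → G) x, Ψ (fun i => act a (u i) (x i)) = (((χ (∏ i, u i))⁻¹ : kˣ) : k) • Ψ x)
    (P3 : KillsF ((curve (k := k) K).pow ι) Ψ) (x : ι → Place k K) : Ψ x = 0 := by
  classical
  have hz : ∀ i, ∃ z : Place k F, ∃ e, Over (x i) z e := by
    intro i
    obtain ⟨p, e, he, h⟩ := exists_below (IsScalarTower.toAlgHom k F K) (x i)
    exact ⟨p, e, he, h⟩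
  choose z hz using hz
  by_cases hbr : ∃ i j, z i = r j
  · obtain ⟨i, j, hij⟩ := hbr
    obtain ⟨e, he⟩ := hz i
    rw [hij] at he
    exact vanish_branch hq hy hya hb P2 he (h2 j)
  push Not at hbr
  obtain ⟨f, hf0, hf⟩ := exists_orders (Finset.univ.image z) (fun P => -(P.ord b / d))
  have hb0 : b ≠ 0 := by
    rintro rfl
    rw [map_zero] at hb
    exact hy ((pow_eq_zero_iff hd.ne').1 hb)
  have hfK : algebraMap F K f ≠ 0 := by simpa using hf0
  have hord : ∀ P : Place k F, P.ord (b * f ^ d) = P.ord b + d * P.ord f := by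
    intro P
    rw [P.ord_mul hb0 (pow_ne_zero _ hf0), P.ord_pow]
  refine vanish_aux hq hg (y := y * algebraMap F K f) (b := b * f ^ d) (mul_ne_zero hy hfK) ?_ hd ?_
    hr (q := q) ?_ ?_ ?_ hm hι P1 P2 P3 hz ?_
  · intro s
    rw [map_mul, hya, hq.1]; ring
  · rw [mul_pow, hb, map_mul, map_pow]
  · intro P hP
    rw [hord]
    exact dvd_add (h1 P hP) (dvd_mul_right _ _)
  · intro j hj
    rw [hord] at hj
    exact h2 j ((dvd_add_left (dvd_mul_right _ _)).1 hj)
  · intro i
    simp only [hord]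
    rw [Finset.sum_add_distrib]
    refine dvd_add (h3 i) (Finset.dvd_sum fun j _ => dvd_mul_right _ _)
  · intro i
    rw [hord, hf (z i) (Finset.mem_image_of_mem _ (Finset.mem_univ i))]
    have h4 : (d : ℤ) ∣ (z i).ord b := h1 _ (by
      rintro ⟨j, hj⟩
      exact hbr i j hj.symm)
    have := Int.mul_ediv_cancel' h4
    linarith

/-- **The vanishing theorem**, trivial character. -/
theorem vanish_trivial [DecidableEq ι] (hq : IsQuot a F) {g : ℕ} (hg : IsGenus k F g)
    (hι : g < Fintype.card ι)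
    (P1 : ∀ (π : Equiv.Perm ι) x, Ψ (fun i => x (π i)) = Ψ x)
    (P2 : ∀ (u : ι → G) x, Ψ (fun i => act a (u i) (x i)) = Ψ x)
    (P3 : KillsF ((curve (k := k) K).pow ι) Ψ) {o : Place k F}
    (P4 : ∀ x i e, Over (x i) o e → Ψ x = 0) (x : ι → Place k K) : Ψ x = 0 := by
  classical
  have hz : ∀ i, ∃ z : Place k F, ∃ e, Over (x i) z e := by
    intro i
    obtain ⟨p, e, he, h⟩ := exists_below (IsScalarTower.toAlgHom k F K) (x i)
    exact ⟨p, e, he, h⟩
  choose z hz using hz
  by_cases hbr : ∃ i, z i = o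
  · obtain ⟨i, hi⟩ := hbr
    obtain ⟨e, he⟩ := hz i
    rw [hi] at he
    exact P4 x i e he
  push Not at hbr
  obtain ⟨h, hh, hpole, -⟩ := exists_function hg z (E := Empty) (fun e => o) (fun e => o)
    (fun e i => hbr i) (fun e i => hbr i) (by simpa using hι)
  have hreg : Ge o 0 h := by
    right
    have h4 := hpole o
    have h5 : cnt z o = 0 := by
      unfold cnt
      rw [Finset.card_eq_zero, Finset.filter_eq_empty_iff]
      intro i _; exact hbr i
    rw [h5] at h4
    omega
  have hH := vv_spec hreg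
  obtain ⟨L, _, _, _, T, Y, κ, s, β, n, hT, hs, hκ, hinf, hfib, hβ, hYn, hn, hn0⟩ :=
    test_curve hq x z hz h hh hpole (χ := 1) (y := 1) one_ne_zero (by simp) (d := 1) one_pos
      (b := 1) (by simp) (fun i => (z i).ord_one) Ψ P1 (fun u x => by
        rw [P2]; simp)
  refine final_const P3 hT hs hκ hinf hβ hn0 (by rw [← hYn, pow_one]) (vv o h) ?_
  intro Q hQ
  obtain ⟨i, e, hie⟩ := hfib Q _ hQ o (ord_pos_of_vl hh hH)
  exact P4 _ i e hie

end vanish

end Pool.Agent.H25.VO
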