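import Pool.Agent.H25.VO.V6

/-!
# Combinatorics: permutations of a block
-/

set_option autoImplicit false
set_option linter.overlappingInstances false
set_option linter.unusedSectionVars false

namespace Pool.Agent.H25.VO

open FF Pool.Agent.Q70.CH Equiv

section perms

/-- sums over the permutations supported on `P` -/
lemma sum_permsOn {n : ℕ} {W : Type*} [AddCommMonoid W] (P : Finset (Fin n))
    (f : Perm (Fin n) → W) : ∑ π ∈ permsOn P, f π = ∑ ρ : Perm P, f (Perm.ofSubtype ρ) := by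
  classical
  symm
  refine Finset.sum_bij (fun (ρ : Perm P) _ => Perm.ofSubtype ρ) ?_ ?_ ?_ ?_
  · intro ρ _
    rw [mem_permsOn]
    intro i hi
    exact Perm.ofSubtype_apply_of_not_mem ρ hi
  · intro ρ _ ρ' _ h
    exact Perm.ofSubtype_injective h
  · intro π hπ
    rw [mem_permsOn] at hπ
    have h1 : ∀ i, i ∈ P ↔ π i ∈ P := by
      intro i
      constructor
      · intro hi
        exact permsOn_map (mem_permsOn.2 hπ) hi
      · intro hi
        by_contra hc
        rw [hπ i hc] at hi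
        exact hc hi
    refine ⟨Perm.subtypePerm π (fun i => (h1 i).symm), Finset.mem_univ _, ?_⟩
    ext i
    by_cases hi : i ∈ P
    · rw [Perm.ofSubtype_apply_of_mem _ hi]; rfl
    · rw [Perm.ofSubtype_apply_of_not_mem _ hi, hπ i hi]
  · intro ρ _
    rfl

/-- the two-variable vanishing lemma for a finite set of indices -/
theorem two_var_fin {ι : Type} [Fintype ι] [DecidableEq ι] {W : Type*} [AddCommGroup W]
    [Module ℚ W] (g₁ g₂ : ℕ) (hn : g₁ * g₂ < Fintype.card ι) (F : Perm ι → Perm ι → W)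
    (h1 : ∀ σ τ (P : Finset ι), P.card = g₁ + 1 → ∑ ρ : Perm P, F (σ * Perm.ofSubtype ρ) τ = 0)
    (h2 : ∀ σ τ (P : Finset ι), P.card = g₂ + 1 → ∑ ρ : Perm P, F σ (τ * Perm.ofSubtype ρ) = 0) :
    ∑ σ : Perm ι, ((Perm.sign σ : ℤ) : ℚ) • F σ σ = 0 := by
  classical
  let e : Fin (Fintype.card ι) ≃ ι := (Fintype.equivFin ι).symm
  let c : Perm (Fin (Fintype.card ι)) → Perm ι := fun σ => e.permCongr σ
  have hc : ∀ σ τ, c (σ * τ) = c σ * c τ := by
    intro σ τ
    ext i
    simp [c, Equiv.permCongr_apply]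
  have hsub : ∀ (P : Finset (Fin (Fintype.card ι))) (f : Perm ι → W),
      ∑ ρ : Perm P, f (c (Perm.ofSubtype ρ)) =
        ∑ ρ : Perm (P.map e.toEmbedding), f (Perm.ofSubtype ρ) := by
    intro P f
    let e' : P ≃ (P.map e.toEmbedding) :=
      e.subtypeEquiv (fun i => by simp [Finset.mem_map])
    refine Fintype.sum_equiv (e'.permCongr) _ _ fun ρ => ?_
    congr 1
    ext i
    by_cases hi : i ∈ P.map e.toEmbedding
    · rw [Perm.ofSubtype_apply_of_mem _ hi]
      obtain ⟨j, hj, rfl⟩ := Finset.mem_map.1 hi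
      simp only [c, Equiv.permCongr_apply]
      change e (Perm.ofSubtype ρ (e.symm (e j))) = _
      rw [Equiv.symm_apply_apply, Perm.ofSubtype_apply_of_mem _ hj]
      have h3 : e'.symm ⟨e.toEmbedding j, hi⟩ = ⟨j, hj⟩ := by
        rw [Equiv.symm_apply_eq]; rfl
      rw [h3]; rfl
    · rw [Perm.ofSubtype_apply_of_not_mem _ hi]
      simp only [c, Equiv.permCongr_apply]
      have h3 : e.symm i ∉ P := by
        intro h4
        apply hi
        rw [Finset.mem_map]
        exact ⟨e.symm i, h4, by simp⟩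
      rw [Perm.ofSubtype_apply_of_not_mem _ h3, Equiv.apply_symm_apply]
  have key := two_var' g₁ g₂ hn (fun σ τ => F (c σ) (c τ))
    (by
      intro σ τ P hP
      rw [sum_permsOn]
      simp only [hc]
      rw [hsub P (fun π => F (c σ * π) (c τ))]
      exact h1 _ _ _ (by rw [Finset.card_map, hP]))
    (by
      intro σ τ P hP
      rw [sum_permsOn]
      simp only [hc]
      rw [hsub P (fun π => F (c σ) (c τ * π))]
      exact h2 _ _ _ (by rw [Finset.card_map, hP]))
  rw [← key]
  symm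
  refine Fintype.sum_equiv (e.permCongr) _ _ fun σ => ?_
  rw [Perm.sign_permCongr]

/-- averaging over the permutations of a block -/
lemma antisym_block {ι : Type} [Fintype ι] [DecidableEq ι] {W : Type*} [AddCommGroup W]
    [Module ℚ W] {α : Type*} (Θ : (ι → α) → W) (P : Finset ι)
    (h : ∀ w : ι → α, ∑ ρ : Perm P, ((Perm.sign ρ : ℤ) : ℚ) •
      Θ (fun i => w (Perm.ofSubtype ρ i)) = 0) (v : ι → α) :
    ∑ σ : Perm ι, ((Perm.sign σ : ℤ) : ℚ) • Θ (fun i => v (σ i)) = 0 := by
  classical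
  set A := ∑ σ : Perm ι, ((Perm.sign σ : ℤ) : ℚ) • Θ (fun i => v (σ i)) with hA
  have h1 : ∀ ρ : Perm P, ∑ σ : Perm ι, ((Perm.sign σ : ℤ) : ℚ) • (((Perm.sign ρ : ℤ) : ℚ) •
      Θ (fun i => v (σ (Perm.ofSubtype ρ i)))) = A := by
    intro ρ
    rw [hA]
    refine Fintype.sum_equiv (Equiv.mulRight (Perm.ofSubtype ρ)) _ _ fun σ => ?_
    rw [Equiv.coe_mulRight, smul_smul, Perm.sign_mul, Perm.sign_ofSubtype]
    push_cast
    rfl
  have h2 : (Fintype.card (Perm P) : ℚ) • A = 0 := by
    have h3 : ∑ _ρ : Perm P, A = (Fintype.card (Perm P) : ℚ) • A := by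
      rw [Finset.sum_const, Finset.card_univ, Nat.cast_smul_eq_nsmul]
    rw [← h3]
    rw [Finset.sum_congr rfl fun ρ _ => (h1 ρ).symm, Finset.sum_comm]
    apply Finset.sum_eq_zero
    intro σ _
    rw [← Finset.smul_sum]
    have := h (fun i => v (σ i))
    rw [this, smul_zero]
  rcases smul_eq_zero.1 h2 with h3 | h3
  · exact absurd h3 (by exact_mod_cast Fintype.card_ne_zero)
  · exact h3

end perms

end Pool.Agent.H25.VO
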