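import Pool.Agent.H25.VO.V7

/-!
# Characters, and functionals on the points of a power of a product of two curves
-/

set_option autoImplicit false
set_option linter.overlappingInstances false
set_option linter.unusedSectionVars false

namespace Pool.Agent.H25.VO

open FF Pool.Agent.Q70.CH

section characters

variable {k : Type} [Field k] [CharZero k] [IsAlgClosed k] {G : Type} [CommGroup G] [Finite G]

lemma neZero_exponent : NeZero ((Monoid.exponent G : ℕ) : k) :=
  ⟨by
    have : Monoid.exponent G ≠ 0 := Monoid.exponent_ne_zero_of_finite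
    exact_mod_cast this⟩

lemma finite_dual : Finite (G →* kˣ) := by
  have : NeZero ((Monoid.exponent G : ℕ) : k) := neZero_exponent
  obtain ⟨e⟩ := CommGroup.monoidHom_mulEquiv_of_hasEnoughRootsOfUnity G k
  exact Finite.of_equiv G e.symm.toEquiv

lemma char_sum [Fintype (G →* kˣ)] {g : G} (hg : g ≠ 1) : ∑ χ : G →* kˣ, ((χ g : kˣ) : k) = 0 := by
  have : NeZero ((Monoid.exponent G : ℕ) : k) := neZero_exponent
  obtain ⟨χ₀, hχ₀⟩ := CommGroup.exists_apply_ne_one_of_hasEnoughRootsOfUnity G k hg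
  have h1 : ∑ χ : G →* kˣ, ((χ g : kˣ) : k) = ((χ₀ g : kˣ) : k) * ∑ χ : G →* kˣ, ((χ g : kˣ) : k) := by
    rw [Finset.mul_sum]
    symm
    refine Fintype.sum_equiv (Equiv.mulLeft χ₀) _ _ fun χ => ?_
    rw [Equiv.coe_mulLeft, MonoidHom.mul_apply, Units.val_mul]
  have h2 : (1 - ((χ₀ g : kˣ) : k)) * ∑ χ : G →* kˣ, ((χ g : kˣ) : k) = 0 := by
    rw [sub_mul, one_mul, ← h1, sub_self]
  rcases mul_eq_zero.1 h2 with h3 | h3
  · exfalso
    apply hχ₀
    rw [sub_eq_zero] at h3
    exact Units.ext (by simpa using h3.symm)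
  · exact h3

end characters

section kills

variable {k : Type} [Field k] [CharZero k] {X Y : Sp k} {W : Type} [AddCommGroup W]

lemma KillsF.comp {Φ : Y.pts → W} (h : KillsF Y Φ) {F : X.pts → Y.pts} (hF : IsMap X Y F) :
    KillsF X (fun x => Φ (F x)) :=
  fun B _ _ _ s hs t ht => h B (fun Q => F (s Q)) (hF B s hs) t ht

lemma KillsF.zero : KillsF X (fun _ => (0 : W)) := by
  intro B _ _ _ s _ t _
  simp

lemma KillsF.add {Φ Ψ : X.pts → W} (h : KillsF X Φ) (h' : KillsF X Ψ) :
    KillsF X (fun x => Φ x + Ψ x) := by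
  intro B _ _ _ s hs t ht
  have h1 := h B s hs t ht
  have h2 := h' B s hs t ht
  unfold Finsupp.sum at h1 h2 ⊢
  simp only [smul_add]
  rw [Finset.sum_add_distrib, h1, h2, add_zero]

lemma KillsF.sum {α : Type} (S : Finset α) {Φ : α → X.pts → W} (h : ∀ i ∈ S, KillsF X (Φ i)) :
    KillsF X (fun x => ∑ i ∈ S, Φ i x) := by
  classical
  induction S using Finset.induction_on with
  | empty => simpa using KillsF.zero (X := X) (W := W)
  | insert a S ha ih =>
    have h1 := (h a (Finset.mem_insert_self _ _)).add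
      (ih fun i hi => h i (Finset.mem_insert_of_mem hi))
    simp only [Finset.sum_insert ha]
    exact h1

lemma KillsF.smul {R : Type} [Ring R] [Module R W] (c : R) {Φ : X.pts → W} (h : KillsF X Φ) :
    KillsF X (fun x => c • Φ x) := by
  intro B _ _ _ s hs t ht
  have h1 := h B s hs t ht
  unfold Finsupp.sum at h1 ⊢
  have h2 : ∀ (n : ℤ) (w : W), n • c • w = c • n • w := fun n w => smul_comm n c w
  simp only [h2]
  rw [← Finset.smul_sum, h1, smul_zero]

lemma KillsF.sub {Φ Ψ : X.pts → W} (h : KillsF X Φ) (h' : KillsF X Ψ) :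
    KillsF X (fun x => Φ x - Ψ x) := by
  have h1 := h.add (h'.smul (-1 : ℤ))
  simp only [neg_smul, one_smul, ← sub_eq_add_neg] at h1
  exact h1

lemma KillsF.ev [Module ℚ W] {Φ : X.pts → W} (h : KillsF X Φ) {z : X.pts →₀ ℚ}
    (hz : z ∈ ratTriv X) : Finsupp.linearCombination ℚ Φ z = 0 := by
  have h1 : ratTriv X ≤ LinearMap.ker (Finsupp.linearCombination ℚ Φ) := by
    unfold ratTriv
    rw [Submodule.span_le]
    rintro _ ⟨B, _, _, _, s, hs, t, ht, rfl⟩
    rw [SetLike.mem_coe, LinearMap.mem_ker, Finsupp.linearCombination_mapDomain,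
      Finsupp.linearCombination_apply]
    rw [← h B s hs t ht]
    unfold qdiv
    rw [Finsupp.sum_mapRange_index (by simp)]
    apply Finsupp.sum_congr
    intro Q _
    rw [Int.cast_smul_eq_zsmul]; rfl
  exact h1 hz

lemma killsF_mkQ : KillsF X (fun x => (ratTriv X).mkQ (Finsupp.single x 1)) := by
  intro B _ _ _ s hs t ht
  have h1 : (qdiv (k := k) t).mapDomain s ∈ ratTriv X :=
    Submodule.subset_span ⟨B, _, _, inferInstance, s, hs, t, ht, rfl⟩
  rw [← Submodule.ker_mkQ (ratTriv X), LinearMap.mem_ker] at h1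
  rw [← h1]
  unfold Finsupp.mapDomain qdiv
  rw [Finsupp.sum_mapRange_index (by simp), Finsupp.sum, Finsupp.sum, map_sum]
  apply Finset.sum_congr rfl
  intro Q _
  rw [← map_zsmul, Finsupp.smul_single]
  congr 2
  simp

end kills

section mor

variable {k : Type} [Field k] [CharZero k] {K : Type} [Field K] [Algebra k K] {G : Type}
  [CommGroup G] {a : G →* (K ≃ₐ[k] K)}

lemma act_mor (u : G) {B : Type} [Field B] [Algebra k B] {s : Place k B → Place k K}
    (hs : s ∈ (curve (k := k) K).mor B) : (fun Q => act a u (s Q)) ∈ (curve (k := k) K).mor B := by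
  rcases hs with ⟨P, hP⟩ | ⟨φ, hφ⟩
  · left
    exact ⟨act a u P, fun Q => congrArg (act a u) (hP Q)⟩
  · right
    refine ⟨φ.comp (a u : K →ₐ[k] K), fun Q => ?_⟩
    obtain ⟨e, he, h⟩ := hφ Q
    exact ⟨e, he, fun f => h (a u f)⟩

end mor

section normal

/-- normalization of a functional with respect to commuting families of projections -/
theorem exists_normal {V W S G : Type} [AddCommGroup W] [Module ℚ W] [Finite S] [Fintype G]
    [Nonempty G] (f : S → G → V → V) (h1 : ∀ σ s t v, f σ s (f σ t v) = f σ s v)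
    (h2 : ∀ σ τ s t v, σ ≠ τ → f σ s (f τ t v) = f τ t (f σ s v)) (Pr : (V → W) → Prop)
    (hPr : ∀ Φ σ, Pr Φ → Pr (fun v => Φ v - ((Fintype.card G : ℚ)⁻¹) • ∑ s, Φ (f σ s v)))
    (Φ : V → W) (hΦ : Pr Φ) : ∃ Φ' : V → W, Pr Φ' ∧ ∀ σ v, ∑ s, Φ' (f σ s v) = 0 := by
  classical
  have := Fintype.ofFinite S
  have hG : (Fintype.card G : ℚ) ≠ 0 := by exact_mod_cast Fintype.card_ne_zero
  suffices h : ∀ T : Finset S, ∃ Φ' : V → W, Pr Φ' ∧ ∀ σ ∈ T, ∀ v, ∑ s, Φ' (f σ s v) = 0 by
    obtain ⟨Φ', h3, h4⟩ := h Finset.univ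
    exact ⟨Φ', h3, fun σ v => h4 σ (Finset.mem_univ σ) v⟩
  intro T
  induction T using Finset.induction_on with
  | empty => exact ⟨Φ, hΦ, by simp⟩
  | insert τ T hτ ih =>
    obtain ⟨Φ', h3, h4⟩ := ih
    refine ⟨_, hPr Φ' τ h3, ?_⟩
    intro σ hσ v
    rw [Finset.sum_sub_distrib, ← Finset.smul_sum]
    by_cases hστ : σ = τ
    · subst hστ
      simp only [h1]
      rw [Finset.sum_const, Finset.card_univ, ← Nat.cast_smul_eq_nsmul ℚ, smul_smul,
        inv_mul_cancel₀ hG, one_smul, sub_self]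
    · have hσ' : σ ∈ T := (Finset.mem_insert.1 hσ).resolve_left hστ
      rw [h4 σ hσ' v, zero_sub, neg_eq_zero, Finset.sum_comm]
      rw [Finset.sum_eq_zero, smul_zero]
      intro t _
      have h5 : ∀ s, Φ' (f τ t (f σ s v)) = Φ' (f σ s (f τ t v)) := fun s => by
        rw [h2 σ τ s t v hστ]
      simp only [h5]
      exact h4 σ hσ' _

end normal

end Pool.Agent.H25.VO
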