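import Pool.Agent.H25.VO.V8

/-!
# The decomposition into characters and the antisymmetrization
-/

set_option autoImplicit false
set_option linter.overlappingInstances false
set_option linter.unusedSectionVars false

namespace Pool.Agent.H25.VO

open FF Pool.Agent.Q70.CH Equiv

section cross

variable {X Y : Type} {n : ℕ}

lemma cross_map (a : Fin n → X →₀ ℚ) (g : Fin n → X → Y) :
    (cross a).mapDomain (fun v i => g i (v i)) = cross (fun i => (a i).mapDomain (g i)) := by
  classical
  ext w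
  rw [cross_apply]
  have h1 : ∀ i, (a i).mapDomain (g i) (w i) =
      ∑ p ∈ (a i).support, if g i p = w i then a i p else 0 := by
    intro i
    unfold Finsupp.mapDomain Finsupp.sum
    rw [Finsupp.finsetSum_apply]
    apply Finset.sum_congr rfl
    intro p _
    rw [Finsupp.single_apply]
  simp only [h1]
  rw [Finset.prod_univ_sum]
  unfold cross
  rw [Finsupp.mapDomain_finsetSum, Finsupp.finsetSum_apply]
  refine Finset.sum_congr (by congr!) ?_
  intro v _
  rw [Finsupp.mapDomain_single, Finsupp.single_apply]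
  by_cases h : ∀ i, g i (v i) = w i
  · rw [if_pos (by ext i; exact h i)]
    apply Finset.prod_congr rfl
    intro i _
    rw [if_pos (h i)]
  · push Not at h
    obtain ⟨i, hi⟩ := h
    rw [if_neg (fun hc => hi (congrFun hc i)), Finset.prod_eq_zero (Finset.mem_univ i)]
    exact if_neg hi

end cross

section van

variable {k : Type} [Field k] [CharZero k] {F K : Type} [Field F] [Algebra k F]
  [Field K] [Algebra k K] [Algebra F K] [IsScalarTower k F K] {G : Type}
  [CommGroup G]

/-- every symmetric functional on `c + 1` points of the curve which transforms by the character `χ`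
vanishes (for `χ = 1`: if it vanishes at the tuples with a point over `o`) -/
def Van (a : G →* (K ≃ₐ[k] K)) (χ : G →* kˣ) (c : ℕ) (o : Place k F) : Prop :=
  ∀ (ι : Type) [Fintype ι] [DecidableEq ι] (W : Type) [AddCommGroup W] [Module k W]
    (Ψ : (ι → Place k K) → W), c < Fintype.card ι →
    (∀ (π : Perm ι) x, Ψ (fun i => x (π i)) = Ψ x) →
    (∀ (u : ι → G) x, Ψ (fun i => act a (u i) (x i)) = (((χ (∏ i, u i))⁻¹ : kˣ) : k) • Ψ x) →
    KillsF ((curve (k := k) K).pow ι) Ψ →
    (χ = 1 → ∀ x i e, Over (x i) o e → Ψ x = 0) → ∀ x, Ψ x = 0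

/-- symmetrization in some coordinates -/
lemma one_var {a : G →* (K ≃ₐ[k] K)} {χ : G →* kˣ} {c : ℕ} {o : Place k F} (V : Van a χ c o)
    {Z : Sp k} {W : Type} [AddCommGroup W] [Module k W] {Θ : Z.pts → W} (hΘ : KillsF Z Θ)
    {ι : Type} [Fintype ι] [DecidableEq ι] (hι : c < Fintype.card ι)
    (ins : (ι → Place k K) → Z.pts) (hins : IsMap ((curve (k := k) K).pow ι) Z ins)
    (h2 : ∀ (u : ι → G) x, Θ (ins fun i => act a (u i) (x i)) =
      (((χ (∏ i, u i))⁻¹ : kˣ) : k) • Θ (ins x))
    (h4 : χ = 1 → ∀ x i e, Over (x i) o e → Θ (ins x) = 0) (x : ι → Place k K) :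
    ∑ ρ : Perm ι, Θ (ins fun i => x (ρ i)) = 0 := by
  refine V ι W (fun x => ∑ ρ : Perm ι, Θ (ins fun i => x (ρ i))) hι ?_ ?_ ?_ ?_ x
  · intro π x
    exact Fintype.sum_equiv (Equiv.mulLeft π) _ _ fun ρ => rfl
  · intro u x
    rw [Finset.smul_sum]
    apply Finset.sum_congr rfl
    intro ρ _
    rw [h2 (fun i => u (ρ i)) (fun i => x (ρ i)), Equiv.prod_comp ρ u]
  · apply KillsF.sum
    intro ρ _
    exact (hΘ.comp hins).comp (isMap_reindex (curve K) ρ)
  · intro hχ x i e hi
    apply Finset.sum_eq_zero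
    intro ρ _
    exact h4 hχ _ (ρ.symm i) e (by rw [Equiv.apply_symm_apply]; exact hi)

end van

section main

variable {k : Type} [Field k] [CharZero k] {F₁ F₂ K₁ K₂ : Type} [Field F₁] [Algebra k F₁]
  [Field F₂] [Algebra k F₂] [Field K₁] [Algebra k K₁] [Field K₂] [Algebra k K₂] [Algebra F₁ K₁]
  [IsScalarTower k F₁ K₁] [Algebra F₂ K₂] [IsScalarTower k F₂ K₂] {G : Type} [CommGroup G]
  {n : ℕ} {W : Type} [AddCommGroup W] [Module k W]

/-- the power of the product of the two curves -/
abbrev PP (k : Type) [Field k] (K₁ K₂ : Type) [Field K₁] [Field K₂] [Algebra k K₁] [Algebra k K₂]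
    (n : ℕ) : Sp k := ((curve (k := k) K₁).prod (curve (k := k) K₂)).pow (Fin n)

/-- translation by the group in every coordinate -/
noncomputable def tw (a₁ : G →* (K₁ ≃ₐ[k] K₁)) (a₂ : G →* (K₂ ≃ₐ[k] K₂)) (s t : Fin n → G)
    (v : Fin n → Place k K₁ × Place k K₂) : Fin n → Place k K₁ × Place k K₂ :=
  fun i => (act a₁ (s i) (v i).1, act a₂ (t i) (v i).2)

variable {a₁ : G →* (K₁ ≃ₐ[k] K₁)} {a₂ : G →* (K₂ ≃ₐ[k] K₂)}

lemma tw_tw (s t s' t' : Fin n → G) (v : Fin n → Place k K₁ × Place k K₂) :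
    tw a₁ a₂ s t (tw a₁ a₂ s' t' v) = tw a₁ a₂ (s * s') (t * t') v := by
  ext1 i
  simp only [tw, Pi.mul_apply, act_mul]

lemma tw_isMap (s t : Fin n → G) : IsMap (PP k K₁ K₂ n) (PP k K₁ K₂ n) (tw a₁ a₂ s t) :=
  fun _ _ _ _ _ hs i => ⟨act_mor (s i) (hs i).1, act_mor (t i) (hs i).2⟩

open Classical in
/-- insertion of coordinates in the block `P` -/
noncomputable def insB (P : Finset (Fin n)) (w : Fin n → Place k K₁ × Place k K₂)
    (x : P → Place k K₁) (y : P → Place k K₂) : Fin n → Place k K₁ × Place k K₂ :=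
  fun i => if h : i ∈ P then (x ⟨i, h⟩, y ⟨i, h⟩) else w i

/-- eigenfunctionals for the characters `κ i` -/
structure Eig (a₁ : G →* (K₁ ≃ₐ[k] K₁)) (a₂ : G →* (K₂ ≃ₐ[k] K₂)) (o₁ : Place k F₁)
    (o₂ : Place k F₂) (κ : Fin n → (G →* kˣ)) (Θ : (Fin n → Place k K₁ × Place k K₂) → W) :
    Prop where
  kills : KillsF (PP k K₁ K₂ n) Θ
  eig₁ : ∀ (u : Fin n → G) v, Θ (tw a₁ a₂ u 1 v) = (((∏ i, κ i (u i))⁻¹ : kˣ) : k) • Θ v
  eig₂ : ∀ (u : Fin n → G) v, Θ (tw a₁ a₂ 1 u v) = ((∏ i, κ i (u i) : kˣ) : k) • Θ v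
  triv₁ : ∀ i, κ i = 1 → ∀ v e, Over (v i).1 o₁ e → Θ v = 0
  triv₂ : ∀ i, κ i = 1 → ∀ v e, Over (v i).2 o₂ e → Θ v = 0

/-- the antisymmetrization of an eigenfunctional over a large block with the same character -/
lemma block [IsAlgClosed k] [Module ℚ W] {o₁ : Place k F₁} {o₂ : Place k F₂} {κ : Fin n → (G →* kˣ)}
    {Θ : (Fin n → Place k K₁ × Place k K₂) → W} (hΘ : Eig a₁ a₂ o₁ o₂ κ Θ) {χ : G →* kˣ}
    {P : Finset (Fin n)} (hP : ∀ i ∈ P, κ i = χ) {c₁ c₂ : ℕ} (V1 : Van a₁ χ c₁ o₁)
    (V2 : Van a₂ χ⁻¹ c₂ o₂) (hcard : c₁ * c₂ < P.card) (w : Fin n → Place k K₁ × Place k K₂) :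
    ∑ ρ : Perm P, ((Perm.sign ρ : ℤ) : ℚ) • Θ (fun i => w (Perm.ofSubtype ρ i)) = 0 := by
  classical
  have key := two_var_fin (ι := P) c₁ c₂ (by rw [Fintype.card_coe]; exact hcard)
    (fun σ τ => Θ (insB P w (fun p => (w (σ p)).1) (fun p => (w (τ p)).2)))
    (by
      intro σ τ P₀ hP₀
      let ins : (P₀ → Place k K₁) → (Fin n → Place k K₁ × Place k K₂) := fun ζ =>
        insB P w (fun p => if h : p ∈ P₀ then ζ ⟨p, h⟩ else (w (σ p)).1) (fun p => (w (τ p)).2)
      have h1 := one_var V1 hΘ.kills (ι := P₀) (by rw [Fintype.card_coe, hP₀]; omega) ins ?_ ?_ ?_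
        (fun p => (w (σ p)).1)
      · rw [← h1]
        apply Finset.sum_congr rfl
        intro ρ _
        congr 1
        simp only [ins]
        congr 1
        ext1 p
        by_cases hp : p ∈ P₀
        · rw [dif_pos hp, Perm.mul_apply, Perm.ofSubtype_apply_of_mem _ hp]
        · rw [dif_neg hp, Perm.mul_apply, Perm.ofSubtype_apply_of_not_mem _ hp]
      · intro B _ _ _ s hs i
        simp only [ins, insB]
        by_cases hi : i ∈ P
        · simp only [dif_pos hi]
          refine ⟨?_, curve_const _ _ _⟩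
          by_cases hi' : (⟨i, hi⟩ : P) ∈ P₀
          · simp only [dif_pos hi']
            exact hs ⟨⟨i, hi⟩, hi'⟩
          · simp only [dif_neg hi']
            exact curve_const _ _ _
        · simp only [dif_neg hi]
          exact ⟨curve_const _ _ _, curve_const _ _ _⟩
      · intro u x
        let u' : Fin n → G := fun i => if h : ∃ hi : i ∈ P, (⟨i, hi⟩ : P) ∈ P₀ then
          u ⟨⟨i, h.choose⟩, h.choose_spec⟩ else 1
        have hu' : ∀ p : P₀, u' p.1.1 = u p := by
          intro p
          have : ∃ hi : p.1.1 ∈ P, (⟨p.1.1, hi⟩ : P) ∈ P₀ := ⟨p.1.2, p.2⟩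
          simp only [u', dif_pos this]
        have h3 : ins (fun i => act a₁ (u i) (x i)) = tw a₁ a₂ u' 1 (ins x) := by
          ext1 i
          simp only [ins, insB, tw]
          by_cases hi : i ∈ P
          · simp only [dif_pos hi, Pi.one_apply, act_one]
            by_cases hi' : (⟨i, hi⟩ : P) ∈ P₀
            · simp only [dif_pos hi']
              rw [← hu' ⟨⟨i, hi⟩, hi'⟩]
            · simp only [dif_neg hi']
              have : ¬ ∃ hi : i ∈ P, (⟨i, hi⟩ : P) ∈ P₀ := by
                rintro ⟨_, h⟩; exact hi' h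
              simp only [u', dif_neg this, act_one]
          · simp only [dif_neg hi, Pi.one_apply, act_one]
            have : ¬ ∃ hi : i ∈ P, (⟨i, hi⟩ : P) ∈ P₀ := by
              rintro ⟨h, _⟩; exact hi h
            simp only [u', dif_neg this, act_one]
        rw [h3, hΘ.eig₁]
        congr 3
        rw [map_prod]
        symm
        apply Fintype.prod_of_injective (fun p : P₀ => p.1.1)
          (fun p q h => Subtype.ext (Subtype.ext h))
        · intro i hi
          have : ¬ ∃ hi : i ∈ P, (⟨i, hi⟩ : P) ∈ P₀ := by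
            rintro ⟨h, h'⟩; exact hi ⟨⟨⟨i, h⟩, h'⟩, rfl⟩
          simp only [u', dif_neg this, map_one]
        · intro p
          rw [hu' p, hP _ p.1.2]
      · intro hχ x p e hp
        refine hΘ.triv₁ p.1.1 (by rw [hP _ p.1.2, hχ]) _ e ?_
        simp only [ins, insB, dif_pos p.1.2]
        rw [dif_pos p.2]
        exact hp)
    (by
      intro σ τ P₀ hP₀
      let ins : (P₀ → Place k K₂) → (Fin n → Place k K₁ × Place k K₂) := fun ζ =>
        insB P w (fun p => (w (σ p)).1) (fun p => if h : p ∈ P₀ then ζ ⟨p, h⟩ else (w (τ p)).2)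
      have h1 := one_var V2 hΘ.kills (ι := P₀) (by rw [Fintype.card_coe, hP₀]; omega) ins ?_ ?_ ?_
        (fun p => (w (τ p)).2)
      · rw [← h1]
        apply Finset.sum_congr rfl
        intro ρ _
        congr 1
        simp only [ins]
        congr 1
        ext1 p
        by_cases hp : p ∈ P₀
        · rw [dif_pos hp, Perm.mul_apply, Perm.ofSubtype_apply_of_mem _ hp]
        · rw [dif_neg hp, Perm.mul_apply, Perm.ofSubtype_apply_of_not_mem _ hp]
      · intro B _ _ _ s hs i
        simp only [ins, insB]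
        by_cases hi : i ∈ P
        · simp only [dif_pos hi]
          refine ⟨curve_const _ _ _, ?_⟩
          by_cases hi' : (⟨i, hi⟩ : P) ∈ P₀
          · simp only [dif_pos hi']
            exact hs ⟨⟨i, hi⟩, hi'⟩
          · simp only [dif_neg hi']
            exact curve_const _ _ _
        · simp only [dif_neg hi]
          exact ⟨curve_const _ _ _, curve_const _ _ _⟩
      · intro u x
        let u' : Fin n → G := fun i => if h : ∃ hi : i ∈ P, (⟨i, hi⟩ : P) ∈ P₀ then
          u ⟨⟨i, h.choose⟩, h.choose_spec⟩ else 1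
        have hu' : ∀ p : P₀, u' p.1.1 = u p := by
          intro p
          have : ∃ hi : p.1.1 ∈ P, (⟨p.1.1, hi⟩ : P) ∈ P₀ := ⟨p.1.2, p.2⟩
          simp only [u', dif_pos this]
        have h3 : ins (fun i => act a₂ (u i) (x i)) = tw a₁ a₂ 1 u' (ins x) := by
          ext1 i
          simp only [ins, insB, tw]
          by_cases hi : i ∈ P
          · simp only [dif_pos hi, Pi.one_apply, act_one]
            by_cases hi' : (⟨i, hi⟩ : P) ∈ P₀
            · simp only [dif_pos hi']
              rw [← hu' ⟨⟨i, hi⟩, hi'⟩]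
            · simp only [dif_neg hi']
              have : ¬ ∃ hi : i ∈ P, (⟨i, hi⟩ : P) ∈ P₀ := by
                rintro ⟨_, h⟩; exact hi' h
              simp only [u', dif_neg this, act_one]
          · simp only [dif_neg hi, Pi.one_apply, act_one]
            have : ¬ ∃ hi : i ∈ P, (⟨i, hi⟩ : P) ∈ P₀ := by
              rintro ⟨h, _⟩; exact hi h
            simp only [u', dif_neg this, act_one]
        rw [h3, hΘ.eig₂]
        congr 2
        rw [MonoidHom.inv_apply, inv_inv, map_prod]
        symm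
        apply Fintype.prod_of_injective (fun p : P₀ => p.1.1)
          (fun p q h => Subtype.ext (Subtype.ext h))
        · intro i hi
          have : ¬ ∃ hi : i ∈ P, (⟨i, hi⟩ : P) ∈ P₀ := by
            rintro ⟨h, h'⟩; exact hi ⟨⟨⟨i, h⟩, h'⟩, rfl⟩
          simp only [u', dif_neg this, map_one]
        · intro p
          rw [hu' p, hP _ p.1.2]
      · intro hχ x p e hp
        have hχ' : χ = 1 := by
          ext1 g
          have h5 := DFunLike.congr_fun hχ g
          rw [MonoidHom.inv_apply, MonoidHom.one_apply, inv_eq_one] at h5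
          rw [h5, MonoidHom.one_apply]
        refine hΘ.triv₂ p.1.1 (by rw [hP _ p.1.2, hχ']) _ e ?_
        simp only [ins, insB, dif_pos p.1.2]
        rw [dif_pos p.2]
        exact hp)
  rw [← key]
  apply Finset.sum_congr rfl
  intro ρ _
  congr 2
  ext1 i
  simp only [insB]
  by_cases hi : i ∈ P
  · rw [dif_pos hi, Perm.ofSubtype_apply_of_mem _ hi]
  · rw [dif_neg hi, Perm.ofSubtype_apply_of_not_mem _ hi]

end main

end Pool.Agent.H25.VO
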